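import Pool.Agent.Lib.MP_64d474_lc.ST.Stmts

/-!
# The second algorithm

The variables whose coefficient matrix has rank at least two take the values `hitv`, the other
ones the values `tval` of the quasi-polynomial test set; if the number of rows is small, the
Fischer norm of the determinant is computed instead.
-/

set_option autoImplicit false

open Pool.Agent.Lib.MP_64d474_lc.ST
open Pool.Agent.Lib.MP_64d474_lc.SubExp (bound levels)

namespace Pool.Agent.Lib.MP_64d474_lc.ST2

/-! ### Ranks of the coefficient matrices -/

/-- one column of the elimination, with the number of the pivots -/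
def rstep (p : ℕ) (s : ℕ × List (List ℕ)) : ℕ × List (List ℕ) :=
  if (s.2.filter (headNZ p)).isEmpty then (s.1, s.2.map List.tail) else
    (s.1 + 1, ((s.2.filter (headNZ p)).tail ++ s.2.filter fun r => !headNZ p r).map
      (comb p ((s.2.filter (headNZ p)).headD [])))

/-- the rank modulo `p` of a matrix with `n` columns -/
def rkmod (p n : ℕ) (M : List (List ℕ)) : ℕ := ((rstep p)^[n] (0, M)).1

/-- the coefficient matrix of the variable `v` modulo `p` -/
def cmat (p : ℕ) (v : List Bool) (A : RMat) : List (List ℕ) :=
  A.map fun r => r.map fun e =>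
    ((e.filter fun q => decide (q.2 = v)).map fun q => coefmod p q.1).sum % p

/-- the rank of the coefficient matrix of `v`: the largest rank modulo a prime -/
def mult (A : RMat) (L : ℕ) (v : List Bool) : ℕ :=
  ((List.range (pbound L)).map fun p =>
    bif isPrime (p + 1) then rkmod (p + 1) A.length (cmat (p + 1) v A) else 0).foldl max 0

/-- the list of the ranks: the rank of the coefficient matrix if it is at least two, for the first
occurrence of a variable, and `0` for the other ones -/
def rl (A : RMat) (L : ℕ) : List ℕ :=
  (List.range (vars A).length).map fun j =>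
    if (vars A).idxOf ((vars A).getD j []) = j then
      if 2 ≤ mult A L ((vars A).getD j []) then mult A L ((vars A).getD j []) else 0
    else 0

/-! ### The points -/

/-- the value of the variable with the number `j` for the list `l` of ranks and the digits `d` -/
def hitv (l : List ℕ) (R : ℕ) (d : List ℕ) (j : ℕ) : ℕ :=
  if l.getD j 0 ≤ R then
    (d.take (srcs R)).foldr
      (fun z a => (z + a) *
        (2 ^ ((l.take j).sum % R) * d.getD (srcs R + (l.take j).sum / R) 0)) 0
  else d.getD (srcs R + blks l.sum R + (l.take j).sum / R) 0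

/-- the same modulo `p` -/
def hitm (p : ℕ) (l : List ℕ) (R : ℕ) (d : List ℕ) (j : ℕ) : ℕ :=
  if l.getD j 0 ≤ R then
    (d.take (srcs R)).foldr
      (fun z a => (z + a) *
        dbl p ((l.take j).sum % R) (d.getD (srcs R + (l.take j).sum / R) 0) % p) 0
  else d.getD (srcs R + blks l.sum R + (l.take j).sum / R) 0 % p

/-- the radix -/
def radix (n m : ℕ) : ℕ := n * bound n m + 1

/-- the digit `i` of the exponent of the variable with the number `j` -/
def wdig (e : List ℕ) (j i : ℕ) : ℕ := e.getD (1 + i) 0 ^ j % (e.getD 0 0 + 1)

/-- the value `t ^ w` of the variable with the number `j`; the digits `e` are: a prime minus one,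
the bases, the digits of `t` -/
def tval (n m : ℕ) (e : List ℕ) (j : ℕ) : ℕ :=
  ((List.range (levels n + 1)).map fun i =>
    e.getD (1 + levels n + i) 0 * radix n m ^ i).sum ^
      ((List.range (levels n)).map fun i => wdig e j i * radix n m ^ i).sum

/-- `x ^ k` modulo `p` -/
def pwm (p x k : ℕ) : ℕ := (fun a => a * x % p)^[k] (1 % p)

/-- the number `t` modulo `p` -/
def tmod (p n m : ℕ) (e : List ℕ) : ℕ :=
  (List.range (levels n + 1)).foldr
    (fun i a => (e.getD (1 + levels n + i) 0 + radix n m * a) % p) 0

/-- the value modulo `p` -/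
def tm (p n m : ℕ) (e : List ℕ) (j : ℕ) : ℕ :=
  ((List.range (levels n)).foldl
    (fun (s : ℕ × ℕ) i => (pwm p s.1 (radix n m),
      s.2 * pwm p s.1 (pwm (e.getD 0 0 + 1) (e.getD (1 + i) 0) j) % p))
    (tmod p n m e, 1 % p)).2

/-- the value of the variable with the number `j` -/
def xv (n m : ℕ) (l : List ℕ) (R : ℕ) (d e : List ℕ) (j : ℕ) : ℕ :=
  if 2 ≤ l.getD j 0 then hitv l R d j else tval n m e j

/-- the same modulo `p` -/
def xm (p n m : ℕ) (l : List ℕ) (R : ℕ) (d e : List ℕ) (j : ℕ) : ℕ :=
  if 2 ≤ l.getD j 0 then hitm p l R d j else tm p n m e j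

/-- an entry modulo `p` -/
def entm (p n : ℕ) (V : List (List Bool)) (l : List ℕ) (R : ℕ) (d e : List ℕ)
    (f : List RPair) : ℕ :=
  (f.map fun q => coefmod p q.1 * xm p n V.length l R d e (V.idxOf q.2)).sum % p

/-- the matrix modulo `p` -/
def matm (p : ℕ) (l : List ℕ) (R : ℕ) (d e : List ℕ) (A : RMat) : List (List ℕ) :=
  A.map fun r => r.map (entm p A.length (vars A) l R d e)

/-- the determinants of the tests have absolute value less than `2 ^ kb L t`, `t` the number of the
lists `e` -/
def kb (L t : ℕ) : ℕ :=
  64 * ((L + 2) * (L + 2) * ((L + 2) * (L + 2)) * ((L + 2) * (L + 2) * ((L + 2) * (L + 2)))) *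
    (t + 1)

def pb (L t : ℕ) : ℕ := 1024 * ((kb L t + 1) * (kb L t + 1))

/-- some prime up to the bound shows that the determinant is not `0` -/
def goodH (A : RMat) (B : ℕ) (l : List ℕ) (R : ℕ) (d e : List ℕ) : Bool :=
  (List.range B).any fun p => isPrime (p + 1) && elimOK (p + 1) (matm (p + 1) l R d e A)

/-! ### The Fischer norm -/

/-- the inner product of two linear forms modulo `p` -/
def ipm (p : ℕ) (e f : List RPair) : ℕ :=
  (e.flatMap fun q => (f.filter fun q' => decide (q'.2 = q.2)).map fun q' =>
    coefmod p q.1 * coefmod p q'.1).sum % p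

/-- the entry `i, j` -/
def ent (A : RMat) (i j : ℕ) : List RPair := (A.getD i []).getD j []

/-- the sign `(-1) ^ k` modulo `p` -/
def sgm (p k : ℕ) : ℕ := if k % 2 = 0 then 1 % p else p - 1

/-- the tables: the values for triples of sets of indices -/
abbrev Tab : Type := List ((List ℕ × List ℕ × List ℕ) × ℕ)

def look (T : Tab) (k : List ℕ × List ℕ × List ℕ) : ℕ :=
  ((T.filter fun t => decide (t.1 = k)).headD (([], [], []), 0)).2

/-- the triples of members of `S` of length `k` -/
def keys (S : List (List ℕ)) (k : ℕ) : List (List ℕ × List ℕ × List ℕ) :=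
  (S.filter fun a => decide (a.length = k)).flatMap fun a =>
    (S.filter fun b => decide (b.length = k)).flatMap fun b =>
      (S.filter fun c => decide (c.length = k)).map fun c => (a, b, c)

/-- the value for the key `(a, b, c)` of length `k + 1` from the table `T` for the length `k`:
expansion along the row `k` -/
def fnew (p : ℕ) (A : RMat) (k : ℕ) (T : Tab) (x : List ℕ × List ℕ × List ℕ) : ℕ :=
  ((List.range (k + 1)).flatMap fun j => (List.range (k + 1)).flatMap fun l =>
    (List.range (k + 1)).map fun r =>
      sgm p (k + j + l + r) *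
        ipm p (ent A k (x.1.getD j 0)) (ent A (x.2.1.getD l 0) (x.2.2.getD r 0)) *
        look T (x.1.eraseIdx j, x.2.1.eraseIdx l, x.2.2.eraseIdx r)).sum % p

def fstep (p : ℕ) (A : RMat) (S : List (List ℕ)) (s : ℕ × Tab) : ℕ × Tab :=
  (s.1 + 1, (keys S (s.1 + 1)).map fun x => (x, fnew p A s.1 s.2 x))

/-- the Fischer norm of the determinant modulo `p` -/
def fval (p : ℕ) (A : RMat) (S : List (List ℕ)) : ℕ :=
  look ((fstep p A S)^[A.length] (0, [(([], [], []), 1 % p)])).2
    (List.range A.length, List.range A.length, List.range A.length)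

/-- the sets of indices of the vectors of zeros and ones -/
def subs (n : ℕ) (vs : List (List ℕ)) : List (List ℕ) :=
  vs.map fun d => (List.range n).filter fun i => decide (d.getD i 0 = 1)

def goodF (A : RMat) (B : ℕ) (vs : List (List ℕ)) : Bool :=
  (List.range B).any fun p =>
    isPrime (p + 1) && !decide (fval (p + 1) A (subs A.length vs) = 0)

/-! ### The decision -/

/-- the list of the ranks of the input -/
def rw' (w : List Letter) : List ℕ :=
  bif wellformed w then rl (parse w) w.length else []

/-- the side -/
def rs (w : List Letter) : ℕ := sideC (rw' w).sum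

/-- the number of rows -/
def nr (w : List Letter) : ℕ := cnt w Letter.row

/-- the exponent of the running time of the first kind -/
def cost (w : List Letter) : ℕ :=
  rs w * rs w * (Nat.log 2 ((rw' w).sum + 2) + 1) +
    (Nat.log 2 (w.length + 2) + 1) * (Nat.log 2 (w.length + 2) + 1)

/-- use the Fischer norm -/
def useF (w : List Letter) : Bool := decide (nr w ≤ cost w)

def T1 (w : List Letter) : ℕ := bif useF w then nr w else digs (rw' w).sum (rs w)
def D1 (w : List Letter) : ℕ := bif useF w then 1 else dmax (rw' w).sum (rs w)
def T2 (w : List Letter) : ℕ := bif useF w then 0 else 2 * levels (nr w) + 2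
def D2 (w : List Letter) : ℕ := bif useF w then 0 else nr w * bound (nr w) (terms w)

/-- the decision for the lists `vs`, `ws` of digits -/
def dec2 (w : List Letter) (vs ws : List (List ℕ)) : Bool :=
  wellformed w && bif useF w then goodF (parse w) (pbound w.length) vs else
    vs.any fun d => ws.any fun e =>
      goodH (parse w) (pb w.length ws.length) (rw' w) (rs w) d e

def vs1 (w : List Letter) : List (List ℕ) := vecs (D1 w) (T1 w)
def vs2 (w : List Letter) : List (List ℕ) := vecs (D2 w) (T2 w)

/-- **The decision.** -/
def accept2 (w : List Letter) : Bool := dec2 w (vs1 w) (vs2 w)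

/-- the bound of the running time -/
def tb (c : ℕ) (w : List Letter) : ℕ := (w.length + 2) ^ c * 2 ^ (c * min (nr w) (cost w))

end Pool.Agent.Lib.MP_64d474_lc.ST2
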