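import Pool.Agent.Lib.MP_64d474_lc.ST2.Hit2

/-!
# Assembly
-/

set_option autoImplicit false
set_option maxHeartbeats 800000

open Pool.Agent.Lib.PT Pool.Agent.Lib.MP_64d474_lc.ST
open Pool.Agent.Lib.MP_64d474_lc.SubExp (bound levels)

namespace Pool.Agent.Lib.MP_64d474_lc.ST2

/-! ### The table -/

theorem look_lt (p : ℕ) (hp : 0 < p) (T : Tab) (hT : ∀ t ∈ T, t.2 < p)
    (k : List ℕ × List ℕ × List ℕ) : look T k < p := by
  unfold look
  cases h : T.filter fun t => decide (t.1 = k) with
  | nil => simpa using hp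
  | cons t l =>
    have : t ∈ T.filter fun t => decide (t.1 = k) := by rw [h]; exact List.mem_cons_self ..
    exact hT t (List.mem_filter.1 this).1

theorem fval_lt (p : ℕ) (hp : 0 < p) (A : RMat) (S : List (List ℕ)) : fval p A S < p := by
  unfold fval
  apply look_lt p hp
  have key : ∀ k : ℕ, ∀ t ∈ ((fstep p A S)^[k] (0, [(([], [], []), 1 % p)])).2, t.2 < p := by
    intro k
    induction k with
    | zero =>
      intro t ht
      simp only [Function.iterate_zero, id_eq, List.mem_singleton] at ht
      rw [ht]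
      exact Nat.mod_lt _ hp
    | succ k ih =>
      intro t ht
      rw [Function.iterate_succ_apply'] at ht
      unfold fstep at ht
      simp only [List.mem_map] at ht
      obtain ⟨x, -, rfl⟩ := ht
      exact Nat.mod_lt _ hp
  exact key _

theorem goodF_iff (hip : StIsPrime) (htab : StTab) (A : SMat) (B : ℕ)
    (h : ∀ r ∈ A, r.length = A.length) :
    goodF (raw A) B (vecs 1 A.length) = true ↔ ∃ p < B, (p + 1).Prime ∧ ¬ ((p + 1 : ℕ) : ℤ) ∣ Hf A := by
  have hl : (raw A).length = A.length := by simp [raw]
  unfold goodF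
  simp only [List.any_eq_true, List.mem_range, Bool.and_eq_true, Bool.not_eq_true',
    decide_eq_false_iff_not]
  refine exists_congr fun p => and_congr_right fun _ => ?_
  rw [hip (p + 1), hl]
  refine and_congr_right fun _ => not_congr ?_
  have h1 := htab A (p + 1) (Nat.succ_pos p) h
  have h2 := fval_lt (p + 1) (Nat.succ_pos p) (raw A) (subs A.length (vecs 1 A.length))
  rw [← ZMod.intCast_zmod_eq_zero_iff_dvd, ← h1, ZMod.natCast_eq_zero_iff]
  exact ⟨fun h3 => by rw [h3]; exact dvd_zero _, fun h3 => Nat.eq_zero_of_dvd_of_lt h3 h2⟩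

/-! ### Elimination -/

theorem length_matm (p R : ℕ) (l d e : List ℕ) (A : SMat) :
    (matm p l R d e (raw A)).length = A.length := by
  simp [matm, raw]

theorem rows_matm (p R : ℕ) (l d e : List ℕ) (A : SMat) (h : ∀ r ∈ A, r.length = A.length) :
    ∀ r ∈ matm p l R d e (raw A), r.length = (matm p l R d e (raw A)).length := by
  intro r hr
  rw [length_matm]
  simp only [matm, raw, List.map_map, List.mem_map, Function.comp_apply] at hr
  obtain ⟨r', hr', rfl⟩ := hr
  simp [h r' hr']

theorem elimOK_iff2 (hel : StElim) (hmod : StMod2) (A : SMat) (p R : ℕ) (d e : List ℕ)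
    (hp : p.Prime) (h : ∀ r ∈ A, r.length = A.length) :
    elimOK p (matm p (wl A) R d e (raw A)) = true ↔
      ¬ (p : ℤ) ∣ (evalM A (pointR A R d e) : Matrix _ _ ℤ).det := by
  have : Fact p.Prime := ⟨hp⟩
  rw [hel p _ (rows_matm p R _ d e A h)]
  have hlen := length_matm p R (wl A) d e A
  have e1 : (Matrix.of fun i j : Fin (matm p (wl A) R d e (raw A)).length =>
      (((((matm p (wl A) R d e (raw A)).getD i []).getD j 0 : ℕ)) : ZMod p)) =
      ((evalM A (pointR A R d e) : Matrix _ _ ℤ).map (Int.castRingHom (ZMod p))).submatrix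
        (finCongr hlen) (finCongr hlen) := by
    ext i j
    have := hmod A p R d e hp.pos h (finCongr hlen i) (finCongr hlen j)
    simpa using this
  rw [e1, Matrix.det_submatrix_equiv_self, ← RingHom.mapMatrix_apply, ← RingHom.map_det]
  rw [eq_intCast, Ne, ZMod.intCast_zmod_eq_zero_iff_dvd]

theorem goodH_iff (hip : StIsPrime) (hel : StElim) (hmod : StMod2) (A : SMat) (B R : ℕ)
    (d e : List ℕ) (h : ∀ r ∈ A, r.length = A.length) :
    goodH (raw A) B (wl A) R d e = true ↔ ∃ p < B, (p + 1).Prime ∧
      ¬ ((p + 1 : ℕ) : ℤ) ∣ (evalM A (pointR A R d e) : Matrix _ _ ℤ).det := by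
  unfold goodH
  simp only [List.any_eq_true, List.mem_range, Bool.and_eq_true]
  refine exists_congr fun p => and_congr_right fun _ => ?_
  rw [hip (p + 1)]
  exact and_congr_right fun hp => elimOK_iff2 hel hmod A (p + 1) R d e hp h

/-! ### Numbers without the determinant -/

theorem exists_prime_iff (hpr : StPrime) (D : ℤ) (K B : ℕ)
    (hB : B = 1024 * ((K + 1) * (K + 1))) (hK : D.natAbs < 2 ^ K) :
    (∃ p < B, (p + 1).Prime ∧ ¬ ((p + 1 : ℕ) : ℤ) ∣ D) ↔ D ≠ 0 := by
  constructor
  · rintro ⟨p, -, -, h⟩ rfl
    exact h (dvd_zero _)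
  · intro h
    obtain ⟨p, hp, hpp, hpd⟩ := hpr K D h hK
    have e : p - 1 + 1 = p := Nat.sub_add_cancel hpp.pos
    refine ⟨p - 1, ?_, ?_, ?_⟩
    · rw [hB]
      have := hpp.pos
      omega
    · rw [e]
      exact hpp
    · rw [e]
      exact hpd

/-! ### The decision for the word of a square matrix -/

theorem accept2_code (hP : StParse) (hR : StRaw) (hS : StSizes) (hpr : StPrime)
    (hip : StIsPrime) (hel : StElim) (hmod : StMod2) (hb : StBound2) (hside : StSide)
    (hev : StEval) (hhit : StHit2) (hrl : StRl) (hwick : StWick) (htab : StTab)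
    (hbF : StBoundF) (hnr : StNr) (A : SMat) (hsq : ∀ r ∈ A, r.length = A.length) :
    accept2 (code A) = true ↔ (toMat A).det ≠ 0 := by
  obtain ⟨hR1, hR2, hR3⟩ := hR
  have h1 : parse (code A) = raw A := by rw [← hR1, hP]
  have hwf : wellformed (code A) = true := by
    unfold wellformed
    rw [h1, hR1, hR2, raw_square A hsq]
    simp
  obtain ⟨hS1, -, -, -, -⟩ := hS A
  obtain ⟨hl1, hl2, hl3⟩ := hrl A hsq
  have hrw : rw' (code A) = wl A := by
    unfold rw'
    rw [hwf, h1]
    exact hl1
  have hn := hnr A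
  unfold accept2 dec2
  rw [hwf, Bool.true_and, h1]
  cases hu : useF (code A) with
  | true =>
    have e1 : vs1 (code A) = vecs 1 A.length := by
      unfold vs1 D1 T1
      rw [hu, hn]
      rfl
    rw [e1, cond_true, goodF_iff hip htab A _ hsq, exists_prime_iff hpr (Hf A)
      (kbound (code A).length) (pbound (code A).length) (by unfold pbound; rfl) (hbF A hsq)]
    exact hwick A
  | false =>
    have hn1 : 1 ≤ A.length := by
      have h2 : ¬ (nr (code A) ≤ cost (code A)) := by
        intro h3
        unfold useF at hu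
        rw [decide_eq_true h3] at hu
        exact Bool.noConfusion hu
      have h3 : 1 ≤ cost (code A) := by
        unfold cost
        exact le_add_left (Nat.mul_pos (Nat.succ_pos _) (Nat.succ_pos _))
      rw [← hn]
      omega
    have hrs : rs (code A) = sideC (wl A).sum := by
      unfold rs
      rw [hrw]
    have e1 : vs1 (code A) =
        vecs (dmax (wl A).sum (sideC (wl A).sum)) (digs (wl A).sum (sideC (wl A).sum)) := by
      unfold vs1 D1 T1
      rw [hu, hrs, hrw]
      rfl
    have e2 : vs2 (code A) =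
        vecs (A.length * bound A.length (varsN A).length) (2 * levels A.length + 2) := by
      unfold vs2 D2 T2
      rw [hu, hn, hS1]
      rfl
    rw [e1, e2, hrw, hrs]
    set W2 := vecs (A.length * bound A.length (varsN A).length) (2 * levels A.length + 2)
      with hW2
    set W1 := vecs (dmax (wl A).sum (sideC (wl A).sum)) (digs (wl A).sum (sideC (wl A).sum))
      with hW1
    rw [cond_false]
    obtain ⟨s1, s2, s3, s4⟩ := hside (wl A).sum
    have key : ∀ d ∈ W1, ∀ e ∈ W2,
        (goodH (raw A) (pb (code A).length W2.length) (wl A) (sideC (wl A).sum) d e = true ↔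
          (evalM A (pointR A (sideC (wl A).sum) d e) : Matrix _ _ ℤ).det ≠ 0) := by
      intro d hd e he
      rw [goodH_iff hip hel hmod A _ _ d e hsq, exists_prime_iff hpr _
        (kb (code A).length W2.length) (pb (code A).length W2.length) (by unfold pb; rfl)]
      exact hb A (sideC (wl A).sum) d e hsq hn1 s1 s3 (hl2.le.trans hl3) hd he
    simp only [List.any_eq_true]
    constructor
    · rintro ⟨d, hd, e, he, h2⟩ h3
      rw [key d hd e he] at h2
      apply h2
      rw [← hev, h3, map_zero]
    · intro h2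
      obtain ⟨d, hd, e, he, h3⟩ := hhit A (sideC (wl A).sum) hsq hn1 s1 h2
      exact ⟨d, hd, e, he, (key d hd e he).2 h3⟩

theorem accept2_iff (hP : StParse) (hR : StRaw) (hS : StSizes) (hpr : StPrime)
    (hip : StIsPrime) (hel : StElim) (hmod : StMod2) (hb : StBound2) (hside : StSide)
    (hev : StEval) (hhit : StHit2) (hrl : StRl) (hwick : StWick) (htab : StTab)
    (hbF : StBoundF) (hnr : StNr) (w : List Letter) :
    accept2 w = true ↔ ∃ A : SMat, code A = w ∧ Nonsingular A := by
  have hc := accept2_code hP hR hS hpr hip hel hmod hb hside hev hhit hrl hwick htab hbF hnr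
  obtain ⟨hR1, hR2, hR3⟩ := hR
  constructor
  · intro h
    have h1 : wellformed w = true := by
      unfold accept2 dec2 at h
      rw [Bool.and_eq_true] at h
      exact h.1
    unfold wellformed at h1
    rw [Bool.and_eq_true, Bool.and_eq_true, decide_eq_true_eq] at h1
    obtain ⟨h2, h3, h4⟩ := h1
    have h5 := hR3 _ h3
    have hcode : code (unraw (parse w)) = w := by rw [← hR1, h5, h2]
    have hsq : ∀ r ∈ unraw (parse w), r.length = (unraw (parse w)).length :=
      square_of_raw _ (by rw [h5]; exact h4)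
    refine ⟨unraw (parse w), hcode, hsq, ?_⟩
    rw [← hc _ hsq, hcode]
    exact h
  · rintro ⟨A, rfl, hsq, hdet⟩
    exact (hc A hsq).2 hdet

end Pool.Agent.Lib.MP_64d474_lc.ST2
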