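import Pool.Agent.Lib.MP_64d474_lc.ST2.Stmts
import Pool.Agent.Lib.MP_64d474_lc.ST.Bound
import Pool.Agent.Lib.MP_64d474_lc.ST.Sizes

/-!
# The bound for the determinants of the tests of the second machine
-/

set_option autoImplicit false

open Pool.Agent.Lib.MP_64d474_lc.ST
open Pool.Agent.Lib.MP_64d474_lc.SubExp (bound levels)

namespace Pool.Agent.Lib.MP_64d474_lc.ST2

namespace Bd2H

theorem hitv_le (l : List ℕ) (L R : ℕ) (d : List ℕ) (j : ℕ)
    (hV : l.sum ≤ L) (hR : 1 ≤ R) (hR' : R ≤ l.sum + 1)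
    (hd : ∀ x ∈ d, x ≤ dmax l.sum R) : hitv l R d j ≤ 2 ^ (22 * (L + 2) ^ 3) := by
  obtain ⟨M, hM⟩ : ∃ M, M = L + 2 := ⟨_, rfl⟩
  rw [← hM]
  have hM2 : 2 ≤ M := by omega
  have hRM : R + 1 ≤ M := by omega
  have hVM : l.sum ≤ M := by omega
  have hN : srcs R ≤ 5 * M ^ 2 := by
    have h1 : R * R ≤ M ^ 2 := by
      rw [pow_two]
      exact Nat.mul_le_mul (by omega) (by omega)
    have h2 : R ≤ M ^ 2 := by nlinarith
    unfold srcs
    omega
  have hD : dmax l.sum R ≤ 5 * M ^ 3 := by
    unfold dmax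
    calc srcs R * l.sum ≤ 5 * M ^ 2 * M := Nat.mul_le_mul hN hVM
      _ = 5 * M ^ 3 := by ring
  have hMp : M ≤ 2 ^ (M - 1) := by
    have := Bnd.lt_pow (M - 1)
    omega
  have hD2 : 5 * M ^ 3 ≤ 2 ^ (3 * M) := by
    calc 5 * M ^ 3 ≤ 2 ^ 3 * (2 ^ (M - 1)) ^ 3 :=
          Nat.mul_le_mul (by norm_num) (Nat.pow_le_pow_left hMp 3)
      _ = 2 ^ (3 + (M - 1) * 3) := by rw [← pow_mul, ← pow_add]
      _ = 2 ^ (3 * M) := by
          congr 1
          omega
  have hM3 : 4 * M ≤ M ^ 3 := by nlinarith [Nat.mul_le_mul hM2 hM2]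
  unfold hitv
  split_ifs with hc
  · have hq : 2 ^ ((l.take j).sum % R) * d.getD (srcs R + (l.take j).sum / R) 0 ≤
        2 ^ (4 * M) := by
      calc 2 ^ ((l.take j).sum % R) * d.getD (srcs R + (l.take j).sum / R) 0
          ≤ 2 ^ M * 2 ^ (3 * M) := by
            refine Nat.mul_le_mul (Nat.pow_le_pow_right (by norm_num) ?_)
              ((Bnd.getD_le hd _).trans (hD.trans hD2))
            have := Nat.mod_lt (l.take j).sum (show 0 < R by omega)
            omega
        _ = 2 ^ (4 * M) := by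
            rw [← pow_add]
            congr 1
            omega
    have hl : (d.take (srcs R)).length ≤ 5 * M ^ 2 := by
      rw [List.length_take]
      exact (min_le_left _ _).trans hN
    calc _ ≤ (d.take (srcs R)).length * (5 * M ^ 3) * (2 ^ (4 * M)) ^ (d.take (srcs R)).length :=
          Bnd.fold_le hq (Nat.one_le_two_pow) _
            fun a ha => (hd a (List.mem_of_mem_take ha)).trans hD
      _ ≤ 5 * M ^ 2 * (5 * M ^ 3) * (2 ^ (4 * M)) ^ (5 * M ^ 2) :=
          Nat.mul_le_mul (Nat.mul_le_mul_right _ hl)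
            (Nat.pow_le_pow_right Nat.one_le_two_pow hl)
      _ ≤ 2 ^ (2 * M ^ 3) * 2 ^ (20 * M ^ 3) := by
          refine Nat.mul_le_mul ?_ (le_of_eq ?_)
          · calc 5 * M ^ 2 * (5 * M ^ 3) = 25 * M ^ 5 := by ring
              _ ≤ 2 ^ 5 * (2 ^ (M - 1)) ^ 5 :=
                  Nat.mul_le_mul (by norm_num) (Nat.pow_le_pow_left hMp 5)
              _ = 2 ^ (5 + (M - 1) * 5) := by rw [← pow_mul, ← pow_add]
              _ ≤ 2 ^ (2 * M ^ 3) := Nat.pow_le_pow_right (by norm_num) (by omega)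
          · rw [← pow_mul]
            congr 1
            ring
      _ = 2 ^ (22 * M ^ 3) := by
          rw [← pow_add]
          congr 1
          ring
  · calc _ ≤ 5 * M ^ 3 := (Bnd.getD_le hd _).trans hD
      _ ≤ 2 ^ (3 * M) := hD2
      _ ≤ 2 ^ (22 * M ^ 3) := Nat.pow_le_pow_right (by norm_num) (by omega)

/-- digits -/
theorem sum_lt (B : ℕ) (f : ℕ → ℕ) (hf : ∀ i, f i ≤ B) (N : ℕ) :
    ((List.range N).map fun i => f i * (B + 1) ^ i).sum + 1 ≤ (B + 1) ^ N := by
  induction N with
  | zero => simp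
  | succ N ih =>
    rw [List.range_succ, List.map_append, List.sum_append, List.map_cons, List.map_nil,
      List.sum_cons, List.sum_nil, Nat.add_zero, pow_succ]
    have h1 : f N * (B + 1) ^ N ≤ B * (B + 1) ^ N := Nat.mul_le_mul_right _ (hf N)
    calc _ ≤ (B + 1) ^ N + B * (B + 1) ^ N := by omega
      _ = (B + 1) ^ N * (B + 1) := by ring

theorem length_vecs (D T : ℕ) : (vecs D T).length = (D + 1) ^ T := by
  unfold vecs
  induction T with
  | zero => rfl
  | succ T ih =>
    rw [Function.iterate_succ_apply', List.length_flatMap]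
    simp only [List.length_map, List.length_range, List.map_const', List.sum_replicate,
      smul_eq_mul]
    rw [ih, pow_succ]

theorem tval_le (n m : ℕ) (e : List ℕ) (j : ℕ) (he : ∀ x ∈ e, x ≤ n * bound n m) :
    tval n m e j ≤ 2 ^ (vecs (n * bound n m) (2 * levels n + 2)).length := by
  have hd : ∀ i, e.getD i 0 ≤ n * bound n m := fun i => Bnd.getD_le he i
  have h1 := sum_lt (n * bound n m) (fun i => e.getD (1 + levels n + i) 0)
    (fun i => hd _) (levels n + 1)
  have h2 := sum_lt (n * bound n m) (fun i => wdig e j i)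
    (fun i => by
      have h3 := Nat.mod_lt (e.getD (1 + i) 0 ^ j) (Nat.succ_pos (e.getD 0 0))
      have h4 := hd 0
      unfold wdig
      simp only [Nat.succ_eq_add_one] at h3
      omega) (levels n)
  have hr : radix n m = n * bound n m + 1 := rfl
  unfold tval
  rw [hr, length_vecs]
  have hpos : 1 ≤ (n * bound n m + 1) ^ (levels n + 1) := Nat.one_le_pow _ _ (Nat.succ_pos _)
  calc _ ≤ ((n * bound n m + 1) ^ (levels n + 1)) ^
        (((List.range (levels n)).map fun i => wdig e j i * (n * bound n m + 1) ^ i).sum) :=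
        Nat.pow_le_pow_left (by omega) _
    _ ≤ ((n * bound n m + 1) ^ (levels n + 1)) ^ ((n * bound n m + 1) ^ levels n) :=
        Nat.pow_le_pow_right hpos (by omega)
    _ ≤ (2 ^ ((n * bound n m + 1) ^ (levels n + 1))) ^ ((n * bound n m + 1) ^ levels n) :=
        Nat.pow_le_pow_left Nat.lt_two_pow_self.le _
    _ = 2 ^ ((n * bound n m + 1) ^ (2 * levels n + 1)) := by
        rw [← pow_mul, ← pow_add]
        congr 2
        omega
    _ ≤ 2 ^ ((n * bound n m + 1) ^ (2 * levels n + 2)) :=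
        Nat.pow_le_pow_right (by norm_num) (Nat.pow_le_pow_right (Nat.succ_pos _) (by omega))

end Bd2H

/-- The determinants of the tests are small. -/
theorem stBound2 : StBound2 := by
  intro A R d e _ _ hR hR' hsum hd he
  obtain ⟨-, -, hn, hs, hlen, hcoef⟩ := stSizes A
  have ht := fun j => Bd2H.tval_le A.length (varsN A).length e j (Bnd.vecs_le _ _ e he)
  obtain ⟨T, hT⟩ : ∃ T, T = (vecs (A.length * bound A.length (varsN A).length)
    (2 * levels A.length + 2)).length := ⟨_, rfl⟩
  rw [← hT] at ht ⊢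
  obtain ⟨L, hL⟩ : ∃ L, L = (code A).length := ⟨_, rfl⟩
  rw [← hL] at hn hs hlen hcoef hsum ⊢
  obtain ⟨M, hM⟩ : ∃ M, M = L + 2 := ⟨_, rfl⟩
  have hM2 : 2 ≤ M := by omega
  have hM3 : 4 * M ≤ M ^ 3 := by nlinarith [Nat.mul_le_mul hM2 hM2]
  have hx : ∀ k, |pointR A R d e k| ≤ (2 ^ (T + 22 * M ^ 3) : ℤ) := by
    intro k
    have h1 := Bd2H.hitv_le (wl A) L R d ((varsN A).idxOf k) hsum hR hR' (Bnd.vecs_le _ _ d hd)
    rw [← hM] at h1
    have h2 := ht ((varsN A).idxOf k)
    have h3 : xv A.length (varsN A).length (wl A) R d e ((varsN A).idxOf k) ≤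
        2 ^ (T + 22 * M ^ 3) := by
      unfold xv
      split_ifs
      · exact h1.trans (Nat.pow_le_pow_right (by norm_num) (by omega))
      · exact h2.trans (Nat.pow_le_pow_right (by norm_num) (by omega))
    unfold pointR
    rw [Nat.abs_cast]
    exact_mod_cast h3
  have hent : ∀ i j, |evalM A (pointR A R d e) i j| ≤ (2 ^ (T + 23 * M ^ 3) : ℤ) := by
    intro i j
    have key : ∀ f : List (ℤ × ℕ), f.length ≤ L → (∀ p ∈ f, p.1.natAbs < 2 ^ L) →
        |evalE (pointR A R d e) f| ≤ (2 ^ (T + 23 * M ^ 3) : ℤ) := by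
      intro f he1 he2
      have h1 := Bnd.evalE_le (pointR A R d e) (2 ^ (T + 22 * M ^ 3)) (2 ^ L) (by positivity) hx f
        fun p hp => by
          have h2 := he2 p hp
          rw [Int.abs_eq_natAbs]
          exact_mod_cast h2.le
      have h3 : (f.length : ℤ) ≤ 2 ^ M := by
        have h4 : f.length ≤ 2 ^ M := by
          have := Bnd.lt_pow M
          omega
        exact_mod_cast h4
      calc _ ≤ (f.length : ℤ) * (2 ^ L * 2 ^ (T + 22 * M ^ 3)) := h1
        _ ≤ 2 ^ M * (2 ^ M * 2 ^ (T + 22 * M ^ 3)) := by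
            refine mul_le_mul h3 (mul_le_mul_of_nonneg_right ?_ (by positivity))
              (by positivity) (by positivity)
            exact pow_le_pow_right₀ (by norm_num) (by omega)
        _ = 2 ^ (M + (M + (T + 22 * M ^ 3))) := by rw [← pow_add, ← pow_add]
        _ ≤ 2 ^ (T + 23 * M ^ 3) := pow_le_pow_right₀ (by norm_num) (by omega)
    unfold evalM
    rcases Bnd.mem_getD A i with h1 | h1
    · rcases Bnd.mem_getD (A.getD i []) j with h2 | h2
      · exact key _ (hlen _ h1 _ h2) (hcoef _ h1 _ h2)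
      · rw [h2]
        exact key [] (Nat.zero_le _) fun p hp => absurd hp List.not_mem_nil
    · rw [h1]
      have h2 : ([] : List (List (ℤ × ℕ))).getD j [] = [] := rfl
      rw [h2]
      exact key [] (Nat.zero_le _) fun p hp => absurd hp List.not_mem_nil
  have hdet := Matrix.det_le (abv := AbsoluteValue.abs) (A := evalM A (pointR A R d e)) hent
  rw [Fintype.card_fin, nsmul_eq_mul] at hdet
  have h1 : |(evalM A (pointR A R d e)).det| < (2 ^ kb L T : ℤ) := by
    refine lt_of_le_of_lt hdet ?_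
    have h2 : A.length.factorial ≤ 2 ^ (M * M) := by
      calc A.length.factorial ≤ A.length ^ A.length := Nat.factorial_le_pow _
        _ ≤ (2 ^ M) ^ A.length := by
            refine Nat.pow_le_pow_left ?_ _
            have := Bnd.lt_pow M
            omega
        _ ≤ (2 ^ M) ^ M := Nat.pow_le_pow_right Nat.one_le_two_pow (by omega)
        _ = 2 ^ (M * M) := by rw [← pow_mul]
    have h3 : (2 ^ (T + 23 * M ^ 3)) ^ A.length ≤ 2 ^ ((T + 23 * M ^ 3) * M) := by
      rw [← pow_mul]
      exact Nat.pow_le_pow_right (by norm_num) (Nat.mul_le_mul_left _ (by omega))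
    have h4 : A.length.factorial * (2 ^ (T + 23 * M ^ 3)) ^ A.length < 2 ^ kb L T := by
      calc _ ≤ 2 ^ (M * M) * 2 ^ ((T + 23 * M ^ 3) * M) := Nat.mul_le_mul h2 h3
        _ = 2 ^ (M * M + (T + 23 * M ^ 3) * M) := by rw [← pow_add]
        _ < 2 ^ kb L T := by
            refine Nat.pow_lt_pow_right (by norm_num) ?_
            have h6 : 1 ≤ M := by omega
            have e1 : M ^ 2 ≤ M ^ 8 := Nat.pow_le_pow_right h6 (by norm_num)
            have e2 : M ^ 4 ≤ M ^ 8 := Nat.pow_le_pow_right h6 (by norm_num)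
            have e3 : M ≤ M ^ 8 := Nat.le_self_pow (by norm_num) M
            have e4 : M * T ≤ M ^ 8 * T := Nat.mul_le_mul_right _ e3
            have e5 : 0 < M ^ 8 := by positivity
            have e6 : kb L T = 64 * M ^ 8 * T + 64 * M ^ 8 := by
              unfold kb
              rw [← hM]
              ring
            have e7 : M * M + (T + 23 * M ^ 3) * M = M ^ 2 + M * T + 23 * M ^ 4 := by ring
            rw [e6, e7]
            nlinarith
    exact_mod_cast h4
  rw [Int.abs_eq_natAbs] at h1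
  exact_mod_cast h1

end Pool.Agent.Lib.MP_64d474_lc.ST2
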