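import Pool.Agent.Lib.MP_64d474_lc.ST2.Stmts
import Pool.Agent.Lib.MP_64d474_lc.ST.Sizes

/-!
# The bound for the Fischer norm
-/

set_option autoImplicit false

open Finset Pool.Agent.Lib.MP_64d474_lc.ST

namespace Pool.Agent.Lib.MP_64d474_lc.ST2

namespace BdF

theorem abs_sum_le (B : ℤ) (l : List ℤ) (h : ∀ x ∈ l, |x| ≤ B) : |l.sum| ≤ l.length * B := by
  induction l with
  | nil => simp
  | cons x l ih =>
    have h1 := ih fun y hy => h y (List.mem_cons_of_mem _ hy)
    have h2 := h x List.mem_cons_self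
    rw [List.sum_cons, List.length_cons]
    push_cast
    have h3 := abs_add_le x l.sum
    linarith

theorem length_le (e f : List (ℤ × ℕ)) :
    (e.flatMap fun q => (f.filter fun q' => decide (q'.2 = q.2)).map
      fun q' => q.1 * q'.1).length ≤ e.length * f.length := by
  induction e with
  | nil => simp
  | cons q e ih =>
    rw [List.flatMap_cons, List.length_append, List.length_map, List.length_cons, Nat.add_mul,
      Nat.one_mul, Nat.add_comm]
    exact Nat.add_le_add ih (List.length_filter_le _ _)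

theorem ipZ_le (C : ℤ) (hC : 0 ≤ C) (e f : List (ℤ × ℕ)) (he : ∀ p ∈ e, |p.1| ≤ C)
    (hf : ∀ p ∈ f, |p.1| ≤ C) (N : ℕ) (he' : e.length ≤ N) (hf' : f.length ≤ N) :
    |ipZ e f| ≤ (N : ℤ) * N * (C * C) := by
  unfold ipZ
  have h1 := abs_sum_le (C * C) (e.flatMap fun q => (f.filter fun q' => decide (q'.2 = q.2)).map
      fun q' => q.1 * q'.1) (by
    intro x hx
    obtain ⟨q, hq, hx⟩ := List.mem_flatMap.1 hx
    obtain ⟨q', hq', rfl⟩ := List.mem_map.1 hx
    rw [abs_mul]
    exact mul_le_mul (he q hq) (hf q' (List.mem_of_mem_filter hq')) (abs_nonneg _) hC)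
  refine h1.trans (mul_le_mul_of_nonneg_right ?_ (mul_nonneg hC hC))
  have h2 : (e.flatMap fun q => (f.filter fun q' => decide (q'.2 = q.2)).map
      fun q' => q.1 * q'.1).length ≤ N * N := (length_le e f).trans (Nat.mul_le_mul he' hf')
  exact_mod_cast h2

theorem mem_getD' {α : Type} (l : List (List α)) (i : ℕ) :
    l.getD i [] ∈ l ∨ l.getD i [] = [] := by
  rw [List.getD_eq_getElem?_getD]
  by_cases hi : i < l.length
  · rw [List.getElem?_eq_getElem hi, Option.getD_some]
    exact Or.inl (List.getElem_mem hi)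
  · rw [List.getElem?_eq_none (not_lt.1 hi)]
    exact Or.inr rfl

theorem sum_le {n : ℕ} (B : ℤ) (F : Equiv.Perm (Fin n) → ℤ) (h : ∀ σ, |F σ| ≤ B) :
    |∑ σ, F σ| ≤ n.factorial * B := by
  refine (Finset.abs_sum_le_sum_abs _ _).trans ?_
  refine (Finset.sum_le_sum fun σ _ => h σ).trans ?_
  rw [Finset.sum_const, Finset.card_univ, Fintype.card_perm, Fintype.card_fin, nsmul_eq_mul]

theorem sgn {n : ℕ} (σ : Equiv.Perm (Fin n)) : |(σ.sign : ℤ)| = 1 := by
  rcases Int.units_eq_one_or σ.sign with h | h <;> rw [h] <;> rfl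

end BdF

open BdF

/-- The Fischer norm is small. -/
theorem stBoundF : StBoundF := by
  intro A _
  obtain ⟨-, -, hn, hs, hlen, hcoef⟩ := stSizes A
  obtain ⟨L, hL⟩ : ∃ L, L = (code A).length := ⟨_, rfl⟩
  rw [← hL] at hn hs hlen hcoef ⊢
  obtain ⟨M, hM⟩ : ∃ M, M = L + 2 := ⟨_, rfl⟩
  have hM2 : 2 ≤ M := by omega
  have hent : ∀ i j : ℕ, ((A.getD i []).getD j []).length ≤ M ∧
      ∀ p ∈ (A.getD i []).getD j [], |p.1| ≤ (2 ^ M : ℤ) := by
    intro i j
    rcases mem_getD' A i with h1 | h1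
    · rcases mem_getD' (A.getD i []) j with h2 | h2
      · refine ⟨(hlen _ h1 _ h2).trans (by omega), fun p hp => ?_⟩
        have h3 := (hcoef _ h1 _ h2 p hp).le.trans
          (Nat.pow_le_pow_right (show 0 < 2 by norm_num) (show L ≤ M by omega))
        rw [Int.abs_eq_natAbs]
        exact_mod_cast h3
      · rw [h2]
        exact ⟨Nat.zero_le _, fun p hp => absurd hp List.not_mem_nil⟩
    · rw [h1]
      have h2 : ([] : List (List (ℤ × ℕ))).getD j [] = [] := rfl
      rw [h2]
      exact ⟨Nat.zero_le _, fun p hp => absurd hp List.not_mem_nil⟩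
  have hM' : M ≤ 2 ^ M := Nat.lt_two_pow_self.le
  have hip : ∀ i j k l : ℕ, |ipZ ((A.getD i []).getD j []) ((A.getD k []).getD l [])| ≤
      (2 ^ (4 * M) : ℤ) := by
    intro i j k l
    refine (ipZ_le (2 ^ M) (by positivity) _ _ (hent i j).2 (hent k l).2 M (hent i j).1
      (hent k l).1).trans ?_
    have h1 : (M : ℤ) ≤ 2 ^ M := by exact_mod_cast hM'
    have h0 : (0 : ℤ) ≤ M := by positivity
    calc (M : ℤ) * M * (2 ^ M * 2 ^ M) ≤ 2 ^ M * 2 ^ M * (2 ^ M * 2 ^ M) := by
          gcongr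
      _ = 2 ^ (4 * M) := by
          rw [← pow_add, ← pow_add]
          congr 1
          ring
  have hterm : ∀ σ π κ : Equiv.Perm (Fin A.length),
      |((σ.sign : ℤ) * (π.sign : ℤ) * (κ.sign : ℤ)) *
        ∏ i : Fin A.length, ipZ ((A.getD i []).getD (σ i) []) ((A.getD (π i) []).getD (κ i) [])|
        ≤ (2 ^ (4 * M) : ℤ) ^ A.length := by
    intro σ π κ
    rw [abs_mul, abs_mul, abs_mul, sgn, sgn, sgn,
      one_mul, one_mul, one_mul, Finset.abs_prod]
    refine (Finset.prod_le_prod (fun i _ => abs_nonneg _) fun i _ => hip _ _ _ _).trans ?_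
    rw [Finset.prod_const, Finset.card_univ, Fintype.card_fin]
  have hH : |Hf A| ≤ A.length.factorial * (A.length.factorial * (A.length.factorial *
      (2 ^ (4 * M) : ℤ) ^ A.length)) := by
    unfold Hf
    exact sum_le _ _ fun σ => sum_le _ _ fun π => sum_le _ _ fun κ => hterm σ π κ
  have h2 : A.length.factorial ≤ 2 ^ (M * M) := by
    calc A.length.factorial ≤ A.length ^ A.length := Nat.factorial_le_pow _
      _ ≤ (2 ^ M) ^ A.length := by
          refine Nat.pow_le_pow_left ?_ _
          omega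
      _ ≤ (2 ^ M) ^ M := Nat.pow_le_pow_right Nat.one_le_two_pow (by omega)
      _ = 2 ^ (M * M) := by rw [← pow_mul]
  have h3 : (2 ^ (4 * M)) ^ A.length ≤ 2 ^ (4 * M * M) := by
    rw [← pow_mul]
    exact Nat.pow_le_pow_right (by norm_num) (Nat.mul_le_mul_left _ (by omega))
  have h4 : A.length.factorial * (A.length.factorial * (A.length.factorial *
      (2 ^ (4 * M)) ^ A.length)) < 2 ^ kbound L := by
    calc _ ≤ 2 ^ (M * M) * (2 ^ (M * M) * (2 ^ (M * M) * 2 ^ (4 * M * M))) :=
          Nat.mul_le_mul h2 (Nat.mul_le_mul h2 (Nat.mul_le_mul h2 h3))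
      _ = 2 ^ (M * M + (M * M + (M * M + 4 * M * M))) := by rw [← pow_add, ← pow_add, ← pow_add]
      _ < 2 ^ kbound L := by
          refine Nat.pow_lt_pow_right (by norm_num) ?_
          unfold kbound
          rw [← hM]
          have h5 : M * M ≤ M * (M * (M * M)) := by
            refine Nat.mul_le_mul_left _ ?_
            nlinarith
          have h6 : 0 < M * M := by positivity
          have h7 : 4 * M * M = 4 * (M * M) := by ring
          omega
  have h8 : |Hf A| < (2 ^ kbound L : ℤ) := lt_of_le_of_lt hH (by exact_mod_cast h4)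
  rw [Int.abs_eq_natAbs] at h8
  exact_mod_cast h8

end Pool.Agent.Lib.MP_64d474_lc.ST2
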