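import Pool.Agent.Lib.MP_64d474_lc.ST2.Stmts
import Pool.Agent.Lib.MP_64d474_lc.ST.Asm
import Pool.Agent.Lib.MP_64d474_lc.SubExp.Grid
import Pool.Agent.Lib.MP_64d474_lc.SubExp.Factor
import Pool.Agent.Lib.MP_64d474_lc.SubExp.Hybrid
import Pool.Agent.Lib.MP_64d474_lc.SubExp.RankOne
import Pool.Agent.Lib.MP_64d474_lc.SubExp.Count

/-!
# The points hit
-/

set_option autoImplicit false

open Finset Pool.Agent.Lib.PT Pool.Agent.Lib.MP_64d474_lc.ST
open Pool.Agent.Lib.MP_64d474_lc.SubExp

namespace Pool.Agent.Lib.MP_64d474_lc.ST2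

theorem det_ne_zero_of_rank {F : Type*} [Field F] {n : ℕ} (M : Matrix (Fin n) (Fin n) F)
    (h : n ≤ M.rank) : M.det ≠ 0 := by
  have h1 : LinearMap.range M.mulVecLin = ⊤ := by
    apply Submodule.eq_top_of_finrank_eq
    have h2 : M.rank = Module.finrank F (LinearMap.range M.mulVecLin) := rfl
    have h3 : M.rank ≤ n := by simpa using M.rank_le_card_height
    rw [← h2, Module.finrank_fintype_fun_eq_card, Fintype.card_fin]
    omega
  have h2 : Function.Surjective M.mulVec := by
    intro y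
    have : y ∈ LinearMap.range M.mulVecLin := by rw [h1]; trivial
    obtain ⟨x, hx⟩ := this
    exact ⟨x, hx⟩
  rw [Matrix.mulVec_surjective_iff_isUnit, Matrix.isUnit_iff_isUnit_det] at h2
  exact h2.ne_zero

theorem ptsH_ofFn (h : StPtsH) {m : ℕ} (a : Fin m → ℕ) (R : ℕ) (hR : 1 ≤ R)
    (v : Par (∑ j, a j) R → ℕ) (hv : ∀ c, v c ≤ bd (∑ j, a j) R c) :
    ∃ d ∈ vecs (dmax (List.ofFn a).sum R) (digs (List.ofFn a).sum R), ∀ j : Fin m,
      pt a R v j = hitv (List.ofFn a) R d j := by
  have key : ∀ (l : List ℕ) (hm : l.length = m) (_ : a = fun j => l.get (Fin.cast hm.symm j)),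
      ∃ d ∈ vecs (dmax l.sum R) (digs l.sum R), ∀ j : Fin m, pt a R v j = hitv l R d j := by
    intro l hm ha
    subst hm
    have ha' : a = fun j => l.get j := ha
    subst ha'
    exact h l R hR v hv
  exact key (List.ofFn a) (by simp) (by funext j; simp)

theorem getD_wl (A : SMat) (j : Fin (varsN A).length) : (wl A).getD j 0 = wr A j := by
  unfold wl
  rw [List.getD_eq_getElem _ _ (by simp)]
  simp

theorem stHit2 (h1 : StGen) (h2 : StRank) (h3 : StPtsH) (h4 : StPtsT) : StHit2 := by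
  classical
  intro A R hsq hn hR hdet
  obtain ⟨x, hx⟩ := h1 A hdet
  obtain ⟨-, hev⟩ := h2 A hsq
  obtain ⟨t1, t2, t3⟩ := rankOne.{0} A.length (varsN A).length
  set n := A.length with hn'
  set m := (varsN A).length with hm'
  set y : Fin m → ℚ := fun j => x ((varsN A).get j) with hy
  -- the wild variables
  set C₀ : Matrix (Fin n) (Fin n) ℚ :=
    ∑ k, (if 2 ≤ wr A k then 0 else y k) • mats A k with hC₀
  set C : Fin m → Matrix (Fin n) (Fin n) ℚ :=
    fun k => if 2 ≤ wr A k then mats A k else 0 with hC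
  have hmr : ∀ k, 2 ≤ wr A k → (mats A k).rank ≤ wr A k := by
    intro k h
    unfold wr at h ⊢
    unfold mats
    split_ifs at h ⊢ with h5 h6
    · exact le_refl _
    · omega
    · omega
  have hmr1 : ∀ k, ¬ 2 ≤ wr A k → (mats A k).rank ≤ 1 := by
    intro k h
    unfold wr at h
    unfold mats
    split_ifs at h ⊢ with h5 h6
    · exact absurd h6 h
    · have : (coefMatrix A ((varsN A).get k)).rank ≤ 1 := by omega
      exact this
    · rw [Matrix.rank_zero]
      omega
  have hrk : ∀ k, (C k).rank ≤ wr A k := by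
    intro k
    rw [hC]
    dsimp only
    split_ifs with h
    · exact hmr k h
    · rw [Matrix.rank_zero]
      exact Nat.zero_le _
  choose U V hUV using fun k => exists_factor_of_rank_le (C k) (hrk k)
  have hsum : ∀ y' : Fin m → ℚ, C₀ + ∑ k, y' k • C k =
      ∑ k, (if 2 ≤ wr A k then y' k else y k) • mats A k := by
    intro y'
    rw [hC₀, ← sum_add_distrib]
    refine sum_congr rfl fun k _ => ?_
    rw [hC]
    dsimp only
    split_ifs <;> simp
  have hd : (C₀ + ∑ k, y k • C k).det ≠ 0 := by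
    rw [hsum]
    simp only [ite_self]
    rw [hev] at hx
    exact hx
  obtain ⟨z, y₁, w₁, hzyw⟩ := hybrid (wr A) hR C₀ C U V hUV y hd
  obtain ⟨v, hv, hvdet⟩ := all_par (wr A) R C₀ C U V hUV (Sum.elim z (Sum.elim y₁ w₁)) hzyw
  obtain ⟨d, hdm, hpt⟩ := ptsH_ofFn h3 (wr A) R hR v hv
  -- the variables of rank at most one
  set D₀ : Matrix (Fin n) (Fin n) ℚ :=
    ∑ k, (if 2 ≤ wr A k then ((pt (wr A) R v k : ℕ) : ℚ) else 0) • mats A k with hD₀
  set D : Fin m → Matrix (Fin n) (Fin n) ℚ := fun k => if 2 ≤ wr A k then 0 else mats A k with hD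
  have hsum2 : ∀ y' : Fin m → ℚ, D₀ + ∑ k, y' k • D k =
      ∑ k, (if 2 ≤ wr A k then ((pt (wr A) R v k : ℕ) : ℚ) else y' k) • mats A k := by
    intro y'
    rw [hD₀, ← sum_add_distrib]
    refine sum_congr rfl fun k _ => ?_
    rw [hD]
    dsimp only
    split_ifs <;> simp
  obtain ⟨g, hg, hmax⟩ := t3 ℚ D₀ D (fun k => by
    rw [hD]
    dsimp only
    split_ifs with h
    · rw [Matrix.rank_zero]
      exact zero_le_one
    · exact hmr1 k h)
  have hdet2 : (D₀ + ∑ k, y k • D k).det ≠ 0 := by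
    rw [hsum2]
    rw [hsum] at hvdet
    simpa only [cast_point] using hvdet
  have hrank2 := Matrix.rank_of_det_ne_zero hdet2
  rw [Fintype.card_fin] at hrank2
  have hdet3 : (D₀ + ∑ k, ((g k : ℕ) : ℚ) • D k).det ≠ 0 := by
    exact det_ne_zero_of_rank _ (hrank2.symm.le.trans (hmax y))
  obtain ⟨e, hem, he⟩ := h4 n m hn g hg
  refine ⟨d, hdm, e, hem, ?_⟩
  intro h0
  apply hdet3
  rw [hsum2]
  have key : (∑ k, (if 2 ≤ wr A k then ((pt (wr A) R v k : ℕ) : ℚ) else ((g k : ℕ) : ℚ)) •
      mats A k) =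
      (evalM A (pointR A R d e) : Matrix _ _ ℤ).map (Int.castRingHom ℚ) := by
    rw [evalM_map, hev]
    refine sum_congr rfl fun j _ => ?_
    by_cases hj : (varsN A).idxOf ((varsN A).get j) = j
    · congr 1
      unfold pointR xv
      rw [hj, getD_wl]
      split_ifs with h5
      · rw [hpt j]
        simp [wl]
      · have h6 := he j
        have h7 : (g j : ℚ) = ((tval n m e (j : ℕ) : ℕ) : ℚ) := by rw [h6]
        rw [h7]
        simp [hn', hm']
    · have : mats A j = 0 := by
        unfold mats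
        rw [if_neg hj]
      rw [this, smul_zero, smul_zero]
  rw [key, ← RingHom.mapMatrix_apply, ← RingHom.map_det, h0, map_zero]

end Pool.Agent.Lib.MP_64d474_lc.ST2
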