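import Pool.Agent.Lib.MP_64d474_lc.ST2.Alg
import Pool.Agent.Lib.MP_64d474_lc.ST2.Defs

/-!
# Statements of the modules of the second machine
-/

set_option autoImplicit false

open Finset Pool.Agent.Lib.PT Pool.Agent.Lib.MP_64d474_lc.ST
open Pool.Agent.Lib.MP_64d474_lc.SubExp (Par bd pt testSet bound levels)

namespace Pool.Agent.Lib.MP_64d474_lc.ST2

/-! ### Ranks -/

def StRk : Prop := ∀ (p : ℕ) [Fact p.Prime] (n : ℕ) (M : List (List ℕ)),
  (∀ r ∈ M, r.length = n) → rkmod p n M =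
    (Matrix.of fun (i : Fin M.length) (j : Fin n) =>
      (((M.getD i []).getD j 0 : ℕ) : ZMod p)).rank

def StMult : Prop := ∀ (A : SMat), (∀ r ∈ A, r.length = A.length) → ∀ k : ℕ,
  mult (raw A) (code A).length k.bits = (coefMatrix A k).rank

/-- the ranks -/
noncomputable def wr (A : SMat) (j : Fin (varsN A).length) : ℕ :=
  if (varsN A).idxOf ((varsN A).get j) = j then
    if 2 ≤ (coefMatrix A ((varsN A).get j)).rank then (coefMatrix A ((varsN A).get j)).rank else 0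
  else 0

/-- the list of the ranks -/
noncomputable def wl (A : SMat) : List ℕ := List.ofFn (wr A)

def StRl : Prop := ∀ (A : SMat), (∀ r ∈ A, r.length = A.length) →
  rl (raw A) (code A).length = wl A ∧ (wl A).sum = totalRank A ∧
    totalRank A ≤ (code A).length

/-! ### Points -/

def StPtsH : Prop := ∀ (l : List ℕ) (R : ℕ), 1 ≤ R →
  ∀ v : Par (∑ j, l.get j) R → ℕ, (∀ c, v c ≤ bd (∑ j, l.get j) R c) →
    ∃ d ∈ vecs (dmax l.sum R) (digs l.sum R), ∀ j : Fin l.length,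
      pt (fun j => l.get j) R v j = hitv l R d j

def StPtsT : Prop := ∀ (n m : ℕ), 1 ≤ n → ∀ h ∈ testSet n m,
  ∃ e ∈ vecs (n * bound n m) (2 * levels n + 2), ∀ j : Fin m, h j = tval n m e j

/-- the point -/
noncomputable def pointR (A : SMat) (R : ℕ) (d e : List ℕ) (k : ℕ) : ℤ :=
  (xv A.length (varsN A).length (wl A) R d e ((varsN A).idxOf k) : ℤ)

def StHit2 : Prop := ∀ (A : SMat) (R : ℕ), (∀ r ∈ A, r.length = A.length) → 1 ≤ A.length →
  1 ≤ R → (toMat A).det ≠ 0 →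
  ∃ d ∈ vecs (dmax (wl A).sum R) (digs (wl A).sum R),
  ∃ e ∈ vecs (A.length * bound A.length (varsN A).length) (2 * levels A.length + 2),
    (evalM A (pointR A R d e) : Matrix _ _ ℤ).det ≠ 0

def StXm : Prop := ∀ (p n m : ℕ) (l : List ℕ) (R : ℕ) (d e : List ℕ) (j : ℕ), 0 < p →
  ((xm p n m l R d e j : ℕ) : ZMod p) = ((xv n m l R d e j : ℕ) : ZMod p)

def StMod2 : Prop := ∀ (A : SMat) (p R : ℕ) (d e : List ℕ), 0 < p →
  (∀ r ∈ A, r.length = A.length) → ∀ i j : Fin A.length,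
  ((((matm p (wl A) R d e (raw A)).getD i []).getD j 0 : ℕ) : ZMod p) =
    ((evalM A (pointR A R d e) i j : ℤ) : ZMod p)

def StBound2 : Prop := ∀ (A : SMat) (R : ℕ) (d e : List ℕ), (∀ r ∈ A, r.length = A.length) →
  1 ≤ A.length → 1 ≤ R → R ≤ (wl A).sum + 1 → (wl A).sum ≤ (code A).length →
  d ∈ vecs (dmax (wl A).sum R) (digs (wl A).sum R) →
  e ∈ vecs (A.length * bound A.length (varsN A).length) (2 * levels A.length + 2) →
  ((evalM A (pointR A R d e) : Matrix _ _ ℤ).det).natAbs <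
    2 ^ kb (code A).length
      (vecs (A.length * bound A.length (varsN A).length) (2 * levels A.length + 2)).length

/-! ### The Fischer norm -/

/-- the inner product of two linear forms -/
def ipZ (e f : List (ℤ × ℕ)) : ℤ :=
  (e.flatMap fun q => (f.filter fun q' => decide (q'.2 = q.2)).map fun q' => q.1 * q'.1).sum

/-- the Fischer norm of the determinant -/
def Hf (A : SMat) : ℤ :=
  ∑ σ : Equiv.Perm (Fin A.length), ∑ π : Equiv.Perm (Fin A.length),
    ∑ κ : Equiv.Perm (Fin A.length),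
      ((σ.sign : ℤ) * (π.sign : ℤ) * (κ.sign : ℤ)) *
        ∏ i : Fin A.length, ipZ ((A.getD i []).getD (σ i) []) ((A.getD (π i) []).getD (κ i) [])

def StWick : Prop := ∀ A : SMat, Hf A ≠ 0 ↔ (toMat A).det ≠ 0

def StTab : Prop := ∀ (A : SMat) (p : ℕ), 0 < p → (∀ r ∈ A, r.length = A.length) →
  ((fval p (raw A) (subs A.length (vecs 1 A.length)) : ℕ) : ZMod p) = ((Hf A : ℤ) : ZMod p)

def StBoundF : Prop := ∀ A : SMat, (∀ r ∈ A, r.length = A.length) →
  (Hf A).natAbs < 2 ^ kbound (code A).length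

/-! ### Polynomial time -/

def StPTRk : Prop := PTime fun q : ℕ × ℕ × List (List ℕ) => rkmod (q.1 + 1) q.2.1 q.2.2

def StPTMult : Prop := PTime fun q : RMat × ℕ × List Bool => mult q.1 q.2.1 q.2.2

def StPTRl : Prop := PTime fun q : RMat × ℕ => rl q.1 q.2

def StPTPow : Prop := PTime fun q : ℕ × ℕ × ℕ => pwm (q.1 + 1) q.2.1 q.2.2

def StPTHit : Prop := PTime fun q : ℕ × List ℕ × ℕ × List ℕ × ℕ =>
  hitm (q.1 + 1) q.2.1 q.2.2.1 q.2.2.2.1 q.2.2.2.2

def StPTT : Prop := PTime fun q : ℕ × ℕ × ℕ × List ℕ × ℕ =>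
  tm (q.1 + 1) q.2.1 q.2.2.1 q.2.2.2.1 q.2.2.2.2

def StPTMatm : Prop := PTime fun q : ℕ × List ℕ × ℕ × List ℕ × List ℕ × RMat =>
  matm (q.1 + 1) q.2.1 q.2.2.1 q.2.2.2.1 q.2.2.2.2.1 q.2.2.2.2.2

def StPTGoodH : Prop := PTime fun q : RMat × ℕ × List ℕ × ℕ × List ℕ × List ℕ =>
  goodH q.1 q.2.1 q.2.2.1 q.2.2.2.1 q.2.2.2.2.1 q.2.2.2.2.2

def StPTFval : Prop := PTime fun q : ℕ × RMat × List (List ℕ) => fval (q.1 + 1) q.2.1 q.2.2

def StPTGoodF : Prop := PTime fun q : RMat × ℕ × List (List ℕ) => goodF q.1 q.2.1 q.2.2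

def StPTPar : Prop := (PTime fun w : List Letter => rw' w) ∧ (PTime fun w : List Letter => rs w) ∧
  (PTime fun w : List Letter => useF w) ∧ (PTime fun w : List Letter => D1 w) ∧
  (PTime fun w : List Letter => D2 w) ∧ (PTime fun w : List Letter => T1 w) ∧
  (PTime fun w : List Letter => T2 w)

def StPTDec2 : Prop := PTime fun q : List Letter × List (List ℕ) × List (List ℕ) =>
  dec2 q.1 q.2.1 q.2.2

/-! ### The machine -/

def StSum : Prop := ∀ w : List Letter, (rw' w).sum ≤ w.length ∧ terms w ≤ w.length ∧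
  nr w ≤ w.length

def StNr : Prop := ∀ A : SMat, nr (code A) = A.length

def StLoop2 : Prop := ∃ c : ℕ, (∀ w : List Letter, sz w ≤ tb c w) ∧
  TB (tb c) fun w : List Letter => (w, vs1 w, vs2 w)

def StBd2 : Prop := ∀ (p : Polynomial ℕ) (c : ℕ), ∃ c', ∀ w : List Letter,
  p.eval (tb c w) ≤ tb c' w

def StNum : Prop := ∀ c : ℕ, ∃ c' : ℕ, ∀ (w : List Letter) (R : ℕ), 1 ≤ R →
  (rw' w).sum ≤ R ^ 3 → tb c w ≤ min ((w.length + 2) ^ c' * 2 ^ (c' * w.count .row))
    ((w.length + 2) ^ (c' * Nat.log 2 (w.length + 2)) * (R + 1) ^ (c' * R ^ 2))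

end Pool.Agent.Lib.MP_64d474_lc.ST2
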