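import Pool.Agent.Lib.MP_64d474_lc.ST.Loop
import Pool.Agent.Lib.MP_64d474_lc.ST.Side
import Pool.Agent.Lib.MP_64d474_lc.ST2.Stmts

/-!
# The loop that lists all digits: the second machine
-/

set_option autoImplicit false
set_option maxHeartbeats 1000000

open Pool.Agent.Lib.PT Function Pool.Agent.Lib.MP_64d474_lc.ST
open Pool.Agent.Lib.MP_64d474_lc.SubExp (bound levels)

namespace Pool.Agent.Lib.MP_64d474_lc.ST2

namespace Loop2

open Pool.Agent.Lib.MP_64d474_lc.ST.Loop (ext vecs_succ length_vecs mem_vecs sz_vecs ptime_ext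
  sz_word)

/-- one list: counter, largest digit, lists -/
abbrev Half : Type := ℕ × ℕ × List (List ℕ)

/-- the state -/
abbrev St : Type := Half × Half × List Letter

/-- one round for one list -/
def hstep (h : Half) : Half := (h.1 - 1, h.2.1, ext h.2.1 h.2.2)

def step (q : St) : St :=
  if q.1.1 = 0 then (q.1, hstep q.2.1, q.2.2) else (hstep q.1, q.2.1, q.2.2)

def tst (q : St) : Bool := !(decide (q.1.1 = 0) && decide (q.2.1.1 = 0))

def init (w : List Letter) : St := ((T1 w, D1 w, [[]]), (T2 w, D2 w, [[]]), w)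

/-- the state after `i` rounds -/
def after (w : List Letter) (i : ℕ) : St :=
  ((T1 w - i, D1 w, vecs (D1 w) (min i (T1 w))),
    (T2 w - (i - T1 w), D2 w, vecs (D2 w) (i - T1 w)), w)

theorem step_iter (w : List Letter) (i : ℕ) (hi : i ≤ T1 w + T2 w) :
    step^[i] (init w) = after w i := by
  induction i with
  | zero =>
    unfold after init
    simp [vecs]
  | succ i ih =>
    rw [iterate_succ_apply', ih (by omega)]
    unfold step after hstep
    rcases Nat.lt_or_ge i (T1 w) with h | h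
    · rw [if_neg (by simp only; omega)]
      have e1 : min i (T1 w) = i := by omega
      have e2 : min (i + 1) (T1 w) = i + 1 := by omega
      have e3 : i + 1 - T1 w = i - T1 w := by omega
      have e4 : T1 w - (i + 1) = T1 w - i - 1 := by omega
      rw [e2, e3, e4, e1, vecs_succ]
    · rw [if_pos (by simp only; omega)]
      have e1 : min i (T1 w) = T1 w := by omega
      have e2 : min (i + 1) (T1 w) = T1 w := by omega
      have e3 : i + 1 - T1 w = (i - T1 w) + 1 := by omega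
      have e4 : T1 w - (i + 1) = T1 w - i := by omega
      have e5 : T2 w - (i - T1 w + 1) = T2 w - (i - T1 w) - 1 := by omega
      rw [e2, e3, e4, e1, e5, vecs_succ]

theorem ptime_hstep : PTime hstep := by
  have h1 : PTime fun h : Half => ext h.2.1 h.2.2 :=
    ptime_ext.comp (g := fun h : Half => (h.2.1, h.2.2)) (by fun_prop)
  unfold hstep
  fun_prop

theorem ptime_step : PTime step := by
  have h1 : PTime fun q : St => hstep q.1 := ptime_hstep.comp (by fun_prop)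
  have h2 : PTime fun q : St => hstep q.2.1 := ptime_hstep.comp (by fun_prop)
  unfold step
  exact PTime.ite (p := fun q : St => q.1.1 = 0) (by fun_prop) (by fun_prop) (by fun_prop)

theorem ptime_tst : PTime tst := by
  unfold tst
  fun_prop

theorem ptime_init (h : StPTPar) : PTime init := by
  obtain ⟨-, -, -, h1, h2, h3, h4⟩ := h
  unfold init
  fun_prop

/-! ### The numerical bounds -/

/-- sizes of a list of vectors -/
theorem sz_vecs_le (D i B E : ℕ) (h1 : (D + 1) ^ i ≤ E) (h2 : i * (2 * D + 2) + 2 ≤ B) :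
    sz (vecs D i) ≤ B * E + 1 := by
  refine (sz_vecs D i).trans ?_
  have := Nat.mul_le_mul h1 h2
  calc (D + 1) ^ i * (i * (2 * D + 2) + 2) + 1 ≤ E * B + 1 := by omega
    _ = B * E + 1 := by ring

theorem lt_pow_log (s : ℕ) : s + 2 ≤ 2 ^ (Nat.log 2 (s + 2) + 1) :=
  (Nat.lt_pow_succ_log_self (by norm_num) _).le

theorem log_le (s : ℕ) : Nat.log 2 (s + 2) ≤ s + 2 := Nat.log_le_self _ _

/-- the bounds in the first case -/
theorem bounds1 {w : List Letter} (hs : StSum) (hu : useF w = true) (i : ℕ) (hi : i ≤ T1 w)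
    (j : ℕ) (hj : j ≤ T2 w) :
    2 * T1 w + 2 * D1 w + sz (vecs (D1 w) i) + (2 * T2 w + 2 * D2 w + sz (vecs (D2 w) j)) +
      sz w + 30 ≤ tb 200 w := by
  have e1 : T1 w = nr w := by simp [T1, hu]
  have e2 : D1 w = 1 := by simp [D1, hu]
  have e3 : T2 w = 0 := by simp [T2, hu]
  have e4 : D2 w = 0 := by simp [D2, hu]
  have hn : nr w ≤ cost w := by simpa [useF] using hu
  obtain ⟨-, -, g3⟩ := hs w
  rw [e1] at hi
  rw [e3] at hj
  obtain rfl : j = 0 := by omega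
  rw [e1, e2, e3, e4]
  unfold tb
  rw [Nat.min_eq_left hn]
  set n := nr w with hndef
  set Y := w.length + 2 with hY
  set P := 2 ^ n with hP
  have hY2 : 2 ≤ Y := by omega
  have hYpos : 0 < Y := by omega
  have hP1 : 1 ≤ P := Nat.one_le_two_pow
  have hnY : n ≤ Y := by omega
  have a1 : (1 + 1) ^ i ≤ P := Nat.pow_le_pow_right (by norm_num) hi
  have a2 : i * (2 * 1 + 2) + 2 ≤ 6 * Y := by omega
  have a3 := sz_vecs_le 1 i (6 * Y) P a1 a2
  have a4 : sz (vecs 0 0) ≤ 3 := by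
    have := sz_vecs 0 0
    simpa using this
  have a5 : sz w ≤ 15 * Y := (sz_word w).trans (by omega)
  have a6 : 1 ≤ Y * P := Nat.one_le_iff_ne_zero.2 (by positivity)
  have a7 : Y ≤ Y * P := Nat.le_mul_of_pos_right _ (by omega)
  have a8 : 6 * Y * P = 6 * (Y * P) := by ring
  have b1 : 64 ≤ Y ^ 6 := by
    calc 64 = 2 ^ 6 := by norm_num
      _ ≤ Y ^ 6 := Nat.pow_le_pow_left hY2 6
  have b2 : 2 * n + 2 * 1 + sz (vecs 1 i) + (2 * 0 + 2 * 0 + sz (vecs 0 0)) + sz w + 30 ≤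
      64 * (Y * P) := by omega
  refine b2.trans ?_
  calc 64 * (Y * P) ≤ Y ^ 6 * (Y * P) := Nat.mul_le_mul_right _ b1
    _ = Y ^ 7 * 2 ^ n := by rw [hP]; ring
    _ ≤ Y ^ 200 * 2 ^ (200 * n) :=
      Nat.mul_le_mul (Nat.pow_le_pow_right hYpos (by norm_num))
        (Nat.pow_le_pow_right (by norm_num) (by omega))

/-- the bounds in the second case -/
theorem bounds2 {w : List Letter} (hs : StSum) (hu : useF w = false) (i : ℕ) (hi : i ≤ T1 w)
    (j : ℕ) (hj : j ≤ T2 w) :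
    2 * T1 w + 2 * D1 w + sz (vecs (D1 w) i) + (2 * T2 w + 2 * D2 w + sz (vecs (D2 w) j)) +
      sz w + 30 ≤ tb 200 w := by
  have hn : cost w < nr w := by simpa [useF] using hu
  obtain ⟨g1, g2, g3⟩ := hs w
  obtain ⟨k1, k2⟩ := Pool.Agent.Lib.MP_64d474_lc.ST.Loop.bounds stSide (rw' w).sum
  obtain ⟨k3, k4, -, -⟩ := stSide (rw' w).sum
  have e1 : T1 w = digs (rw' w).sum (rs w) := by simp [T1, hu]
  have e2 : D1 w = dmax (rw' w).sum (rs w) := by simp [D1, hu]
  have e3 : T2 w = 2 * levels (nr w) + 2 := by simp [T2, hu]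
  have e4 : D2 w = nr w * bound (nr w) (terms w) := by simp [D2, hu]
  have hcost : cost w = rs w * rs w * (Nat.log 2 ((rw' w).sum + 2) + 1) +
    (Nat.log 2 (w.length + 2) + 1) * (Nat.log 2 (w.length + 2) + 1) := rfl
  have hrs : rs w = sideC (rw' w).sum := rfl
  rw [← hrs] at k1 k2 k3 k4
  rw [← e1] at k1
  rw [← e2] at k2
  unfold tb
  rw [Nat.min_eq_right hn.le]
  have hL := lt_pow_log w.length
  have hLl := log_le w.length
  have hS := lt_pow_log (rw' w).sum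
  set n := nr w with hndef
  set C := cost w with hC
  set L := w.length with hLdef
  set Y := L + 2 with hY
  set S := (rw' w).sum with hSdef
  set R := rs w with hR
  set a := Nat.log 2 (S + 2) with ha
  set b := Nat.log 2 Y with hb
  have hY2 : 2 ≤ Y := by omega
  have hYpos : 0 < Y := by omega
  have hbn : Nat.log 2 n ≤ b := Nat.log_mono_right (by omega)
  -- the numbers of digits
  have a1 : T1 w ≤ 9 * R ^ 2 := k1
  have hRS : R ≤ Y := by
    have := (stSide S).2.2.1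
    rw [← hrs] at this
    omega
  have a2 : T2 w ≤ 6 * (b + 1) := by
    rw [e3]
    unfold levels
    omega
  -- the largest digits
  have a3 : D1 w + 1 ≤ (S + 2) ^ 6 := k2
  have a4 : D2 w + 1 ≤ Y ^ 18 := by
    rw [e4]
    unfold bound
    have c1 : n + terms w + 1 ≤ Y ^ 2 := by nlinarith
    have c2 : n ≤ Y ^ 2 := by nlinarith
    have c3 : (n + terms w + 1) ^ 5 ≤ (Y ^ 2) ^ 5 := Nat.pow_le_pow_left c1 5
    have c4 : n * (32 * (n + terms w + 1) ^ 5) ≤ Y ^ 2 * (32 * (Y ^ 2) ^ 5) :=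
      Nat.mul_le_mul c2 (Nat.mul_le_mul_left _ c3)
    have c5 : 1 ≤ Y ^ 12 := Nat.one_le_pow _ _ hYpos
    have c6 : 64 ≤ Y ^ 6 := by
      calc 64 = 2 ^ 6 := by norm_num
        _ ≤ Y ^ 6 := Nat.pow_le_pow_left hY2 6
    calc n * (32 * (n + terms w + 1) ^ 5) + 1 ≤ Y ^ 2 * (32 * (Y ^ 2) ^ 5) + 1 := by omega
      _ = 32 * Y ^ 12 + 1 := by ring
      _ ≤ 64 * Y ^ 12 := by omega
      _ ≤ Y ^ 6 * Y ^ 12 := Nat.mul_le_mul_right _ c6
      _ = Y ^ 18 := by ring
  -- the powers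
  have a5 : (D1 w + 1) ^ i ≤ 2 ^ (54 * C) := by
    calc (D1 w + 1) ^ i ≤ ((S + 2) ^ 6) ^ i := Nat.pow_le_pow_left a3 i
      _ ≤ ((S + 2) ^ 6) ^ (9 * R ^ 2) :=
        Nat.pow_le_pow_right (Nat.pow_pos (by omega)) (hi.trans a1)
      _ = (S + 2) ^ (54 * R ^ 2) := by rw [← pow_mul]; ring_nf
      _ ≤ (2 ^ (a + 1)) ^ (54 * R ^ 2) := Nat.pow_le_pow_left hS _
      _ = 2 ^ (54 * (R * R * (a + 1))) := by rw [← pow_mul]; ring_nf
      _ ≤ 2 ^ (54 * C) := Nat.pow_le_pow_right (by norm_num) (by omega)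
  have a6 : (D2 w + 1) ^ j ≤ 2 ^ (108 * C) := by
    calc (D2 w + 1) ^ j ≤ (Y ^ 18) ^ j := Nat.pow_le_pow_left a4 j
      _ ≤ (Y ^ 18) ^ (6 * (b + 1)) :=
        Nat.pow_le_pow_right (Nat.pow_pos hYpos) (hj.trans a2)
      _ ≤ ((2 ^ (b + 1)) ^ 18) ^ (6 * (b + 1)) :=
        Nat.pow_le_pow_left (Nat.pow_le_pow_left hL _) _
      _ = 2 ^ (108 * ((b + 1) * (b + 1))) := by rw [← pow_mul, ← pow_mul]; ring_nf
      _ ≤ 2 ^ (108 * C) := Nat.pow_le_pow_right (by norm_num) (by omega)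
  -- the polynomial factors
  have c0 : 16 ≤ Y ^ 4 := by
    calc 16 = 2 ^ 4 := by norm_num
      _ ≤ Y ^ 4 := Nat.pow_le_pow_left hY2 4
  have c1 : 1 ≤ Y ^ 26 := Nat.one_le_pow _ _ hYpos
  have c2 : T1 w ≤ Y ^ 6 := by
    calc T1 w ≤ 9 * R ^ 2 := a1
      _ ≤ 16 * Y ^ 2 := Nat.mul_le_mul (by norm_num) (Nat.pow_le_pow_left hRS 2)
      _ ≤ Y ^ 4 * Y ^ 2 := Nat.mul_le_mul_right _ c0
      _ = Y ^ 6 := by ring
  have c3 : D1 w + 1 ≤ Y ^ 6 := a3.trans (Nat.pow_le_pow_left (by omega) 6)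
  have c4 : T2 w ≤ Y ^ 6 := by
    calc T2 w ≤ 6 * (b + 1) := a2
      _ ≤ 16 * Y := by omega
      _ ≤ Y ^ 4 * Y := Nat.mul_le_mul_right _ c0
      _ = Y ^ 5 := by ring
      _ ≤ Y ^ 6 := Nat.pow_le_pow_right hYpos (by norm_num)
  have d1 : Y ^ 6 ≤ Y ^ 26 := Nat.pow_le_pow_right hYpos (by norm_num)
  have d2 : Y ^ 18 ≤ Y ^ 26 := Nat.pow_le_pow_right hYpos (by norm_num)
  have d3 : 1 ≤ Y ^ 24 := Nat.one_le_pow _ _ hYpos
  have d4 : Y ^ 12 ≤ Y ^ 24 := Nat.pow_le_pow_right hYpos (by norm_num)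
  have d5 : 4 ≤ Y ^ 2 := by
    calc 4 = 2 ^ 2 := by norm_num
      _ ≤ Y ^ 2 := Nat.pow_le_pow_left hY2 2
  have d6 : 4 * Y ^ 24 ≤ Y ^ 26 := by
    calc 4 * Y ^ 24 ≤ Y ^ 2 * Y ^ 24 := Nat.mul_le_mul_right _ d5
      _ = Y ^ 26 := by ring
  have c5 : i * (2 * D1 w + 2) + 2 ≤ Y ^ 26 := by
    have e1 : i * (2 * D1 w + 2) ≤ Y ^ 6 * (2 * Y ^ 6) :=
      Nat.mul_le_mul (hi.trans c2) (by omega)
    calc i * (2 * D1 w + 2) + 2 ≤ Y ^ 6 * (2 * Y ^ 6) + 2 := by omega
      _ = 2 * Y ^ 12 + 2 := by ring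
      _ ≤ Y ^ 26 := by omega
  have c6 : j * (2 * D2 w + 2) + 2 ≤ Y ^ 26 := by
    have e1 : j * (2 * D2 w + 2) ≤ Y ^ 6 * (2 * Y ^ 18) :=
      Nat.mul_le_mul (hj.trans c4) (by omega)
    calc j * (2 * D2 w + 2) + 2 ≤ Y ^ 6 * (2 * Y ^ 18) + 2 := by omega
      _ = 2 * Y ^ 24 + 2 := by ring
      _ ≤ Y ^ 26 := by omega
  set Z := 2 ^ (108 * C) with hZ
  have hZ1 : 1 ≤ Z := Nat.one_le_two_pow
  have hZ2 : 2 ^ (54 * C) ≤ Z := Nat.pow_le_pow_right (by norm_num) (by omega)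
  have s1 := sz_vecs_le (D1 w) i (Y ^ 26) Z (a5.trans hZ2) c5
  have s2 := sz_vecs_le (D2 w) j (Y ^ 26) Z a6 c6
  have s3 : sz w ≤ Y ^ 6 := by
    calc sz w ≤ 15 * (w.length + 1) := sz_word w
      _ ≤ 16 * Y := by omega
      _ ≤ Y ^ 4 * Y := Nat.mul_le_mul_right _ c0
      _ = Y ^ 5 := by ring
      _ ≤ Y ^ 6 := Nat.pow_le_pow_right hYpos (by norm_num)
  have s4 : Y ^ 26 ≤ Y ^ 26 * Z := Nat.le_mul_of_pos_right _ (by omega)
  have s5 : 64 ≤ Y ^ 6 := by
    calc 64 = 2 ^ 6 := by norm_num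
      _ ≤ Y ^ 6 := Nat.pow_le_pow_left hY2 6
  have s6 : 2 * T1 w + 2 * D1 w + sz (vecs (D1 w) i) +
      (2 * T2 w + 2 * D2 w + sz (vecs (D2 w) j)) + sz w + 30 ≤ 64 * (Y ^ 26 * Z) := by omega
  refine s6.trans ?_
  calc 64 * (Y ^ 26 * Z) ≤ Y ^ 6 * (Y ^ 26 * Z) := Nat.mul_le_mul_right _ s5
    _ = Y ^ 32 * 2 ^ (108 * C) := by rw [hZ]; ring
    _ ≤ Y ^ 200 * 2 ^ (200 * C) :=
      Nat.mul_le_mul (Nat.pow_le_pow_right hYpos (by norm_num))
        (Nat.pow_le_pow_right (by norm_num) (by omega))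

theorem bounds {w : List Letter} (hs : StSum) (i : ℕ) (hi : i ≤ T1 w) (j : ℕ) (hj : j ≤ T2 w) :
    2 * T1 w + 2 * D1 w + sz (vecs (D1 w) i) + (2 * T2 w + 2 * D2 w + sz (vecs (D2 w) j)) +
      sz w + 30 ≤ tb 200 w := by
  rcases h : useF w with _ | _
  · exact bounds2 hs h i hi j hj
  · exact bounds1 hs h i hi j hj

end Loop2

open Loop2 in
theorem stLoop2 (h1 : StSum) (h2 : StPTPar) : StLoop2 := by
  have hg : ∀ w : List Letter, sz w ≤ tb 200 w := fun w => by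
    have := bounds (w := w) h1 0 (Nat.zero_le _) 0 (Nat.zero_le _)
    omega
  refine ⟨200, hg, ?_⟩
  have h := TB.iter (f := step) (b := tst) (s := init) (g := tb 200)
    (fun w => T1 w + T2 w) ptime_step ptime_tst (ptime_init h2) hg
    (fun w => by
      have := bounds (w := w) h1 0 (Nat.zero_le _) 0 (Nat.zero_le _)
      omega)
    (fun w i hi => by
      rw [step_iter w i hi]
      unfold after
      rw [sz_mk, sz_mk, sz_mk, sz_mk, sz_mk, sz_mk, sz_nat, sz_nat, sz_nat, sz_nat]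
      have := bounds (w := w) h1 (min i (T1 w)) (Nat.min_le_right _ _) (i - T1 w)
        (by omega)
      omega)
    (fun w i hi => by
      rw [step_iter w i hi.le]
      unfold after tst
      simp only [Bool.not_eq_true', Bool.and_eq_false_iff, decide_eq_false_iff_not]
      omega)
    (fun w => by
      rw [step_iter w _ le_rfl]
      unfold after tst
      simp)
  have h3 := TB.comp (f := fun q : St => (q.2.2, q.1.2.2, q.2.1.2.2)) (by fun_prop) h hg
  have e : (fun w : List Letter => (w, vs1 w, vs2 w)) = fun w =>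
      (fun q : St => (q.2.2, q.1.2.2, q.2.1.2.2)) (step^[T1 w + T2 w] (init w)) := by
    funext w
    rw [step_iter w _ le_rfl]
    unfold after vs1 vs2
    simp
  rw [e]
  exact h3

end Pool.Agent.Lib.MP_64d474_lc.ST2
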