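import Pool.Agent.Lib.MP_64d474_lc.ST2.Asm2
import Pool.Agent.Lib.MP_64d474_lc.ST.Mach

/-!
# The second machine
-/

set_option autoImplicit false
set_option maxHeartbeats 400000

open Pool.Agent.Lib.PT Pool.Agent.Lib.MP_64d474_lc.ST

namespace Pool.Agent.Lib.MP_64d474_lc.ST2

theorem exists_machine2 (hdec : StPTDec2) (hloop : StLoop2) :
    ∃ (c : ℕ) (M : Turing.TM2ComputableAux Letter Bool) (p : Polynomial ℕ),
      ∀ w : List Letter, Outputs M w [accept2 w] (p.eval (tb c w)) := by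
  obtain ⟨c, hc, hT⟩ := hloop
  have h0 : PTime fun q : List Letter × List (List ℕ) × List (List ℕ) =>
      [dec2 q.1 q.2.1 q.2.2] := PTime.cons hdec (PTime.const [])
  have h1 := TB.comp h0 hT hc
  obtain ⟨M, p, hM⟩ := tb_tm (G₁ := Letter) (G₂ := Bool)
    (fun a b h => EncInj.inj h) hc h1
  exact ⟨c, M, p, hM⟩

theorem sum_rw'_le (hR : StRaw) (hrl : StRl) (w : List Letter) (N : ℕ)
    (h : ∀ A : SMat, code A = w → totalRank A ≤ N) : (rw' w).sum ≤ N := by
  unfold rw'
  cases h1 : wellformed w with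
  | false => exact Nat.zero_le _
  | true =>
    rw [cond_true]
    obtain ⟨hR1, hR2, hR3⟩ := hR
    unfold wellformed at h1
    rw [Bool.and_eq_true, Bool.and_eq_true, decide_eq_true_eq] at h1
    obtain ⟨h2, h3, h4⟩ := h1
    have h5 := hR3 _ h3
    have hcode : code (unraw (parse w)) = w := by rw [← hR1, h5, h2]
    have hsq : ∀ r ∈ unraw (parse w), r.length = (unraw (parse w)).length :=
      square_of_raw _ (by rw [h5]; exact h4)
    obtain ⟨h6, h7, -⟩ := hrl _ hsq
    rw [h5, hcode] at h6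
    rw [h6, h7]
    exact h _ hcode

open Classical in
theorem main2 (hR : StRaw) (hrl : StRl) (hdec : StPTDec2) (hloop : StLoop2) (hbd : StBd2)
    (hnum : StNum)
    (hacc : ∀ w : List Letter, accept2 w = true ↔ ∃ A : SMat, code A = w ∧ Nonsingular A) :
    ∃ (c : ℕ) (M : Turing.TM2ComputableAux Letter Bool), ∀ (w : List Letter) (R : ℕ),
      1 ≤ R → (∀ A : SMat, code A = w → totalRank A ≤ R ^ 3) →
      Nonempty (Turing.TM2OutputsInTime M.tm (w.map M.inputAlphabet.invFun)
        (some ([decide (∃ A : SMat, code A = w ∧ Nonsingular A)].map M.outputAlphabet.invFun))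
        (min ((w.length + 2) ^ c * 2 ^ (c * w.count .row))
          ((w.length + 2) ^ (c * Nat.log 2 (w.length + 2)) * (R + 1) ^ (c * R ^ 2)))) := by
  obtain ⟨c, M, p, hM⟩ := exists_machine2 hdec hloop
  obtain ⟨c', hc'⟩ := hbd p c
  obtain ⟨c'', hc''⟩ := hnum c'
  refine ⟨c'', M, fun w R h1 hw => ?_⟩
  have h3 : decide (∃ A : SMat, code A = w ∧ Nonsingular A) = accept2 w := by
    rw [Bool.eq_iff_iff, decide_eq_true_eq]
    exact (hacc w).symm
  rw [h3]
  exact (hM w).mono ((hc' w).trans (hc'' w R h1 (sum_rw'_le hR hrl w _ hw)))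

end Pool.Agent.Lib.MP_64d474_lc.ST2
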