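import Pool.Agent.Lib.MP_64d474_lc.ST2.Stmts
import Pool.Agent.Lib.MP_64d474_lc.ST.Mod
import Pool.Agent.Lib.MP_64d474_lc.ST.Xmod

/-!
# The matrix at the new points modulo a number
-/

set_option autoImplicit false

open Pool.Agent.Lib.PT Pool.Agent.Lib.MP_64d474_lc.ST

namespace Pool.Agent.Lib.MP_64d474_lc.ST2

namespace Mod2aux

open Pool.Agent.Lib.MP_64d474_lc.ST.Modaux Pool.Agent.Lib.MP_64d474_lc.ST.Xmod

lemma idxOf_bits (V : List ℕ) (v : ℕ) : (V.map Nat.bits).idxOf v.bits = V.idxOf v := by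
  induction V with
  | nil => simp
  | cons a l ih =>
    rw [List.map_cons, List.idxOf_cons, List.idxOf_cons, ih]
    by_cases h : a = v
    · subst h; simp
    · have h2 : a.bits ≠ v.bits := fun h3 => h (bits_inj h3)
      rw [beq_false_of_ne h, beq_false_of_ne h2]

lemma cast_entm (hx : StXm) (p : ℕ) (hp : 0 < p) (n : ℕ) (V : List ℕ) (l : List ℕ) (R : ℕ)
    (d e : List ℕ) (f : List (ℤ × ℕ)) :
    ((entm p n (V.map Nat.bits) l R d e (f.map rawPair) : ℕ) : ZMod p) =
      ((evalE (fun k => (xv n V.length l R d e (V.idxOf k) : ℤ)) f : ℤ) : ZMod p) := by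
  unfold entm evalE
  rw [ZMod.natCast_mod, List.length_map]
  induction f with
  | nil => simp
  | cons q f ih =>
    rw [List.map_cons, List.map_cons, List.sum_cons, List.map_cons, List.sum_cons, Nat.cast_add,
      Int.cast_add, ih, Nat.cast_mul, Int.cast_mul]
    congr 1
    have h1 : ((coefmod p (rawPair q).1 : ℕ) : ZMod p) = (q.1 : ZMod p) := cast_coefmod p hp q.1
    have h2 : (V.map Nat.bits).idxOf (rawPair q).2 = V.idxOf q.2 := idxOf_bits V q.2
    have h3 := hx p n V.length l R d e (V.idxOf q.2) hp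
    rw [h1, h2, h3]
    simp

end Mod2aux

open Mod2aux Pool.Agent.Lib.MP_64d474_lc.ST.Modaux in
theorem stMod2 (h1 : StXm) : StMod2 := by
  intro A p R d e hp hA i j
  have hi : (i : ℕ) < A.length := i.isLt
  have hr : (A[(i : ℕ)]).length = A.length := hA _ (List.getElem_mem hi)
  have hj : (j : ℕ) < (A[(i : ℕ)]).length := by rw [hr]; exact j.isLt
  have hl : (raw A).length = A.length := by simp [raw]
  have h3 : (((matm p (wl A) R d e (raw A)).getD i []).getD j 0) =
      entm p A.length (vars (raw A)) (wl A) R d e ((A[(i : ℕ)][(j : ℕ)]).map rawPair) := by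
    unfold matm
    rw [hl]
    simp [raw, List.getD_eq_getElem?_getD, hi, hj]
  have h2 : ((A.getD i []).getD j []) = A[(i : ℕ)][(j : ℕ)] := by
    simp [List.getD_eq_getElem?_getD, hi, hj]
  rw [h3, vars_raw, cast_entm h1 p hp]
  unfold evalM
  rw [h2]
  rfl

end Pool.Agent.Lib.MP_64d474_lc.ST2
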