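import Pool.Agent.Lib.MP_64d474_lc.ST2.Stmts
import Pool.Agent.Lib.MP_64d474_lc.ST.Prime
import Pool.Agent.Lib.MP_64d474_lc.ST.IsPrime
import Pool.Agent.Lib.MP_64d474_lc.ST.Mod
import Pool.Agent.Lib.MP_64d474_lc.ST.Sizes
import Pool.Agent.Lib.MP_64d474_lc.ST.Bound

/-!
# The rank of a coefficient matrix is the largest rank modulo a small prime
-/

set_option autoImplicit false

open Matrix Module Pool.Agent.Lib.MP_64d474_lc.ST

namespace Pool.Agent.Lib.MP_64d474_lc.ST2

namespace MultAux

/-! ### Minors -/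

theorem exists_rows {F : Type*} [Field F] {α β : Type*} [Fintype α] [Fintype β]
    [DecidableEq α] [DecidableEq β] (A : Matrix α β F) (r : ℕ) (hr : A.rank = r) :
    ∃ a : Fin r → α, (A.submatrix a id).rank = r := by
  classical
  obtain ⟨κ, a, ha, hsp, hli⟩ := exists_linearIndependent' F (fun i => A i)
  have hfin : Finite κ := Finite.of_injective a ha
  have : Fintype κ := Fintype.ofFinite κ
  have hrank : Fintype.card κ = A.rank := by
    rw [Matrix.rank_eq_finrank_span_row]
    have h1 := finrank_span_eq_card hli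
    rw [← h1, hsp]
    rfl
  have hC : ∀ i, ∃ c : κ → F, ∑ k, c k • A (a k) = A i := by
    intro i
    have h1 : A i ∈ Submodule.span F (Set.range ((fun i => A i) ∘ a)) := by
      rw [hsp]
      exact Submodule.subset_span ⟨i, rfl⟩
    rw [Submodule.mem_span_range_iff_exists_fun] at h1
    exact h1
  choose C hC' using hC
  have e1 : A = (Matrix.of C : Matrix α κ F) * A.submatrix a id := by
    ext i j
    rw [Matrix.mul_apply]
    have := congrFun (hC' i) j
    rw [Finset.sum_apply] at this
    rw [← this]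
    rfl
  have h2 : A.rank ≤ (A.submatrix a id).rank := by
    conv_lhs => rw [e1]
    exact Matrix.rank_mul_le_right _ _
  have h3 := Matrix.rank_submatrix_le A a id
  let e : Fin r ≃ κ := Fintype.equivOfCardEq (by rw [Fintype.card_fin, hrank, hr])
  refine ⟨a ∘ e, ?_⟩
  have e2 : A.submatrix (a ∘ e) id = (A.submatrix a id).submatrix e (Equiv.refl β) := rfl
  rw [e2, Matrix.rank_submatrix]
  omega

theorem det_ne_zero_of_rank {F : Type*} [Field F] {r : ℕ} (A : Matrix (Fin r) (Fin r) F)
    (h : A.rank = r) : A.det ≠ 0 := by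
  intro h0
  obtain ⟨v, hv, hAv⟩ := Matrix.exists_mulVec_eq_zero_iff.mpr h0
  have h7 : A.mulVecLin.ker ≠ ⊥ := by
    rw [Submodule.ne_bot_iff]
    exact ⟨v, hAv, hv⟩
  have h8 := LinearMap.finrank_range_add_finrank_ker A.mulVecLin
  rw [Module.finrank_fintype_fun_eq_card, Fintype.card_fin] at h8
  have h9 : 0 < finrank F A.mulVecLin.ker := by
    rw [Nat.pos_iff_ne_zero]
    intro h
    exact h7 (Submodule.finrank_eq_zero.mp h)
  rw [Matrix.rank] at h
  omega

theorem exists_minor {F : Type*} [Field F] {α β : Type*} [Fintype α] [Fintype β]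
    [DecidableEq α] [DecidableEq β] (A : Matrix α β F) :
    ∃ (a : Fin A.rank → α) (b : Fin A.rank → β), (A.submatrix a b).det ≠ 0 := by
  obtain ⟨a, ha⟩ := exists_rows A A.rank rfl
  have h1 : ((A.submatrix a id)ᵀ).rank = A.rank := by rw [Matrix.rank_transpose, ha]
  obtain ⟨b, hb⟩ := exists_rows (A.submatrix a id)ᵀ A.rank h1
  refine ⟨a, b, det_ne_zero_of_rank _ ?_⟩
  have e : A.submatrix a b = (((A.submatrix a id)ᵀ).submatrix b id)ᵀ := rfl
  rw [e, Matrix.rank_transpose, hb]

theorem le_rank {F : Type*} [Field F] {n r : ℕ} (B : Matrix (Fin n) (Fin n) F)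
    (a b : Fin r → Fin n) (h : (B.submatrix a b).det ≠ 0) : r ≤ B.rank := by
  have h1 := Matrix.rank_of_det_ne_zero h
  rw [Fintype.card_fin] at h1
  have h2 := Matrix.rank_submatrix_le B a b
  omega

theorem det_cast {F : Type*} [Field F] {n r : ℕ} (C : Matrix (Fin n) (Fin n) ℤ)
    (a b : Fin r → Fin n) :
    ((C.map (Int.cast : ℤ → F)).submatrix a b).det = (((C.submatrix a b).det : ℤ) : F) :=
  ((Int.castRingHom F).map_det (C.submatrix a b)).symm

/-! ### Maxima -/

theorem le_foldl (l : List ℕ) (a : ℕ) : a ≤ l.foldl max a := by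
  induction l generalizing a with
  | nil => exact le_rfl
  | cons x l ih => exact (le_max_left a x).trans (ih _)

theorem mem_le_foldl {l : List ℕ} {x : ℕ} (hx : x ∈ l) (a : ℕ) : x ≤ l.foldl max a := by
  induction l generalizing a with
  | nil => exact absurd hx List.not_mem_nil
  | cons y l ih =>
    rcases List.mem_cons.1 hx with rfl | h
    · exact (le_max_right a x).trans (le_foldl l _)
    · exact ih h _

theorem foldl_le {l : List ℕ} {B : ℕ} (h : ∀ x ∈ l, x ≤ B) (a : ℕ) (ha : a ≤ B) :
    l.foldl max a ≤ B := by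
  induction l generalizing a with
  | nil => exact ha
  | cons y l ih =>
    exact ih (fun x hx => h x (List.mem_cons_of_mem _ hx)) _
      (max_le ha (h y List.mem_cons_self))

/-! ### The integral coefficient matrix -/

/-- the coefficient matrix with integral entries -/
def cz (A : SMat) (k : ℕ) : Matrix (Fin A.length) (Fin A.length) ℤ :=
  evalM A fun m => if m = k then 1 else 0

theorem cz_map (A : SMat) (k : ℕ) : (cz A k).map (Int.cast : ℤ → ℚ) = coefMatrix A k := by
  ext i j
  rw [Matrix.map_apply, cz, evalM, coefMatrix]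
  generalize (A.getD i []).getD j [] = e
  unfold evalE
  induction e with
  | nil => simp
  | cons q e ih =>
    rw [List.map_cons, List.sum_cons, List.map_cons, List.sum_cons, Int.cast_add, ih]
    congr 1
    by_cases h : q.2 = k
    · simp [h]
    · simp [h]

theorem bits_inj {m k : ℕ} (h : m.bits = k.bits) : m = k := by
  rw [← Modaux.valB_bits m, h, Modaux.valB_bits]

theorem cast_ent (p : ℕ) (hp : 0 < p) (k : ℕ) (e : List (ℤ × ℕ)) :
    (((((e.map rawPair).filter fun q => decide (q.2 = k.bits)).map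
      fun q => coefmod p q.1).sum % p : ℕ) : ZMod p) =
      ((evalE (fun m => if m = k then (1 : ℤ) else 0) e : ℤ) : ZMod p) := by
  rw [ZMod.natCast_mod]
  unfold evalE
  induction e with
  | nil => simp
  | cons q e ih =>
    rw [List.map_cons, List.map_cons, List.sum_cons, Int.cast_add, ← ih]
    by_cases h : q.2 = k
    · have h1 : decide ((rawPair q).2 = k.bits) = true := by
        rw [decide_eq_true_eq, ← h]
        rfl
      rw [List.filter_cons_of_pos (p := fun q : RPair => decide (q.2 = k.bits)) h1,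
        List.map_cons, List.sum_cons, Nat.cast_add]
      congr 1
      have h2 : ((coefmod p (rawPair q).1 : ℕ) : ZMod p) = (q.1 : ZMod p) :=
        Modaux.cast_coefmod p hp q.1
      rw [h2]
      simp [h]
    · have h1 : ¬ decide ((rawPair q).2 = k.bits) = true := by
        rw [decide_eq_true_eq]
        exact fun h0 => h (bits_inj h0)
      rw [List.filter_cons_of_neg (p := fun q : RPair => decide (q.2 = k.bits)) h1]
      have h2 : ((((q.1 : ℤ) * (if q.2 = k then (1 : ℤ) else 0) : ℤ)) : ZMod p) = 0 := by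
        rw [if_neg h, mul_zero, Int.cast_zero]
      refine (zero_add _).symm.trans ?_
      congr 1
      exact h2.symm

theorem cast_cmat (A : SMat) (hA : ∀ r ∈ A, r.length = A.length) (p : ℕ) (hp : 0 < p) (k : ℕ)
    (i j : Fin A.length) :
    ((((cmat p k.bits (raw A)).getD i []).getD j 0 : ℕ) : ZMod p) =
      ((cz A k i j : ℤ) : ZMod p) := by
  have hi : (i : ℕ) < A.length := i.isLt
  have hr : (A[(i : ℕ)]).length = A.length := hA _ (List.getElem_mem hi)
  have hj : (j : ℕ) < (A[(i : ℕ)]).length := by rw [hr]; exact j.isLt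
  have h1 : (((cmat p k.bits (raw A)).getD i []).getD j 0) =
      ((((A[(i : ℕ)][(j : ℕ)]).map rawPair).filter fun q => decide (q.2 = k.bits)).map
        fun q => coefmod p q.1).sum % p := by
    unfold cmat
    simp [raw, List.getD_eq_getElem?_getD, hi, hj]
  have h2 : ((A.getD i []).getD j []) = A[(i : ℕ)][(j : ℕ)] := by
    simp [List.getD_eq_getElem?_getD, hi, hj]
  rw [h1, cast_ent p hp k]
  unfold cz evalM
  rw [h2]

theorem length_cmat (p : ℕ) (v : List Bool) (A : SMat) :
    (cmat p v (raw A)).length = A.length := by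
  simp [cmat, raw]

theorem length_row (p : ℕ) (v : List Bool) (A : SMat) (hA : ∀ r ∈ A, r.length = A.length) :
    ∀ r ∈ cmat p v (raw A), r.length = A.length := by
  intro r hr
  unfold cmat raw at hr
  rw [List.mem_map] at hr
  obtain ⟨s, hs, rfl⟩ := hr
  rw [List.mem_map] at hs
  obtain ⟨t, ht, rfl⟩ := hs
  rw [List.length_map, List.length_map]
  exact hA t ht

theorem rk_cmat (h1 : StRk) (A : SMat) (hA : ∀ r ∈ A, r.length = A.length) (p : ℕ)
    (hp : p.Prime) (k : ℕ) : rkmod p A.length (cmat p k.bits (raw A)) =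
      ((cz A k).map (Int.cast : ℤ → ZMod p)).rank := by
  have : Fact p.Prime := ⟨hp⟩
  rw [h1 p A.length _ (length_row p _ A hA)]
  have hl := length_cmat p k.bits A
  have e : (Matrix.of fun (i : Fin (cmat p k.bits (raw A)).length) (j : Fin A.length) =>
      ((((cmat p k.bits (raw A)).getD i []).getD j 0 : ℕ) : ZMod p)) =
      ((cz A k).map (Int.cast : ℤ → ZMod p)).submatrix (finCongr hl) (Equiv.refl _) := by
    ext i j
    exact cast_cmat A hA p hp.pos k (finCongr hl i) j
  rw [e, Matrix.rank_submatrix]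

/-- the bound for the minors -/
theorem minor_lt (A : SMat) (k r : ℕ) (a b : Fin r → Fin A.length) (hr : r ≤ A.length) :
    ((cz A k).submatrix a b).det.natAbs < 2 ^ kbound (code A).length := by
  obtain ⟨-, -, hn, -, hlen, hcoef⟩ := stSizes A
  obtain ⟨L, hL⟩ : ∃ L, L = (code A).length := ⟨_, rfl⟩
  rw [← hL] at hn hlen hcoef ⊢
  have hL2 : L + 1 ≤ 2 ^ L := Bnd.lt_pow L
  have hent : ∀ i j, |(cz A k).submatrix a b i j| ≤ (2 ^ (2 * L) : ℤ) := by
    intro i j
    have key : ∀ e : List (ℤ × ℕ), e.length ≤ L → (∀ p ∈ e, p.1.natAbs < 2 ^ L) →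
        |evalE (fun m => if m = k then (1 : ℤ) else 0) e| ≤ (2 ^ (2 * L) : ℤ) := by
      intro e he1 he2
      have h1 := Bnd.evalE_le (fun m => if m = k then (1 : ℤ) else 0) 1 (2 ^ L) (by positivity)
        (by intro m; split_ifs <;> simp) e fun p hp => by
          have h2 := he2 p hp
          rw [Int.abs_eq_natAbs]
          exact_mod_cast h2.le
      have h3 : (e.length : ℤ) ≤ 2 ^ L := by
        have h4 : e.length ≤ 2 ^ L := by omega
        exact_mod_cast h4
      calc _ ≤ (e.length : ℤ) * (2 ^ L * 1) := h1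
        _ ≤ 2 ^ L * 2 ^ L := by
            rw [mul_one]
            exact mul_le_mul_of_nonneg_right h3 (by positivity)
        _ = 2 ^ (2 * L) := by rw [← pow_add, two_mul]
    rw [Matrix.submatrix_apply, cz]
    unfold evalM
    rcases Bnd.mem_getD A (a i) with h1 | h1
    · rcases Bnd.mem_getD (A.getD (a i) []) (b j) with h2 | h2
      · exact key _ (hlen _ h1 _ h2) (hcoef _ h1 _ h2)
      · rw [h2]
        exact key [] (Nat.zero_le _) fun p hp => absurd hp List.not_mem_nil
    · rw [h1]
      have h2 : ([] : List (List (ℤ × ℕ))).getD (b j) [] = [] := rfl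
      rw [h2]
      exact key [] (Nat.zero_le _) fun p hp => absurd hp List.not_mem_nil
  have hdet := Matrix.det_le (abv := AbsoluteValue.abs) (A := (cz A k).submatrix a b) hent
  rw [Fintype.card_fin, nsmul_eq_mul] at hdet
  have hrL : r ≤ L := hr.trans hn
  have h1 : |((cz A k).submatrix a b).det| < (2 ^ kbound L : ℤ) := by
    refine lt_of_le_of_lt hdet ?_
    have h2 : r.factorial ≤ 2 ^ (L * L) := by
      calc r.factorial ≤ r ^ r := Nat.factorial_le_pow _
        _ ≤ (2 ^ L) ^ r := Nat.pow_le_pow_left (by omega) _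
        _ ≤ (2 ^ L) ^ L := Nat.pow_le_pow_right Nat.one_le_two_pow hrL
        _ = 2 ^ (L * L) := by rw [← pow_mul]
    have h3 : (2 ^ (2 * L)) ^ r ≤ 2 ^ (2 * L * L) := by
      rw [← pow_mul]
      exact Nat.pow_le_pow_right (by norm_num) (Nat.mul_le_mul_left _ hrL)
    have h4 : r.factorial * (2 ^ (2 * L)) ^ r < 2 ^ kbound L := by
      calc _ ≤ 2 ^ (L * L) * 2 ^ (2 * L * L) := Nat.mul_le_mul h2 h3
        _ = 2 ^ (L * L + 2 * L * L) := by rw [← pow_add]
        _ < 2 ^ kbound L := by
            refine Nat.pow_lt_pow_right (by norm_num) ?_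
            unfold kbound
            have h5 : L * L ≤ (L + 2) * (L + 2) := Nat.mul_le_mul (by omega) (by omega)
            have h6 : (L + 2) * (L + 2) ≤ (L + 2) * ((L + 2) * ((L + 2) * (L + 2))) := by
              refine Nat.mul_le_mul_left _ ?_
              nlinarith
            have h7 : 0 < (L + 2) * (L + 2) := by positivity
            have h8 : 2 * L * L = 2 * (L * L) := by ring
            omega
    exact_mod_cast h4
  rw [Int.abs_eq_natAbs] at h1
  exact_mod_cast h1

end MultAux

open MultAux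

/-- The rank of a coefficient matrix is the largest rank modulo a small prime. -/
theorem stMult (h1 : StRk) : StMult := by
  classical
  intro A hA k
  have hraw : (raw A).length = A.length := by simp [raw]
  have hle : ∀ p : ℕ, p.Prime →
      rkmod p (raw A).length (cmat p k.bits (raw A)) ≤ (coefMatrix A k).rank := by
    intro p hp
    have : Fact p.Prime := ⟨hp⟩
    rw [hraw, rk_cmat h1 A hA p hp k, ← cz_map]
    obtain ⟨a, b, hab⟩ := exists_minor ((cz A k).map (Int.cast : ℤ → ZMod p))
    rw [det_cast] at hab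
    refine le_rank _ a b ?_
    rw [det_cast]
    intro h0
    rw [Int.cast_eq_zero] at h0
    rw [h0, Int.cast_zero] at hab
    exact hab rfl
  obtain ⟨p, hpb, hpp, hpr⟩ : ∃ p ≤ pbound (code A).length, p.Prime ∧
      (coefMatrix A k).rank ≤ rkmod p (raw A).length (cmat p k.bits (raw A)) := by
    rw [← cz_map]
    obtain ⟨a, b, hab⟩ := exists_minor ((cz A k).map (Int.cast : ℤ → ℚ))
    rw [det_cast, Int.cast_ne_zero] at hab
    have hr : ((cz A k).map (Int.cast : ℤ → ℚ)).rank ≤ A.length := by
      have := Matrix.rank_le_card_width ((cz A k).map (Int.cast : ℤ → ℚ))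
      rwa [Fintype.card_fin] at this
    obtain ⟨p, hpb, hpp, hpd⟩ := stPrime _ _ hab (minor_lt A k _ a b hr)
    have : Fact p.Prime := ⟨hpp⟩
    refine ⟨p, hpb, hpp, ?_⟩
    rw [hraw, rk_cmat h1 A hA p hpp k]
    refine le_rank _ a b ?_
    rw [det_cast]
    intro h0
    exact hpd ((ZMod.intCast_zmod_eq_zero_iff_dvd _ _).1 h0)
  unfold mult
  apply le_antisymm
  · refine foldl_le (fun x hx => ?_) 0 (Nat.zero_le _)
    obtain ⟨q, hq, rfl⟩ := List.mem_map.1 hx
    by_cases h : isPrime (q + 1) = true
    · rw [h, cond_true]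
      exact hle (q + 1) ((stIsPrime _).1 h)
    · rw [Bool.not_eq_true] at h
      rw [h, cond_false]
      exact Nat.zero_le _
  · refine hpr.trans (mem_le_foldl (List.mem_map.2 ⟨p - 1, ?_, ?_⟩) 0)
    · have := hpp.pos
      exact List.mem_range.2 (by omega)
    · have h2 : p - 1 + 1 = p := Nat.sub_add_cancel hpp.pos
      rw [h2, (stIsPrime p).2 hpp, cond_true]

end Pool.Agent.Lib.MP_64d474_lc.ST2
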