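import Pool.Agent.Lib.MP_64d474_lc.ST2.Stmts

/-!
# The number of rows of a code
-/

set_option autoImplicit false

open Pool.Agent.Lib.MP_64d474_lc.ST

namespace Pool.Agent.Lib.MP_64d474_lc.ST2

namespace NrAux

theorem nr_append (a b : List Letter) : nr (a ++ b) = nr a + nr b := by
  rw [nr, nr, nr, cnt, cnt, cnt, List.filter_append, List.length_append]

theorem nr_flatMap {α : Type} (l : List α) (f : α → List Letter) :
    nr (l.flatMap f) = (l.map fun x => nr (f x)).sum := by
  induction l with
  | nil => rfl
  | cons x l ih => rw [List.flatMap_cons, nr_append, ih, List.map_cons, List.sum_cons]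

theorem nr_bin (n : ℕ) : nr (bin n) = 0 := by
  rw [bin]
  generalize n.bits = l
  induction l with
  | nil => rfl
  | cons b l ih =>
    rw [List.map_cons]
    have h := nr_append [if b then Letter.one else Letter.zero]
      (l.map fun b => if b then Letter.one else Letter.zero)
    rw [ih] at h
    refine h.trans ?_
    cases b <;> rfl

theorem nr_codePair (p : ℤ × ℕ) : nr (codePair p) = 0 := by
  rw [codePair, nr_append, nr_append, nr_append, nr_append, nr_bin, nr_bin]
  split_ifs <;> rfl

theorem nr_codeEntry (e : List (ℤ × ℕ)) : nr (codeEntry e) = 0 := by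
  rw [codeEntry, nr_append, nr_flatMap]
  simp only [nr_codePair]
  simp
  rfl

theorem nr_codeRow (r : List (List (ℤ × ℕ))) : nr (codeRow r) = 1 := by
  rw [codeRow, nr_append, nr_flatMap]
  simp only [nr_codeEntry]
  simp
  rfl

end NrAux

open NrAux in
theorem stNr : StNr := by
  intro A
  rw [code, nr_flatMap]
  simp only [nr_codeRow]
  simp

end Pool.Agent.Lib.MP_64d474_lc.ST2
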