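import Pool.Agent.Lib.MP_64d474_lc.ST2.Stmts
import Pool.Agent.Lib.MP_64d474_lc.ST.Side

/-!
# The bound of the running time in numbers
-/

set_option autoImplicit false

open Pool.Agent.Lib.MP_64d474_lc.ST

namespace Pool.Agent.Lib.MP_64d474_lc.ST2

namespace NumAux

theorem nr_eq (w : List Letter) : nr w = w.count .row := by
  rw [nr, cnt, List.count_eq_length_filter]
  congr 1

theorem two_pow_log (x : ℕ) : 2 ^ (Nat.log 2 (x + 2) + 1) ≤ 2 * (x + 2) := by
  rw [pow_succ, mul_comm]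
  exact Nat.mul_le_mul_left 2 (Nat.pow_log_le_self 2 (by omega))

theorem fst_bound {R : ℕ} (hR : 1 ≤ R) : 2 * (R ^ 3 + 2) ≤ (R + 1) ^ 4 := by
  nlinarith [pow_pos (show 0 < R by omega) 2, pow_pos (show 0 < R by omega) 3,
    pow_pos (show 0 < R by omega) 4]

theorem cost_bound (w : List Letter) (R : ℕ) (hR : 1 ≤ R) (hs : (rw' w).sum ≤ R ^ 3) :
    2 ^ cost w ≤ (R + 1) ^ (4 * R ^ 2) * (w.length + 2) ^ (4 * Nat.log 2 (w.length + 2)) := by
  have hrs : rs w ≤ R := (stSide (rw' w).sum).2.2.2 R hR hs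
  have hl : 1 ≤ Nat.log 2 (w.length + 2) := Nat.log_pos (by norm_num) (by omega)
  have h1 : 2 ^ (rs w * rs w * (Nat.log 2 ((rw' w).sum + 2) + 1)) ≤ (R + 1) ^ (4 * R ^ 2) := by
    calc 2 ^ (rs w * rs w * (Nat.log 2 ((rw' w).sum + 2) + 1))
        = (2 ^ (Nat.log 2 ((rw' w).sum + 2) + 1)) ^ (rs w * rs w) := by
          rw [← pow_mul, mul_comm]
      _ ≤ ((R + 1) ^ 4) ^ (rs w * rs w) := by
          refine Nat.pow_le_pow_left ?_ _
          refine (two_pow_log _).trans (le_trans ?_ (fst_bound hR))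
          omega
      _ ≤ ((R + 1) ^ 4) ^ (R ^ 2) := by
          refine Nat.pow_le_pow_right (pow_pos (by omega) 4) ?_
          rw [pow_two]
          exact Nat.mul_le_mul hrs hrs
      _ = (R + 1) ^ (4 * R ^ 2) := by rw [← pow_mul]
  have h2 : 2 ^ ((Nat.log 2 (w.length + 2) + 1) * (Nat.log 2 (w.length + 2) + 1)) ≤
      (w.length + 2) ^ (4 * Nat.log 2 (w.length + 2)) := by
    calc 2 ^ ((Nat.log 2 (w.length + 2) + 1) * (Nat.log 2 (w.length + 2) + 1))
        = (2 ^ (Nat.log 2 (w.length + 2) + 1)) ^ (Nat.log 2 (w.length + 2) + 1) := by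
          rw [pow_mul]
      _ ≤ ((w.length + 2) ^ 2) ^ (Nat.log 2 (w.length + 2) + 1) := by
          refine Nat.pow_le_pow_left ((two_pow_log _).trans ?_) _
          rw [pow_two]
          exact Nat.mul_le_mul_right _ (by omega)
      _ = (w.length + 2) ^ (2 * (Nat.log 2 (w.length + 2) + 1)) := by rw [← pow_mul]
      _ ≤ (w.length + 2) ^ (4 * Nat.log 2 (w.length + 2)) :=
          Nat.pow_le_pow_right (by omega) (by omega)
  rw [cost, pow_add]
  exact Nat.mul_le_mul h1 h2

end NumAux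

open NumAux in
theorem stNum : StNum := by
  intro c
  refine ⟨5 * c, fun w R hR hs => le_min ?_ ?_⟩
  · rw [tb, nr_eq]
    refine Nat.mul_le_mul (Nat.pow_le_pow_right (by omega) (by omega))
      (Nat.pow_le_pow_right (by norm_num) ?_)
    exact Nat.mul_le_mul (by omega) (min_le_left _ _)
  · have hl : 1 ≤ Nat.log 2 (w.length + 2) := Nat.log_pos (by norm_num) (by omega)
    calc tb c w ≤ (w.length + 2) ^ c * (2 ^ cost w) ^ c := by
          rw [tb, ← pow_mul, mul_comm (cost w) c]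
          exact Nat.mul_le_mul_left _ (Nat.pow_le_pow_right (by norm_num)
            (Nat.mul_le_mul_left _ (min_le_right _ _)))
      _ ≤ (w.length + 2) ^ (c * Nat.log 2 (w.length + 2)) *
          ((R + 1) ^ (4 * R ^ 2) * (w.length + 2) ^ (4 * Nat.log 2 (w.length + 2))) ^ c := by
          refine Nat.mul_le_mul (Nat.pow_le_pow_right (by omega) ?_)
            (Nat.pow_le_pow_left (cost_bound w R hR hs) _)
          exact Nat.le_mul_of_pos_right _ hl
      _ = (w.length + 2) ^ (5 * c * Nat.log 2 (w.length + 2)) *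
          (R + 1) ^ (4 * c * R ^ 2) := by
          rw [mul_pow, ← pow_mul, ← pow_mul, mul_comm ((R + 1) ^ _) _, ← mul_assoc, ← pow_add]
          congr 2 <;> ring
      _ ≤ (w.length + 2) ^ (5 * c * Nat.log 2 (w.length + 2)) *
          (R + 1) ^ (5 * c * R ^ 2) := by
          refine Nat.mul_le_mul_left _ (Nat.pow_le_pow_right (by omega) ?_)
          exact Nat.mul_le_mul_right _ (by omega)

end Pool.Agent.Lib.MP_64d474_lc.ST2
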