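import Pool.Agent.Lib.MP_64d474_lc.ST2.Stmts

/-!
# The decision is computable in polynomial time from the two lists of digits
-/

set_option autoImplicit false

open Pool.Agent.Lib.PT Pool.Agent.Lib.MP_64d474_lc.ST

namespace Pool.Agent.Lib.MP_64d474_lc.ST2

namespace PTDec2Aux

theorem ptime_pbound : PTime fun L : ℕ => pbound L := by
  unfold pbound kbound
  fun_prop

theorem ptime_kb : PTime fun p : ℕ × ℕ => kb p.1 p.2 := by
  unfold kb
  fun_prop

theorem ptime_pb : PTime fun p : ℕ × ℕ => pb p.1 p.2 := by
  have h : PTime fun p : ℕ × ℕ => kb p.1 p.2 := ptime_kb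
  unfold pb
  exact (PTime.const 1024).mul ((h.add (PTime.const 1)).mul (h.add (PTime.const 1)))

end PTDec2Aux

open PTDec2Aux in
theorem stPTDec2 (h1 : StPTWell) (h2 : StPTParse) (h3 : StPTGoodH) (h4 : StPTGoodF)
    (h5 : StPTPar) : StPTDec2 := by
  obtain ⟨p1, p2, p3, -, -, -, -⟩ := h5
  have a1 : PTime fun q : List Letter × List (List ℕ) × List (List ℕ) => wellformed q.1 :=
    h1.comp (g := fun q : List Letter × List (List ℕ) × List (List ℕ) => q.1) (by fun_prop)
  have a2 : PTime fun q : List Letter × List (List ℕ) × List (List ℕ) => useF q.1 :=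
    p3.comp (g := fun q : List Letter × List (List ℕ) × List (List ℕ) => q.1) (by fun_prop)
  have a3 : PTime fun q : List Letter × List (List ℕ) × List (List ℕ) => parse q.1 :=
    h2.comp (g := fun q : List Letter × List (List ℕ) × List (List ℕ) => q.1) (by fun_prop)
  have a4 : PTime fun q : List Letter × List (List ℕ) × List (List ℕ) => pbound q.1.length :=
    ptime_pbound.comp (g := fun q : List Letter × List (List ℕ) × List (List ℕ) => q.1.length)
      (by fun_prop)
  have a5 : PTime fun q : List Letter × List (List ℕ) × List (List ℕ) =>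
      goodF (parse q.1) (pbound q.1.length) q.2.1 :=
    h4.comp (g := fun q : List Letter × List (List ℕ) × List (List ℕ) =>
      (parse q.1, pbound q.1.length, q.2.1)) (by fun_prop)
  -- the inner test
  have b1 : PTime fun q : ((List Letter × List (List ℕ) × List (List ℕ)) × List ℕ) × List ℕ =>
      parse q.1.1.1 :=
    h2.comp (g := fun q : ((List Letter × List (List ℕ) × List (List ℕ)) × List ℕ) × List ℕ =>
      q.1.1.1) (by fun_prop)
  have b2 : PTime fun q : ((List Letter × List (List ℕ) × List (List ℕ)) × List ℕ) × List ℕ =>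
      pb q.1.1.1.length q.1.1.2.2.length :=
    ptime_pb.comp (g := fun q : ((List Letter × List (List ℕ) × List (List ℕ)) × List ℕ) × List ℕ =>
      (q.1.1.1.length, q.1.1.2.2.length)) (by fun_prop)
  have b3 : PTime fun q : ((List Letter × List (List ℕ) × List (List ℕ)) × List ℕ) × List ℕ =>
      rw' q.1.1.1 :=
    p1.comp (g := fun q : ((List Letter × List (List ℕ) × List (List ℕ)) × List ℕ) × List ℕ =>
      q.1.1.1) (by fun_prop)
  have b4 : PTime fun q : ((List Letter × List (List ℕ) × List (List ℕ)) × List ℕ) × List ℕ =>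
      rs q.1.1.1 :=
    p2.comp (g := fun q : ((List Letter × List (List ℕ) × List (List ℕ)) × List ℕ) × List ℕ =>
      q.1.1.1) (by fun_prop)
  have b5 : PTime fun q : ((List Letter × List (List ℕ) × List (List ℕ)) × List ℕ) × List ℕ =>
      goodH (parse q.1.1.1) (pb q.1.1.1.length q.1.1.2.2.length) (rw' q.1.1.1) (rs q.1.1.1)
        q.1.2 q.2 :=
    h3.comp (g := fun q : ((List Letter × List (List ℕ) × List (List ℕ)) × List ℕ) × List ℕ =>
      (parse q.1.1.1, pb q.1.1.1.length q.1.1.2.2.length, rw' q.1.1.1, rs q.1.1.1, q.1.2, q.2))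
      (by fun_prop)
  have b6 : PTime fun q : (List Letter × List (List ℕ) × List (List ℕ)) × List ℕ =>
      q.1.2.2.any fun e => goodH (parse q.1.1) (pb q.1.1.length q.1.2.2.length) (rw' q.1.1)
        (rs q.1.1) q.2 e :=
    PTime.any (l := fun q : (List Letter × List (List ℕ) × List (List ℕ)) × List ℕ => q.1.2.2)
      (f := fun q e => goodH (parse q.1.1) (pb q.1.1.length q.1.2.2.length) (rw' q.1.1)
        (rs q.1.1) q.2 e) (by fun_prop) b5
  have b7 : PTime fun q : List Letter × List (List ℕ) × List (List ℕ) =>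
      q.2.1.any fun d => q.2.2.any fun e =>
        goodH (parse q.1) (pb q.1.length q.2.2.length) (rw' q.1) (rs q.1) d e :=
    PTime.any (l := fun q : List Letter × List (List ℕ) × List (List ℕ) => q.2.1)
      (f := fun q d => q.2.2.any fun e =>
        goodH (parse q.1) (pb q.1.length q.2.2.length) (rw' q.1) (rs q.1) d e) (by fun_prop) b6
  unfold StPTDec2 dec2
  exact a1.and (PTime.cond a2 a5 b7)

end Pool.Agent.Lib.MP_64d474_lc.ST2
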