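import Pool.Agent.Lib.MP_64d474_lc.ST2.Stmts
import Pool.Agent.Lib.MP_64d474_lc.ST.PTMat

/-!
# The Fischer norm modulo a number is computable in polynomial time
-/

set_option autoImplicit false

open Pool.Agent.Lib.PT Pool.Agent.Lib.MP_64d474_lc.ST

namespace Pool.Agent.Lib.MP_64d474_lc.ST2

namespace PTFvalAux

/-- the keys -/
abbrev Ky : Type := List ℕ × List ℕ × List ℕ

theorem ptime_ipm : PTime fun q : ℕ × List RPair × List RPair => ipm (q.1 + 1) q.2.1 q.2.2 := by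
  have h1 : PTime fun t : ((ℕ × List RPair × List RPair) × RPair) × RPair =>
      coefmod (t.1.1.1 + 1) t.1.2.1 :=
    PTMatAux.ptime_coefmod.comp (g := fun t : ((ℕ × List RPair × List RPair) × RPair) × RPair =>
      (t.1.1.1, t.1.2.1)) (by fun_prop)
  have h2 : PTime fun t : ((ℕ × List RPair × List RPair) × RPair) × RPair =>
      coefmod (t.1.1.1 + 1) t.2.1 :=
    PTMatAux.ptime_coefmod.comp (g := fun t : ((ℕ × List RPair × List RPair) × RPair) × RPair =>
      (t.1.1.1, t.2.1)) (by fun_prop)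
  have h3 : PTime fun t : (ℕ × List RPair × List RPair) × RPair =>
      t.1.2.2.filter fun q' => decide (q'.2 = t.2.2) :=
    PTime.filter (l := fun t : (ℕ × List RPair × List RPair) × RPair => t.1.2.2)
      (f := fun t q' => decide (q'.2 = t.2.2)) (by fun_prop) (by fun_prop)
  have h4 : PTime fun t : (ℕ × List RPair × List RPair) × RPair =>
      (t.1.2.2.filter fun q' => decide (q'.2 = t.2.2)).map fun q' =>
        coefmod (t.1.1 + 1) t.2.1 * coefmod (t.1.1 + 1) q'.1 :=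
    PTime.map (f := fun (t : (ℕ × List RPair × List RPair) × RPair) (q' : RPair) =>
      coefmod (t.1.1 + 1) t.2.1 * coefmod (t.1.1 + 1) q'.1) h3 (h1.mul h2)
  have h5 : PTime fun q : ℕ × List RPair × List RPair => q.2.1.flatMap fun x =>
      (q.2.2.filter fun q' => decide (q'.2 = x.2)).map fun q' =>
        coefmod (q.1 + 1) x.1 * coefmod (q.1 + 1) q'.1 :=
    PTime.flatMap (l := fun q : ℕ × List RPair × List RPair => q.2.1)
      (f := fun (q : ℕ × List RPair × List RPair) (x : RPair) =>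
        (q.2.2.filter fun q' => decide (q'.2 = x.2)).map fun q' =>
          coefmod (q.1 + 1) x.1 * coefmod (q.1 + 1) q'.1) (by fun_prop) h4
  have h6 : PTime fun q : ℕ × List RPair × List RPair => q.1 + 1 := by fun_prop
  exact h5.sum.mod h6

theorem ptime_ent : PTime fun q : RMat × ℕ × ℕ => ent q.1 q.2.1 q.2.2 := by
  have h : PTime fun q : RMat × ℕ × ℕ => (q.1.getD q.2.1 []).getD q.2.2 [] := by fun_prop
  exact h

theorem ptime_sgm : PTime fun q : ℕ × ℕ => sgm (q.1 + 1) q.2 := by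
  have h : PTime fun q : ℕ × ℕ => if q.2 % 2 = 0 then 1 % (q.1 + 1) else (q.1 + 1) - 1 :=
    PTime.ite (p := fun q : ℕ × ℕ => q.2 % 2 = 0) (by fun_prop) (by fun_prop) (by fun_prop)
  exact h

theorem ptime_look : PTime fun q : Tab × Ky => look q.1 q.2 := by
  have h1 : PTime fun q : Tab × Ky => q.1.filter fun t => decide (t.1 = q.2) :=
    PTime.filter (l := fun q : Tab × Ky => q.1) (f := fun q t => decide (t.1 = q.2))
      (by fun_prop) (by fun_prop)
  have h2 := (h1.headD (PTime.const (([], [], []), 0))).snd'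
  exact h2

theorem ptime_keys : PTime fun q : List (List ℕ) × ℕ => keys q.1 q.2 := by
  have f1 : PTime fun q : List (List ℕ) × ℕ => q.1.filter fun a => decide (a.length = q.2) :=
    PTime.filter (l := fun q : List (List ℕ) × ℕ => q.1)
      (f := fun q a => decide (a.length = q.2)) (by fun_prop) (by fun_prop)
  have f2 : PTime fun q : (List (List ℕ) × ℕ) × List ℕ =>
      q.1.1.filter fun a => decide (a.length = q.1.2) := f1.comp (by fun_prop)
  have f3 : PTime fun q : ((List (List ℕ) × ℕ) × List ℕ) × List ℕ =>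
      q.1.1.1.filter fun a => decide (a.length = q.1.1.2) := f2.comp (by fun_prop)
  have g3 : PTime fun q : ((List (List ℕ) × ℕ) × List ℕ) × List ℕ =>
      (q.1.1.1.filter fun a => decide (a.length = q.1.1.2)).map fun c => (q.1.2, q.2, c) :=
    PTime.map (f := fun (q : ((List (List ℕ) × ℕ) × List ℕ) × List ℕ) (c : List ℕ) =>
      (q.1.2, q.2, c)) f3 (by fun_prop)
  have g2 : PTime fun q : (List (List ℕ) × ℕ) × List ℕ =>
      (q.1.1.filter fun a => decide (a.length = q.1.2)).flatMap fun b =>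
        (q.1.1.filter fun a => decide (a.length = q.1.2)).map fun c => (q.2, b, c) :=
    PTime.flatMap (f := fun (q : (List (List ℕ) × ℕ) × List ℕ) (b : List ℕ) =>
      (q.1.1.filter fun a => decide (a.length = q.1.2)).map fun c => (q.2, b, c)) f2 g3
  exact PTime.flatMap (f := fun (q : List (List ℕ) × ℕ) (a : List ℕ) =>
      (q.1.filter fun a => decide (a.length = q.2)).flatMap fun b =>
        (q.1.filter fun a => decide (a.length = q.2)).map fun c => (a, b, c)) f1 g2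

theorem ptime_erase : PTime fun q : List ℕ × ℕ => q.1.eraseIdx q.2 := by
  have h : PTime fun q : List ℕ × ℕ => q.1.take q.2 ++ q.1.drop (q.2 + 1) := by fun_prop
  exact h.of_eq fun q => (List.eraseIdx_eq_take_drop_succ _ _).symm

/-- the arguments of `fnew` -/
abbrev Fa : Type := (ℕ × RMat) × ℕ × Tab × Ky

theorem ptime_fnew : PTime fun t : Fa => fnew (t.1.1 + 1) t.1.2 t.2.1 t.2.2.1 t.2.2.2 := by
  have c1 : PTime fun t : ((Fa × ℕ) × ℕ) × ℕ =>
      sgm (t.1.1.1.1.1 + 1) (t.1.1.1.2.1 + t.1.1.2 + t.1.2 + t.2) :=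
    ptime_sgm.comp (g := fun t : ((Fa × ℕ) × ℕ) × ℕ =>
      (t.1.1.1.1.1, t.1.1.1.2.1 + t.1.1.2 + t.1.2 + t.2)) (by fun_prop)
  have c2 : PTime fun t : ((Fa × ℕ) × ℕ) × ℕ =>
      ent t.1.1.1.1.2 t.1.1.1.2.1 (t.1.1.1.2.2.2.1.getD t.1.1.2 0) :=
    ptime_ent.comp (g := fun t : ((Fa × ℕ) × ℕ) × ℕ =>
      (t.1.1.1.1.2, t.1.1.1.2.1, t.1.1.1.2.2.2.1.getD t.1.1.2 0)) (by fun_prop)
  have c3 : PTime fun t : ((Fa × ℕ) × ℕ) × ℕ =>
      ent t.1.1.1.1.2 (t.1.1.1.2.2.2.2.1.getD t.1.2 0) (t.1.1.1.2.2.2.2.2.getD t.2 0) :=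
    ptime_ent.comp (g := fun t : ((Fa × ℕ) × ℕ) × ℕ =>
      (t.1.1.1.1.2, t.1.1.1.2.2.2.2.1.getD t.1.2 0, t.1.1.1.2.2.2.2.2.getD t.2 0)) (by fun_prop)
  have c4 : PTime fun t : ((Fa × ℕ) × ℕ) × ℕ => ipm (t.1.1.1.1.1 + 1)
      (ent t.1.1.1.1.2 t.1.1.1.2.1 (t.1.1.1.2.2.2.1.getD t.1.1.2 0))
      (ent t.1.1.1.1.2 (t.1.1.1.2.2.2.2.1.getD t.1.2 0) (t.1.1.1.2.2.2.2.2.getD t.2 0)) :=
    ptime_ipm.comp (g := fun t : ((Fa × ℕ) × ℕ) × ℕ => (t.1.1.1.1.1,
      ent t.1.1.1.1.2 t.1.1.1.2.1 (t.1.1.1.2.2.2.1.getD t.1.1.2 0),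
      ent t.1.1.1.1.2 (t.1.1.1.2.2.2.2.1.getD t.1.2 0) (t.1.1.1.2.2.2.2.2.getD t.2 0)))
      (PTime.pair (by fun_prop) (PTime.pair c2 c3))
  have d1 : PTime fun t : ((Fa × ℕ) × ℕ) × ℕ => t.1.1.1.2.2.2.1.eraseIdx t.1.1.2 :=
    ptime_erase.comp (g := fun t : ((Fa × ℕ) × ℕ) × ℕ => (t.1.1.1.2.2.2.1, t.1.1.2))
      (by fun_prop)
  have d2 : PTime fun t : ((Fa × ℕ) × ℕ) × ℕ => t.1.1.1.2.2.2.2.1.eraseIdx t.1.2 :=
    ptime_erase.comp (g := fun t : ((Fa × ℕ) × ℕ) × ℕ => (t.1.1.1.2.2.2.2.1, t.1.2))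
      (by fun_prop)
  have d3 : PTime fun t : ((Fa × ℕ) × ℕ) × ℕ => t.1.1.1.2.2.2.2.2.eraseIdx t.2 :=
    ptime_erase.comp (g := fun t : ((Fa × ℕ) × ℕ) × ℕ => (t.1.1.1.2.2.2.2.2, t.2))
      (by fun_prop)
  have c5 : PTime fun t : ((Fa × ℕ) × ℕ) × ℕ => look t.1.1.1.2.2.1
      (t.1.1.1.2.2.2.1.eraseIdx t.1.1.2, t.1.1.1.2.2.2.2.1.eraseIdx t.1.2,
        t.1.1.1.2.2.2.2.2.eraseIdx t.2) :=
    ptime_look.comp (g := fun t : ((Fa × ℕ) × ℕ) × ℕ => (t.1.1.1.2.2.1,
      (t.1.1.1.2.2.2.1.eraseIdx t.1.1.2, t.1.1.1.2.2.2.2.1.eraseIdx t.1.2,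
        t.1.1.1.2.2.2.2.2.eraseIdx t.2)))
      (PTime.pair (by fun_prop) (PTime.pair d1 (PTime.pair d2 d3)))
  have m3 : PTime fun t : (Fa × ℕ) × ℕ => (List.range (t.1.1.2.1 + 1)).map fun r =>
      sgm (t.1.1.1.1 + 1) (t.1.1.2.1 + t.1.2 + t.2 + r) *
        ipm (t.1.1.1.1 + 1) (ent t.1.1.1.2 t.1.1.2.1 (t.1.1.2.2.2.1.getD t.1.2 0))
          (ent t.1.1.1.2 (t.1.1.2.2.2.2.1.getD t.2 0) (t.1.1.2.2.2.2.2.getD r 0)) *
        look t.1.1.2.2.1 (t.1.1.2.2.2.1.eraseIdx t.1.2, t.1.1.2.2.2.2.1.eraseIdx t.2,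
          t.1.1.2.2.2.2.2.eraseIdx r) :=
    PTime.map (l := fun t : (Fa × ℕ) × ℕ => List.range (t.1.1.2.1 + 1))
      (f := fun (t : (Fa × ℕ) × ℕ) (r : ℕ) =>
      sgm (t.1.1.1.1 + 1) (t.1.1.2.1 + t.1.2 + t.2 + r) *
        ipm (t.1.1.1.1 + 1) (ent t.1.1.1.2 t.1.1.2.1 (t.1.1.2.2.2.1.getD t.1.2 0))
          (ent t.1.1.1.2 (t.1.1.2.2.2.2.1.getD t.2 0) (t.1.1.2.2.2.2.2.getD r 0)) *
        look t.1.1.2.2.1 (t.1.1.2.2.2.1.eraseIdx t.1.2, t.1.1.2.2.2.2.1.eraseIdx t.2,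
          t.1.1.2.2.2.2.2.eraseIdx r)) (by fun_prop) ((c1.mul c4).mul c5)
  have m2 : PTime fun t : Fa × ℕ => (List.range (t.1.2.1 + 1)).flatMap fun l =>
      (List.range (t.1.2.1 + 1)).map fun r =>
      sgm (t.1.1.1 + 1) (t.1.2.1 + t.2 + l + r) *
        ipm (t.1.1.1 + 1) (ent t.1.1.2 t.1.2.1 (t.1.2.2.2.1.getD t.2 0))
          (ent t.1.1.2 (t.1.2.2.2.2.1.getD l 0) (t.1.2.2.2.2.2.getD r 0)) *
        look t.1.2.2.1 (t.1.2.2.2.1.eraseIdx t.2, t.1.2.2.2.2.1.eraseIdx l,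
          t.1.2.2.2.2.2.eraseIdx r) :=
    PTime.flatMap (l := fun t : Fa × ℕ => List.range (t.1.2.1 + 1))
      (f := fun (t : Fa × ℕ) (l : ℕ) => (List.range (t.1.2.1 + 1)).map fun r =>
      sgm (t.1.1.1 + 1) (t.1.2.1 + t.2 + l + r) *
        ipm (t.1.1.1 + 1) (ent t.1.1.2 t.1.2.1 (t.1.2.2.2.1.getD t.2 0))
          (ent t.1.1.2 (t.1.2.2.2.2.1.getD l 0) (t.1.2.2.2.2.2.getD r 0)) *
        look t.1.2.2.1 (t.1.2.2.2.1.eraseIdx t.2, t.1.2.2.2.2.1.eraseIdx l,
          t.1.2.2.2.2.2.eraseIdx r)) (by fun_prop) m3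
  have m1 : PTime fun t : Fa => (List.range (t.2.1 + 1)).flatMap fun j =>
      (List.range (t.2.1 + 1)).flatMap fun l => (List.range (t.2.1 + 1)).map fun r =>
      sgm (t.1.1 + 1) (t.2.1 + j + l + r) *
        ipm (t.1.1 + 1) (ent t.1.2 t.2.1 (t.2.2.2.1.getD j 0))
          (ent t.1.2 (t.2.2.2.2.1.getD l 0) (t.2.2.2.2.2.getD r 0)) *
        look t.2.2.1 (t.2.2.2.1.eraseIdx j, t.2.2.2.2.1.eraseIdx l,
          t.2.2.2.2.2.eraseIdx r) :=
    PTime.flatMap (l := fun t : Fa => List.range (t.2.1 + 1))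
      (f := fun (t : Fa) (j : ℕ) => (List.range (t.2.1 + 1)).flatMap fun l =>
      (List.range (t.2.1 + 1)).map fun r =>
      sgm (t.1.1 + 1) (t.2.1 + j + l + r) *
        ipm (t.1.1 + 1) (ent t.1.2 t.2.1 (t.2.2.2.1.getD j 0))
          (ent t.1.2 (t.2.2.2.2.1.getD l 0) (t.2.2.2.2.2.getD r 0)) *
        look t.2.2.1 (t.2.2.2.1.eraseIdx j, t.2.2.2.2.1.eraseIdx l,
          t.2.2.2.2.2.eraseIdx r)) (by fun_prop) m2
  have m0 : PTime fun t : Fa => t.1.1 + 1 := by fun_prop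
  exact m1.sum.mod m0

/-- the input -/
abbrev In : Type := ℕ × RMat × List (List ℕ)

theorem ptime_fstep : PTime fun t : In × ℕ × Tab => fstep (t.1.1 + 1) t.1.2.1 t.1.2.2 t.2 := by
  have h1 : PTime fun t : In × ℕ × Tab => keys t.1.2.2 (t.2.1 + 1) :=
    ptime_keys.comp (g := fun t : In × ℕ × Tab => (t.1.2.2, t.2.1 + 1)) (by fun_prop)
  have h2 : PTime fun t : (In × ℕ × Tab) × Ky =>
      fnew (t.1.1.1 + 1) t.1.1.2.1 t.1.2.1 t.1.2.2 t.2 :=
    ptime_fnew.comp (g := fun t : (In × ℕ × Tab) × Ky =>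
      ((t.1.1.1, t.1.1.2.1), t.1.2.1, t.1.2.2, t.2)) (by fun_prop)
  have h3 : PTime fun t : In × ℕ × Tab => (keys t.1.2.2 (t.2.1 + 1)).map fun x =>
      (x, fnew (t.1.1 + 1) t.1.2.1 t.2.1 t.2.2 x) :=
    PTime.map (f := fun (t : In × ℕ × Tab) (x : Ky) =>
      (x, fnew (t.1.1 + 1) t.1.2.1 t.2.1 t.2.2 x)) h1 (PTime.pair (by fun_prop) h2)
  exact PTime.pair (by fun_prop) h3

theorem length_flatMap_le {α β : Type} (l : List α) (f : α → List β) (B : ℕ)
    (h : ∀ x ∈ l, (f x).length ≤ B) : (l.flatMap f).length ≤ l.length * B := by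
  induction l with
  | nil => simp
  | cons x l ih =>
    rw [List.flatMap_cons, List.length_append, List.length_cons, Nat.succ_mul]
    have h1 := h x List.mem_cons_self
    have h2 := ih fun y hy => h y (List.mem_cons_of_mem _ hy)
    omega

theorem length_keys (S : List (List ℕ)) (k : ℕ) :
    (keys S k).length ≤ S.length * (S.length * S.length) := by
  have h0 : (S.filter fun a => decide (a.length = k)).length ≤ S.length :=
    List.length_filter_le _ _
  unfold keys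
  refine (length_flatMap_le _ _ (S.length * S.length) fun a _ => ?_).trans
    (Nat.mul_le_mul_right _ h0)
  refine (length_flatMap_le _ _ S.length fun b _ => ?_).trans (Nat.mul_le_mul_right _ h0)
  rw [List.length_map]
  exact h0

theorem mem_keys {S : List (List ℕ)} {k : ℕ} {x : Ky} (h : x ∈ keys S k) :
    x.1 ∈ S ∧ x.2.1 ∈ S ∧ x.2.2 ∈ S := by
  unfold keys at h
  rw [List.mem_flatMap] at h
  obtain ⟨a, ha, h⟩ := h
  rw [List.mem_flatMap] at h
  obtain ⟨b, hb, h⟩ := h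
  rw [List.mem_map] at h
  obtain ⟨c, hc, rfl⟩ := h
  exact ⟨(List.mem_filter.1 ha).1, (List.mem_filter.1 hb).1, (List.mem_filter.1 hc).1⟩

/-- the size of the tables -/
theorem inv_iter (q : ℕ) (A : RMat) (S : List (List ℕ)) (i : ℕ) :
    (((fstep (q + 1) A S)^[i] (0, [(([], [], []), 1 % (q + 1))])).1 = i) ∧
    (((fstep (q + 1) A S)^[i] (0, [(([], [], []), 1 % (q + 1))])).2.length ≤
      S.length * (S.length * S.length) + 1) ∧
    ∀ t ∈ ((fstep (q + 1) A S)^[i] (0, [(([], [], []), 1 % (q + 1))])).2,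
      sz t ≤ 3 * sz S + 2 * q + 4 := by
  have hm : ∀ y : ℕ, y % (q + 1) ≤ q := fun y =>
    Nat.le_of_lt_succ (Nat.mod_lt y (Nat.succ_pos q))
  have hS := sz_pos S
  induction i with
  | zero =>
    refine ⟨rfl, ?_, ?_⟩
    · change 1 ≤ _
      omega
    · intro t ht
      rw [Function.iterate_zero, id, List.mem_singleton] at ht
      subst ht
      rw [sz_mk, sz_mk, sz_mk, sz_nil, sz_nat]
      have := hm 1
      omega
  | succ i ih =>
    rw [Function.iterate_succ_apply']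
    set s := (fstep (q + 1) A S)^[i] (0, [(([], [], []), 1 % (q + 1))])
    refine ⟨?_, ?_, ?_⟩
    · change s.1 + 1 = i + 1
      rw [ih.1]
    · change (List.map _ _).length ≤ _
      rw [List.length_map]
      exact (length_keys S _).trans (Nat.le_succ _)
    · intro t ht
      change t ∈ List.map _ _ at ht
      obtain ⟨x, hx, rfl⟩ := List.mem_map.1 ht
      obtain ⟨h1, h2, h3⟩ := mem_keys hx
      have g1 := sz_mem_le h1
      have g2 := sz_mem_le h2
      have g3 := sz_mem_le h3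
      have g4 : fnew (q + 1) A s.1 s.2 x ≤ q := hm _
      obtain ⟨a, b, c⟩ := x
      rw [sz_mk, sz_mk, sz_mk, sz_nat]
      simp only at g1 g2 g3
      omega

end PTFvalAux

open PTFvalAux

/-- Module PTFval. -/
theorem stPTFval : StPTFval := by
  have hit : PTime fun q : In =>
      ((fun s => fstep (q.1 + 1) q.2.1 q.2.2 s)^[q.2.1.length]
        (0, [(([], [], []), 1 % (q.1 + 1))])) := by
    refine PTime.iterate (n := fun q : In => q.2.1.length)
      (s := fun q => (0, [(([], [], []), 1 % (q.1 + 1))]))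
      (f := fun q s => fstep (q.1 + 1) q.2.1 q.2.2 s)
      (B := fun q => 2 * sz q + 1 +
        ((sz q * (sz q * sz q) + 1) * (4 * sz q + 4 + 1) + 1) + 1) (by fun_prop)
      (by fun_prop) ptime_fstep ?_ ?_
    · exact ((((PB.const 2).mul PB.sz).add (PB.const 1)).add
        ((((PB.sz.mul (PB.sz.mul PB.sz)).add (PB.const 1)).mul
          ((((PB.const 4).mul PB.sz).add (PB.const 4)).add (PB.const 1))).add
            (PB.const 1))).add (PB.const 1)
    · rintro ⟨q, A, S⟩ i hi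
      obtain ⟨h1, h2, h3⟩ := inv_iter q A S i
      change sz ((fstep (q + 1) A S)^[i] (0, [(([], [], []), 1 % (q + 1))])) ≤ _
      set s := (fstep (q + 1) A S)^[i] (0, [(([], [], []), 1 % (q + 1))])
      have e : sz s = sz s.1 + sz s.2 + 1 := rfl
      rw [e, h1, sz_nat]
      have hs : sz (q, A, S) = 2 * q + 1 + (sz A + sz S + 1) + 1 := by
        rw [sz_mk, sz_mk, sz_nat]
      have h4 := sz_le_of_forall h3
      have h5 := length_le_sz A
      have h6 := length_le_sz S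
      have h7 : S.length ≤ sz (q, A, S) := by omega
      have h8 : S.length * (S.length * S.length) ≤
          sz (q, A, S) * (sz (q, A, S) * sz (q, A, S)) :=
        Nat.mul_le_mul h7 (Nat.mul_le_mul h7 h7)
      have h9 : s.2.length * (3 * sz S + 2 * q + 4 + 1) ≤
          (sz (q, A, S) * (sz (q, A, S) * sz (q, A, S)) + 1) * (4 * sz (q, A, S) + 4 + 1) :=
        Nat.mul_le_mul (by omega) (by omega)
      have h10 : i ≤ sz (q, A, S) := by
        have : i ≤ A.length := hi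
        omega
      omega
  have h1 : PTime fun q : In => (List.range q.2.1.length, List.range q.2.1.length,
      List.range q.2.1.length) := by fun_prop
  exact ptime_look.comp (g := fun q : In =>
    (((fun s => fstep (q.1 + 1) q.2.1 q.2.2 s)^[q.2.1.length]
        (0, [(([], [], []), 1 % (q.1 + 1))])).2, (List.range q.2.1.length,
        List.range q.2.1.length, List.range q.2.1.length))) (PTime.pair hit.snd' h1)

end Pool.Agent.Lib.MP_64d474_lc.ST2
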