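import Pool.Agent.Lib.MP_64d474_lc.ST2.Stmts

/-!
# The test with the Fischer norm is computable in polynomial time
-/

set_option autoImplicit false

open Pool.Agent.Lib.PT Pool.Agent.Lib.MP_64d474_lc.ST

namespace Pool.Agent.Lib.MP_64d474_lc.ST2

namespace PTGoodFAux

theorem ptime_subs : PTime fun q : ℕ × List (List ℕ) => subs q.1 q.2 := by
  unfold subs
  have h1 : PTime fun q : (ℕ × List (List ℕ)) × List ℕ =>
      (List.range q.1.1).filter fun i => decide (q.2.getD i 0 = 1) :=
    PTime.filter (f := fun (q : (ℕ × List (List ℕ)) × List ℕ) i => decide (q.2.getD i 0 = 1))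
      (by fun_prop) (by fun_prop)
  exact PTime.map (f := fun (q : ℕ × List (List ℕ)) (d : List ℕ) =>
    (List.range q.1).filter fun i => decide (d.getD i 0 = 1)) (by fun_prop) h1

end PTGoodFAux

open PTGoodFAux in
theorem stPTGoodF (h1 : StPTFval) (h2 : StPTPrime) : StPTGoodF := by
  have h1' : PTime fun q : ℕ × RMat × List (List ℕ) => fval (q.1 + 1) q.2.1 q.2.2 := h1
  have h2' : PTime fun p : ℕ => isPrime p := h2
  have e1 : PTime fun q : (RMat × ℕ × List (List ℕ)) × ℕ => subs q.1.1.length q.1.2.2 :=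
    ptime_subs.comp (g := fun q : (RMat × ℕ × List (List ℕ)) × ℕ =>
      (q.1.1.length, q.1.2.2)) (by fun_prop)
  have e2 : PTime fun q : (RMat × ℕ × List (List ℕ)) × ℕ =>
      fval (q.2 + 1) q.1.1 (subs q.1.1.length q.1.2.2) :=
    h1'.comp (g := fun q : (RMat × ℕ × List (List ℕ)) × ℕ =>
      (q.2, q.1.1, subs q.1.1.length q.1.2.2)) (by fun_prop)
  have e3 : PTime fun q : (RMat × ℕ × List (List ℕ)) × ℕ => isPrime (q.2 + 1) :=
    h2'.comp (g := fun q : (RMat × ℕ × List (List ℕ)) × ℕ => q.2 + 1) (by fun_prop)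
  have e4 : PTime fun q : (RMat × ℕ × List (List ℕ)) × ℕ =>
      !decide (fval (q.2 + 1) q.1.1 (subs q.1.1.length q.1.2.2) = 0) := by fun_prop
  have e5 : PTime fun q : RMat × ℕ × List (List ℕ) => List.range q.2.1 := by fun_prop
  exact PTime.any (f := fun (q : RMat × ℕ × List (List ℕ)) (p : ℕ) =>
    isPrime (p + 1) && !decide (fval (p + 1) q.1 (subs q.1.length q.2.2) = 0)) e5 (e3.and e4)

end Pool.Agent.Lib.MP_64d474_lc.ST2
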