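import Pool.Agent.Lib.MP_64d474_lc.ST2.Stmts

/-!
# The test of two lists of digits is computable in polynomial time
-/

set_option autoImplicit false

open Pool.Agent.Lib.PT Pool.Agent.Lib.MP_64d474_lc.ST

namespace Pool.Agent.Lib.MP_64d474_lc.ST2

theorem stPTGoodH (h1 : StPTMatm) (h2 : StPTElim) (h3 : StPTPrime) : StPTGoodH := by
  have h1' : PTime fun q : ℕ × List ℕ × ℕ × List ℕ × List ℕ × RMat =>
      matm (q.1 + 1) q.2.1 q.2.2.1 q.2.2.2.1 q.2.2.2.2.1 q.2.2.2.2.2 := h1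
  have h2' : PTime fun q : ℕ × List (List ℕ) => elimOK (q.1 + 1) q.2 := h2
  have h3' : PTime fun p : ℕ => isPrime p := h3
  have e1 : PTime fun q : (RMat × ℕ × List ℕ × ℕ × List ℕ × List ℕ) × ℕ =>
      matm (q.2 + 1) q.1.2.2.1 q.1.2.2.2.1 q.1.2.2.2.2.1 q.1.2.2.2.2.2 q.1.1 :=
    h1'.comp (g := fun q : (RMat × ℕ × List ℕ × ℕ × List ℕ × List ℕ) × ℕ =>
      (q.2, q.1.2.2.1, q.1.2.2.2.1, q.1.2.2.2.2.1, q.1.2.2.2.2.2, q.1.1)) (by fun_prop)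
  have e2 : PTime fun q : (RMat × ℕ × List ℕ × ℕ × List ℕ × List ℕ) × ℕ =>
      elimOK (q.2 + 1) (matm (q.2 + 1) q.1.2.2.1 q.1.2.2.2.1 q.1.2.2.2.2.1 q.1.2.2.2.2.2 q.1.1) :=
    h2'.comp (g := fun q : (RMat × ℕ × List ℕ × ℕ × List ℕ × List ℕ) × ℕ =>
      (q.2, matm (q.2 + 1) q.1.2.2.1 q.1.2.2.2.1 q.1.2.2.2.2.1 q.1.2.2.2.2.2 q.1.1))
        (by fun_prop)
  have e3 : PTime fun q : (RMat × ℕ × List ℕ × ℕ × List ℕ × List ℕ) × ℕ => isPrime (q.2 + 1) :=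
    h3'.comp (g := fun q : (RMat × ℕ × List ℕ × ℕ × List ℕ × List ℕ) × ℕ => q.2 + 1)
      (by fun_prop)
  have e5 : PTime fun q : RMat × ℕ × List ℕ × ℕ × List ℕ × List ℕ => List.range q.2.1 := by
    fun_prop
  exact PTime.any (f := fun (q : RMat × ℕ × List ℕ × ℕ × List ℕ × List ℕ) (p : ℕ) =>
    isPrime (p + 1) && elimOK (p + 1)
      (matm (p + 1) q.2.2.1 q.2.2.2.1 q.2.2.2.2.1 q.2.2.2.2.2 q.1)) e5 (e3.and e2)

end Pool.Agent.Lib.MP_64d474_lc.ST2
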