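import Pool.Agent.Lib.MP_64d474_lc.ST2.Stmts
import Pool.Agent.Lib.MP_64d474_lc.ST.PTX

/-!
# The values of the variables modulo a number are computable in polynomial time
-/

set_option autoImplicit false

open Pool.Agent.Lib.PT Pool.Agent.Lib.MP_64d474_lc.ST

namespace Pool.Agent.Lib.MP_64d474_lc.ST2

open Pool.Agent.Lib.MP_64d474_lc.ST.PTXAux in
theorem stPTHit (hd : StDiv) : StPTHit := by
  have hc : PTime fun q : ℕ × List ℕ × ℕ × List ℕ × ℕ => q.2.1.getD q.2.2.2.2 0 :=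
    PTime.getD (by fun_prop) (by fun_prop) (by fun_prop)
  have ho : PTime fun q : ℕ × List ℕ × ℕ × List ℕ × ℕ => (q.2.1.take q.2.2.2.2).sum := by
    fun_prop
  have hR : PTime fun q : ℕ × List ℕ × ℕ × List ℕ × ℕ => q.2.2.1 := by
    fun_prop
  have hod : PTime fun q : ℕ × List ℕ × ℕ × List ℕ × ℕ =>
      (q.2.1.take q.2.2.2.2).sum / q.2.2.1 := hd _ _ _ ho hR
  have hom : PTime fun q : ℕ × List ℕ × ℕ × List ℕ × ℕ =>
      (q.2.1.take q.2.2.2.2).sum % q.2.2.1 := ho.mod hR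
  have hs : PTime fun q : ℕ × List ℕ × ℕ × List ℕ × ℕ => srcs q.2.2.1 := by
    unfold srcs
    fun_prop
  have hb : PTime fun q : ℕ × List ℕ × ℕ × List ℕ × ℕ => blks q.2.1.sum q.2.2.1 := by
    have h : PTime fun q : ℕ × List ℕ × ℕ × List ℕ × ℕ =>
        q.2.1.sum / q.2.2.1 := hd _ _ _ (by fun_prop) hR
    unfold blks
    fun_prop
  -- the doubled digit
  have h1 : PTime fun q : ℕ × List ℕ × ℕ × List ℕ × ℕ =>
      q.2.2.2.1.getD (srcs q.2.2.1 + (q.2.1.take q.2.2.2.2).sum / q.2.2.1) 0 :=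
    PTime.getD (by fun_prop) (hs.add hod) (by fun_prop)
  have h2 : PTime fun q : ℕ × List ℕ × ℕ × List ℕ × ℕ =>
      q.2.2.2.1.getD (srcs q.2.2.1 + blks q.2.1.sum q.2.2.1 +
        (q.2.1.take q.2.2.2.2).sum / q.2.2.1) 0 % (q.1 + 1) :=
    (PTime.getD (by fun_prop) ((hs.add hb).add hod) (by fun_prop)).mod (by fun_prop)
  have h4 : PTime fun q : ℕ × List ℕ × ℕ × List ℕ × ℕ =>
      (q.2.2.2.1.take (srcs q.2.2.1)).reverse := by fun_prop
  have h5 : PTime fun q : ℕ × List ℕ × ℕ × List ℕ × ℕ =>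
      (q.2.2.2.1.take (srcs q.2.2.1)).reverse.foldl (stp q.1
        (dbl (q.1 + 1) ((q.2.1.take q.2.2.2.2).sum % q.2.2.1)
          (q.2.2.2.1.getD (srcs q.2.2.1 + (q.2.1.take q.2.2.2.2).sum / q.2.2.1) 0))) 0 := by
    have h3 : PTime fun q : ℕ × List ℕ × ℕ × List ℕ × ℕ =>
        dbl (q.1 + 1) ((q.2.1.take q.2.2.2.2).sum % q.2.2.1)
          (q.2.2.2.1.getD (srcs q.2.2.1 + (q.2.1.take q.2.2.2.2).sum / q.2.2.1) 0) :=
      ptime_dbl.comp (g := fun q : ℕ × List ℕ × ℕ × List ℕ × ℕ =>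
        (q.1, (q.2.1.take q.2.2.2.2).sum % q.2.2.1,
          q.2.2.2.1.getD (srcs q.2.2.1 + (q.2.1.take q.2.2.2.2).sum / q.2.2.1) 0))
        (by fun_prop)
    exact ptime_fold.comp (g := fun q : ℕ × List ℕ × ℕ × List ℕ × ℕ =>
      (q.1, dbl (q.1 + 1) ((q.2.1.take q.2.2.2.2).sum % q.2.2.1)
          (q.2.2.2.1.getD (srcs q.2.2.1 + (q.2.1.take q.2.2.2.2).sum / q.2.2.1) 0),
        (q.2.2.2.1.take (srcs q.2.2.1)).reverse)) (by fun_prop)
  refine (PTime.ite (p := fun q : ℕ × List ℕ × ℕ × List ℕ × ℕ =>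
    q.2.1.getD q.2.2.2.2 0 ≤ q.2.2.1) (hc.le hR) h5 h2).of_eq fun q => ?_
  unfold hitm
  split_ifs
  · rw [List.foldl_reverse]
    rfl
  · rfl

end Pool.Agent.Lib.MP_64d474_lc.ST2
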