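import Pool.Agent.Lib.MP_64d474_lc.ST.PTMat
import Pool.Agent.Lib.MP_64d474_lc.ST2.Stmts

/-!
# The matrix modulo a number is computable in polynomial time (second algorithm)
-/

set_option autoImplicit false

open Pool.Agent.Lib.PT Pool.Agent.Lib.MP_64d474_lc.ST

namespace Pool.Agent.Lib.MP_64d474_lc.ST2

namespace PTMatmAux

/-- the parameters: the modulus, the number of rows, the number of variables, the ranks, the side,
the two lists of digits -/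
abbrev P0 : Type := ℕ × ℕ × ℕ × List ℕ × ℕ × List ℕ × List ℕ

theorem ptime_xm (h1 : StPTHit) (h2 : StPTT) : PTime fun q : P0 × ℕ =>
    xm (q.1.1 + 1) q.1.2.1 q.1.2.2.1 q.1.2.2.2.1 q.1.2.2.2.2.1 q.1.2.2.2.2.2.1
      q.1.2.2.2.2.2.2 q.2 := by
  have h1' : PTime fun q : ℕ × List ℕ × ℕ × List ℕ × ℕ =>
    hitm (q.1 + 1) q.2.1 q.2.2.1 q.2.2.2.1 q.2.2.2.2 := h1
  have h2' : PTime fun q : ℕ × ℕ × ℕ × List ℕ × ℕ =>
    tm (q.1 + 1) q.2.1 q.2.2.1 q.2.2.2.1 q.2.2.2.2 := h2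
  have a1 : PTime fun q : P0 × ℕ =>
      hitm (q.1.1 + 1) q.1.2.2.2.1 q.1.2.2.2.2.1 q.1.2.2.2.2.2.1 q.2 :=
    h1'.comp (g := fun q : P0 × ℕ =>
      (q.1.1, q.1.2.2.2.1, q.1.2.2.2.2.1, q.1.2.2.2.2.2.1, q.2)) (by fun_prop)
  have a2 : PTime fun q : P0 × ℕ =>
      tm (q.1.1 + 1) q.1.2.1 q.1.2.2.1 q.1.2.2.2.2.2.2 q.2 :=
    h2'.comp (g := fun q : P0 × ℕ =>
      (q.1.1, q.1.2.1, q.1.2.2.1, q.1.2.2.2.2.2.2, q.2)) (by fun_prop)
  have a3 : PTime fun q : P0 × ℕ => decide (2 ≤ q.1.2.2.2.1.getD q.2 0) := by fun_prop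
  refine (PTime.cond a3 a1 a2).of_eq fun q => ?_
  rw [xm]
  simp

/-- the parameters of an entry: the list of the variables instead of their number -/
abbrev P1 : Type := ℕ × ℕ × List (List Bool) × List ℕ × ℕ × List ℕ × List ℕ

theorem ptime_entm (h1 : StPTHit) (h2 : StPTT) : PTime fun t : P1 × List RPair =>
    entm (t.1.1 + 1) t.1.2.1 t.1.2.2.1 t.1.2.2.2.1 t.1.2.2.2.2.1 t.1.2.2.2.2.2.1
      t.1.2.2.2.2.2.2 t.2 := by
  have b1 : PTime fun t : (P1 × List RPair) × RPair => coefmod (t.1.1.1 + 1) t.2.1 :=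
    PTMatAux.ptime_coefmod.comp (g := fun t : (P1 × List RPair) × RPair => (t.1.1.1, t.2.1))
      (by fun_prop)
  have b0 : PTime fun t : (P1 × List RPair) × RPair => t.1.1.2.2.1.idxOf t.2.2 :=
    PTime.idxOf (by fun_prop) (by fun_prop)
  have b2 : PTime fun t : (P1 × List RPair) × RPair =>
      xm (t.1.1.1 + 1) t.1.1.2.1 t.1.1.2.2.1.length t.1.1.2.2.2.1 t.1.1.2.2.2.2.1
        t.1.1.2.2.2.2.2.1 t.1.1.2.2.2.2.2.2 (t.1.1.2.2.1.idxOf t.2.2) :=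
    (ptime_xm h1 h2).comp (g := fun t : (P1 × List RPair) × RPair =>
      ((t.1.1.1, t.1.1.2.1, t.1.1.2.2.1.length, t.1.1.2.2.2.1, t.1.1.2.2.2.2.1,
        t.1.1.2.2.2.2.2.1, t.1.1.2.2.2.2.2.2), t.1.1.2.2.1.idxOf t.2.2)) (by fun_prop)
  have b3 : PTime fun t : P1 × List RPair => t.2.map fun q : RPair =>
      coefmod (t.1.1 + 1) q.1 *
        xm (t.1.1 + 1) t.1.2.1 t.1.2.2.1.length t.1.2.2.2.1 t.1.2.2.2.2.1
          t.1.2.2.2.2.2.1 t.1.2.2.2.2.2.2 (t.1.2.2.1.idxOf q.2) :=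
    PTime.map (f := fun (t : P1 × List RPair) (q : RPair) =>
      coefmod (t.1.1 + 1) q.1 *
        xm (t.1.1 + 1) t.1.2.1 t.1.2.2.1.length t.1.2.2.2.1 t.1.2.2.2.2.1
          t.1.2.2.2.2.2.1 t.1.2.2.2.2.2.2 (t.1.2.2.1.idxOf q.2))
      (by fun_prop) (b1.mul b2)
  have b4 : PTime fun t : P1 × List RPair => t.1.1 + 1 := by fun_prop
  exact b3.sum.mod b4

/-- the arguments of `matm` -/
abbrev Q0 : Type := ℕ × List ℕ × ℕ × List ℕ × List ℕ × RMat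

end PTMatmAux

open PTMatmAux in
theorem stPTMatm (h1 : StPTHit) (h2 : StPTT) : StPTMatm := by
  have hv : PTime fun q : (Q0 × List (List RPair)) × List RPair => vars q.1.1.2.2.2.2.2 :=
    PTMatAux.ptime_vars.comp (g := fun q : (Q0 × List (List RPair)) × List RPair =>
      q.1.1.2.2.2.2.2) (by fun_prop)
  have c1 : PTime fun q : (Q0 × List (List RPair)) × List RPair =>
      entm (q.1.1.1 + 1) q.1.1.2.2.2.2.2.length (vars q.1.1.2.2.2.2.2) q.1.1.2.1 q.1.1.2.2.1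
        q.1.1.2.2.2.1 q.1.1.2.2.2.2.1 q.2 :=
    (ptime_entm h1 h2).comp
      (g := fun q : (Q0 × List (List RPair)) × List RPair =>
        ((q.1.1.1, q.1.1.2.2.2.2.2.length, vars q.1.1.2.2.2.2.2, q.1.1.2.1, q.1.1.2.2.1,
          q.1.1.2.2.2.1, q.1.1.2.2.2.2.1), q.2)) (by fun_prop)
  have c2 : PTime fun q : Q0 × List (List RPair) =>
      q.2.map (entm (q.1.1 + 1) q.1.2.2.2.2.2.length (vars q.1.2.2.2.2.2) q.1.2.1 q.1.2.2.1
        q.1.2.2.2.1 q.1.2.2.2.2.1) :=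
    PTime.map (f := fun (q : Q0 × List (List RPair)) (e : List RPair) =>
      entm (q.1.1 + 1) q.1.2.2.2.2.2.length (vars q.1.2.2.2.2.2) q.1.2.1 q.1.2.2.1
        q.1.2.2.2.1 q.1.2.2.2.2.1 e) (by fun_prop) c1
  exact PTime.map (f := fun (q : Q0) (r : List (List RPair)) =>
    r.map (entm (q.1 + 1) q.2.2.2.2.2.length (vars q.2.2.2.2.2) q.2.1 q.2.2.1
      q.2.2.2.1 q.2.2.2.2.1)) (by fun_prop) c2

end Pool.Agent.Lib.MP_64d474_lc.ST2
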