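import Pool.Agent.Lib.MP_64d474_lc.ST2.Stmts
import Pool.Agent.Lib.MP_64d474_lc.ST.PTMat
import Pool.Agent.Lib.MP_64d474_lc.ST.PTPrime
import Pool.Agent.Lib.MP_64d474_lc.ST.PTGood

/-!
# The rank of the coefficient matrix is computable in polynomial time
-/

set_option autoImplicit false

open Pool.Agent.Lib.PT Pool.Agent.Lib.MP_64d474_lc.ST

namespace Pool.Agent.Lib.MP_64d474_lc.ST2

namespace PTMultAux

theorem foldl_max_le (l : List ℕ) (a : ℕ) : l.foldl max a ≤ a + l.sum := by
  induction l generalizing a with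
  | nil => exact le_rfl
  | cons x l ih =>
    rw [List.foldl_cons, List.sum_cons]
    have h1 := ih (max a x)
    have h2 : max a x ≤ a + x := max_le (Nat.le_add_right a x) (Nat.le_add_left x a)
    omega

theorem ptime_maxl : PTime fun l : List ℕ => l.foldl max 0 := by
  have h1 : PTime fun l : List ℕ => l.sum := PTime.sum PTime.id
  refine PTime.foldl (l := fun l : List ℕ => l) (s := fun _ => 0)
    (f := fun _ (a : ℕ) (b : ℕ) => max a b) PTime.id (PTime.const 0) (by fun_prop)
    (B := fun l => sz l.sum) h1.sz_le ?_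
  intro l l₁ l₂ hl
  change sz (l₁.foldl max 0) ≤ sz l.sum
  rw [sz_nat, sz_nat]
  have h2 := foldl_max_le l₁ 0
  have h3 : l₁.sum ≤ l.sum := by
    rw [hl, List.sum_append]
    omega
  omega

/-- an entry of the coefficient matrix -/
theorem ptime_cent : PTime fun q : (ℕ × List Bool) × List RPair =>
    ((q.2.filter fun x => decide (x.2 = q.1.2)).map fun x => coefmod (q.1.1 + 1) x.1).sum %
      (q.1.1 + 1) := by
  have h1 : PTime fun q : (ℕ × List Bool) × List RPair =>
      q.2.filter fun x => decide (x.2 = q.1.2) :=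
    PTime.filter (l := fun q : (ℕ × List Bool) × List RPair => q.2)
      (f := fun q x => decide (x.2 = q.1.2)) (by fun_prop) (by fun_prop)
  have h2 : PTime fun t : ((ℕ × List Bool) × List RPair) × RPair =>
      coefmod (t.1.1.1 + 1) t.2.1 :=
    PTMatAux.ptime_coefmod.comp (g := fun t : ((ℕ × List Bool) × List RPair) × RPair =>
      (t.1.1.1, t.2.1)) (by fun_prop)
  have h3 : PTime fun q : (ℕ × List Bool) × List RPair =>
      (q.2.filter fun x => decide (x.2 = q.1.2)).map fun x => coefmod (q.1.1 + 1) x.1 :=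
    PTime.map (f := fun (q : (ℕ × List Bool) × List RPair) (x : RPair) =>
      coefmod (q.1.1 + 1) x.1) h1 h2
  have h4 : PTime fun q : (ℕ × List Bool) × List RPair => q.1.1 + 1 := by fun_prop
  exact h3.sum.mod h4

theorem ptime_cmat : PTime fun q : (ℕ × List Bool) × RMat => cmat (q.1.1 + 1) q.1.2 q.2 := by
  have h1 : PTime fun t : (((ℕ × List Bool) × RMat) × List (List RPair)) × List RPair =>
      ((t.2.filter fun x => decide (x.2 = t.1.1.1.2)).map fun x =>
        coefmod (t.1.1.1.1 + 1) x.1).sum % (t.1.1.1.1 + 1) :=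
    ptime_cent.comp
      (g := fun t : (((ℕ × List Bool) × RMat) × List (List RPair)) × List RPair =>
        (t.1.1.1, t.2)) (by fun_prop)
  have h2 : PTime fun t : ((ℕ × List Bool) × RMat) × List (List RPair) =>
      t.2.map fun e : List RPair => ((e.filter fun x => decide (x.2 = t.1.1.2)).map fun x =>
        coefmod (t.1.1.1 + 1) x.1).sum % (t.1.1.1 + 1) :=
    PTime.map (f := fun (t : ((ℕ × List Bool) × RMat) × List (List RPair)) (e : List RPair) =>
      ((e.filter fun x => decide (x.2 = t.1.1.2)).map fun x =>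
        coefmod (t.1.1.1 + 1) x.1).sum % (t.1.1.1 + 1)) (by fun_prop) h1
  exact PTime.map (l := fun q : (ℕ × List Bool) × RMat => q.2)
    (f := fun (q : (ℕ × List Bool) × RMat) (r : List (List RPair)) =>
      r.map fun e : List RPair => ((e.filter fun x => decide (x.2 = q.1.2)).map fun x =>
        coefmod (q.1.1 + 1) x.1).sum % (q.1.1 + 1)) (by fun_prop) h2

end PTMultAux

open PTMultAux PTGoodAux in
/-- Module PTMult. -/
theorem stPTMult (h1 : StPTRk) : StPTMult := by
  have h1' : PTime fun q : ℕ × ℕ × List (List ℕ) => rkmod (q.1 + 1) q.2.1 q.2.2 := h1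
  have h2' : PTime fun p : ℕ => isPrime p := stPTPrime
  have e1 : PTime fun q : (RMat × ℕ × List Bool) × ℕ => isPrime (q.2 + 1) :=
    h2'.comp (g := fun q : (RMat × ℕ × List Bool) × ℕ => q.2 + 1) (by fun_prop)
  have e2 : PTime fun q : (RMat × ℕ × List Bool) × ℕ => cmat (q.2 + 1) q.1.2.2 q.1.1 :=
    ptime_cmat.comp (g := fun q : (RMat × ℕ × List Bool) × ℕ => ((q.2, q.1.2.2), q.1.1))
      (by fun_prop)
  have e3 : PTime fun q : (RMat × ℕ × List Bool) × ℕ => q.1.1.length := by fun_prop
  have e4 : PTime fun q : (RMat × ℕ × List Bool) × ℕ =>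
      rkmod (q.2 + 1) q.1.1.length (cmat (q.2 + 1) q.1.2.2 q.1.1) :=
    h1'.comp (g := fun q : (RMat × ℕ × List Bool) × ℕ =>
      (q.2, q.1.1.length, cmat (q.2 + 1) q.1.2.2 q.1.1))
      (PTime.pair (by fun_prop) (PTime.pair e3 e2))
  have e5 : PTime fun q : (RMat × ℕ × List Bool) × ℕ => bif isPrime (q.2 + 1) then
      rkmod (q.2 + 1) q.1.1.length (cmat (q.2 + 1) q.1.2.2 q.1.1) else 0 :=
    PTime.cond e1 e4 (PTime.const 0)
  have e6 : PTime fun q : RMat × ℕ × List Bool => pbound q.2.1 :=
    ptime_pbound.comp (g := fun q : RMat × ℕ × List Bool => q.2.1) (by fun_prop)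
  have e7 : PTime fun q : RMat × ℕ × List Bool => List.range (pbound q.2.1) := by fun_prop
  have e8 : PTime fun q : RMat × ℕ × List Bool => (List.range (pbound q.2.1)).map fun p =>
      bif isPrime (p + 1) then rkmod (p + 1) q.1.length (cmat (p + 1) q.2.2 q.1) else 0 :=
    PTime.map (f := fun (q : RMat × ℕ × List Bool) (p : ℕ) =>
      bif isPrime (p + 1) then rkmod (p + 1) q.1.length (cmat (p + 1) q.2.2 q.1) else 0) e7 e5
  exact ptime_maxl.comp e8

end Pool.Agent.Lib.MP_64d474_lc.ST2
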