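import Pool.Agent.Lib.MP_64d474_lc.ST2.Stmts

/-!
# The parameters of the second machine are computable in polynomial time
-/

set_option autoImplicit false

open Pool.Agent.Lib.PT Pool.Agent.Lib.MP_64d474_lc.ST
open Pool.Agent.Lib.MP_64d474_lc.SubExp (bound levels)

namespace Pool.Agent.Lib.MP_64d474_lc.ST2

namespace PTParAux

theorem ptime_cntL (x : Letter) : PTime fun w : List Letter => cnt w x := by
  unfold cnt
  have h : PTime fun w : List Letter => w.filter fun u => decide (u = x) :=
    PTime.filter (l := fun w : List Letter => w) (f := fun _ u => decide (u = x))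
      (by fun_prop) (by fun_prop)
  fun_prop

theorem ptime_pow5 {α : Type} [Enc α] {f : α → ℕ} (hf : PTime f) : PTime fun a => f a ^ 5 := by
  have h : PTime fun a => f a * f a * (f a * f a) * f a := by fun_prop
  exact h.of_eq fun a => by ring

theorem ptime_bound {α : Type} [Enc α] {f g : α → ℕ} (hf : PTime f) (hg : PTime g) :
    PTime fun a => bound (f a) (g a) := by
  have h : PTime fun a => 32 * (f a + g a + 1) ^ 5 :=
    (PTime.const 32).mul (ptime_pow5 ((hf.add hg).add (PTime.const 1)))
  exact h

theorem ptime_levels {α : Type} [Enc α] {f : α → ℕ} (hf : PTime f) :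
    PTime fun a => levels (f a) := by
  have h : PTime fun a => Nat.log 2 (f a) + 2 := by fun_prop
  exact h

end PTParAux

open PTParAux in
theorem stPTPar (h1 : StPTRl) (h2 : StPTWell) (h3 : StPTParse) (h4 : StPTSide) (h5 : StDiv) :
    StPTPar := by
  have hp : PTime fun w : List Letter => parse w := h3
  have hw : PTime fun w : List Letter => wellformed w := h2
  have hl : PTime fun w : List Letter => w.length := by fun_prop
  have hrl : PTime fun w : List Letter => rl (parse w) w.length :=
    h1.comp (g := fun w : List Letter => (parse w, w.length)) (hp.pair hl)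
  have hrw : PTime fun w : List Letter => rw' w := PTime.cond hw hrl (PTime.const _)
  have hsum : PTime fun w : List Letter => (rw' w).sum := hrw.sum
  have hrs : PTime fun w : List Letter => rs w :=
    PTime.comp (f := fun s : ℕ => sideC s) h4 hsum
  have hnr : PTime fun w : List Letter => nr w := ptime_cntL Letter.row
  have hte : PTime fun w : List Letter => terms w := ptime_cntL Letter.pair
  have hcost : PTime fun w : List Letter => cost w := by
    unfold cost
    fun_prop
  have hu : PTime fun w : List Letter => useF w := by
    unfold useF
    fun_prop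
  have hdiv : PTime fun w : List Letter => (rw' w).sum / rs w := h5 _ _ _ hsum hrs
  have hdigs : PTime fun w : List Letter => digs (rw' w).sum (rs w) := by
    unfold digs srcs blks
    fun_prop
  have hdmax : PTime fun w : List Letter => dmax (rw' w).sum (rs w) := by
    unfold dmax srcs
    fun_prop
  have hlev : PTime fun w : List Letter => 2 * levels (nr w) + 2 :=
    ((PTime.const 2).mul (ptime_levels hnr)).add (PTime.const 2)
  have hbd : PTime fun w : List Letter => nr w * bound (nr w) (terms w) :=
    hnr.mul (ptime_bound hnr hte)
  exact ⟨hrw, hrs, hu, PTime.cond hu (PTime.const 1) hdmax,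
    PTime.cond hu (PTime.const 0) hbd, PTime.cond hu hnr hdigs,
    PTime.cond hu (PTime.const 0) hlev⟩

end Pool.Agent.Lib.MP_64d474_lc.ST2
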