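import Pool.Agent.Lib.MP_64d474_lc.ST2.Stmts

/-!
# Powers modulo a number are computable in polynomial time
-/

set_option autoImplicit false

open Pool.Agent.Lib.PT Pool.Agent.Lib.MP_64d474_lc.ST

namespace Pool.Agent.Lib.MP_64d474_lc.ST2

namespace PTPowAux

theorem pwm_le (p x k : ℕ) : pwm (p + 1) x k ≤ p := by
  unfold pwm
  cases k with
  | zero => exact Nat.le_of_lt_succ (Nat.mod_lt _ (Nat.succ_pos p))
  | succ k =>
    rw [Function.iterate_succ_apply']
    exact Nat.le_of_lt_succ (Nat.mod_lt _ (Nat.succ_pos p))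

end PTPowAux

open PTPowAux in
theorem stPTPow : StPTPow := by
  refine PTime.iterate (n := fun q : ℕ × ℕ × ℕ => q.2.2) (s := fun q => 1 % (q.1 + 1))
    (f := fun q a => a * q.2.1 % (q.1 + 1)) (by fun_prop) (by fun_prop) (by fun_prop)
    (B := fun q => sz q) PB.sz ?_
  intro q i _
  have h : (fun a => a * q.2.1 % (q.1 + 1))^[i] (1 % (q.1 + 1)) ≤ q.1 := pwm_le q.1 q.2.1 i
  rw [sz_nat, sz_mk, sz_nat]
  omega

end Pool.Agent.Lib.MP_64d474_lc.ST2
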