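import Pool.Agent.Lib.MP_64d474_lc.ST2.Stmts
import Pool.Agent.Lib.MP_64d474_lc.ST.PTElim

/-!
# The rank modulo a prime is computable in polynomial time
-/

set_option autoImplicit false

open Pool.Agent.Lib.PT Pool.Agent.Lib.MP_64d474_lc.ST

namespace Pool.Agent.Lib.MP_64d474_lc.ST2

namespace PTRkM

open PTElimM

/-- the state of the elimination with the modulus -/
abbrev St : Type := ℕ × ℕ × List (List ℕ)

theorem ptime_fil : PTime fun t : St => t.2.2.filter (headNZ (t.1 + 1)) :=
  PTime.filter (l := fun t : St => t.2.2) (f := fun t r => headNZ (t.1 + 1) r)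
    (by fun_prop) (ptime_head (f := fun p : St × List ℕ => p.1.1) (g := fun p => p.2)
      (by fun_prop) (by fun_prop))

theorem ptime_filN : PTime fun t : St => t.2.2.filter fun r => !headNZ (t.1 + 1) r :=
  PTime.filter (l := fun t : St => t.2.2) (f := fun t r => !headNZ (t.1 + 1) r)
    (by fun_prop) (ptime_head (f := fun p : St × List ℕ => p.1.1) (g := fun p => p.2)
      (by fun_prop) (by fun_prop)).not

theorem ptime_rstep (hz : StZip) : PTime fun t : St => rstep (t.1 + 1) t.2 := by
  have h1 : PTime fun t : St => (t.2.2.filter (headNZ (t.1 + 1))).isEmpty := ptime_fil.isEmpty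
  have h2 : PTime fun t : St => (t.2.2.filter (headNZ (t.1 + 1))).headD [] :=
    ptime_fil.headD (PTime.const [])
  have h3 : PTime fun t : St => (t.2.2.filter (headNZ (t.1 + 1))).tail ++
      t.2.2.filter fun r => !headNZ (t.1 + 1) r := ptime_fil.tail.append ptime_filN
  have h4 : PTime fun t : St => ((t.2.2.filter (headNZ (t.1 + 1))).tail ++
      t.2.2.filter fun r => !headNZ (t.1 + 1) r).map
      (comb (t.1 + 1) ((t.2.2.filter (headNZ (t.1 + 1))).headD [])) := by
    refine PTime.map (f := fun (t : St) r => comb (t.1 + 1)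
      ((t.2.2.filter (headNZ (t.1 + 1))).headD []) r) h3 ?_
    have h5 : PTime fun p : St × List ℕ =>
        (p.1.2.2.filter (headNZ (p.1.1 + 1))).headD [] :=
      h2.comp (g := fun p : St × List ℕ => p.1) (by fun_prop)
    exact (ptime_comb hz).comp (g := fun p : St × List ℕ =>
      (p.1.1, (p.1.2.2.filter (headNZ (p.1.1 + 1))).headD [], p.2))
      (PTime.pair (by fun_prop) (PTime.pair h5 (by fun_prop)))
  have h6 : PTime fun t : St => t.2.2.map List.tail :=
    PTime.map (l := fun t : St => t.2.2) (f := fun (_ : St) r => List.tail r) (by fun_prop)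
      (by fun_prop)
  have h5 : PTime fun t : St => bif (t.2.2.filter (headNZ (t.1 + 1))).isEmpty then
      (t.2.1, t.2.2.map List.tail) else (t.2.1 + 1, ((t.2.2.filter (headNZ (t.1 + 1))).tail ++
      t.2.2.filter fun r => !headNZ (t.1 + 1) r).map
      (comb (t.1 + 1) ((t.2.2.filter (headNZ (t.1 + 1))).headD []))) :=
    PTime.cond h1 (PTime.pair (by fun_prop) h6)
      (PTime.pair (by fun_prop) h4)
  refine h5.of_eq fun t => ?_
  unfold rstep
  cases (t.2.2.filter (headNZ (t.1 + 1))).isEmpty <;> rfl

theorem sz_tail_le (r : List ℕ) : sz r.tail ≤ sz r := by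
  cases r with
  | nil => exact le_rfl
  | cons x r =>
    rw [List.tail_cons, sz_cons]
    omega

theorem inv_step {q S B : ℕ} (hB : S * (2 * q + 2) + 1 ≤ B) {s : ℕ × List (List ℕ)}
    (h : Inv S B s.2) : Inv S B (rstep (q + 1) s).2 := by
  unfold rstep
  split_ifs with h0
  · refine ⟨?_, ?_⟩
    · change (List.map _ _).length ≤ S
      rw [List.length_map]
      exact h.1
    · intro r' hr'
      change r' ∈ List.map _ _ at hr'
      obtain ⟨r, hr, rfl⟩ := List.mem_map.1 hr'
      have h1 := h.2 r hr
      refine ⟨?_, (sz_tail_le r).trans h1.2⟩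
      rw [List.length_tail]
      omega
  · refine ⟨?_, ?_⟩
    · change (List.map _ _).length ≤ S
      rw [List.length_map, List.length_append, List.length_tail]
      have h1 := List.length_eq_length_filter_add (l := s.2) (headNZ (q + 1))
      have h2 := h.1
      omega
    · intro r' hr'
      change r' ∈ List.map _ _ at hr'
      obtain ⟨r, hr, rfl⟩ := List.mem_map.1 hr'
      have hrs : r ∈ s.2 := by
        rcases List.mem_append.1 hr with h1 | h1
        · exact (List.mem_filter.1 (List.mem_of_mem_tail h1)).1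
        · exact (List.mem_filter.1 h1).1
      have hl : (comb (q + 1) ((s.2.filter (headNZ (q + 1))).headD []) r).length ≤ S := by
        rw [comb, List.length_zipWith]
        have h1 := (h.2 r hrs).1
        have h2 : r.tail.length ≤ r.length := by
          rw [List.length_tail]
          omega
        exact (min_le_right _ _).trans (h2.trans h1)
      refine ⟨hl, ?_⟩
      have h3 : ∀ x ∈ comb (q + 1) ((s.2.filter (headNZ (q + 1))).headD []) r,
          sz x ≤ 2 * q + 1 := by
        intro x hx
        rw [comb] at hx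
        obtain ⟨i, hi, rfl⟩ := List.mem_iff_getElem.1 hx
        rw [List.getElem_zipWith, sz_nat]
        have hq : ∀ y : ℕ, y % (q + 1) ≤ q := fun y =>
          Nat.le_of_lt_succ (Nat.mod_lt y (Nat.succ_pos q))
        exact Nat.succ_le_succ (Nat.mul_le_mul_left 2 (hq _))
      have h4 := sz_le_of_forall h3
      have h5 : (comb (q + 1) ((s.2.filter (headNZ (q + 1))).headD []) r).length * (2 * q + 1 + 1)
          ≤ S * (2 * q + 2) := Nat.mul_le_mul_right _ hl
      omega

theorem inv_iter {q S B : ℕ} (hB : S * (2 * q + 2) + 1 ≤ B) (i : ℕ)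
    {s : ℕ × List (List ℕ)} (h : Inv S B s.2) : Inv S B ((rstep (q + 1))^[i] s).2 := by
  induction i generalizing s with
  | zero => exact h
  | succ i ih =>
    rw [Function.iterate_succ_apply]
    exact ih (inv_step hB h)

theorem count_step (p : ℕ) (s : ℕ × List (List ℕ)) : (rstep p s).1 ≤ s.1 + 1 := by
  unfold rstep
  split_ifs
  · exact Nat.le_succ _
  · exact le_rfl

theorem count_iter (p i : ℕ) (s : ℕ × List (List ℕ)) : ((rstep p)^[i] s).1 ≤ s.1 + i := by
  induction i generalizing s with
  | zero => exact le_rfl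
  | succ i ih =>
    rw [Function.iterate_succ_apply]
    have h1 := ih (rstep p s)
    have h2 := count_step p s
    omega

theorem sz_state {S B N : ℕ} {s : ℕ × List (List ℕ)} (h : Inv S B s.2) (hN : s.1 ≤ N) :
    sz s ≤ S * (B + 1) + 2 * N + 3 := by
  obtain ⟨b, L⟩ := s
  rw [sz_mk, sz_nat]
  have h2 := sz_le_of_forall fun r hr => (h.2 r hr).2
  have h3 : L.length * (B + 1) ≤ S * (B + 1) := Nat.mul_le_mul_right _ h.1
  change sz L ≤ L.length * (B + 1) + 1 at h2
  change b ≤ N at hN
  omega

end PTRkM

open PTRkM PTElimM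

/-- Module PTRk. -/
theorem stPTRk (hz : StZip) : StPTRk := by
  have hit : PTime fun q : ℕ × ℕ × List (List ℕ) =>
      ((fun s => rstep (q.1 + 1) s)^[q.2.1] (0, q.2.2)) := by
    refine PTime.iterate (n := fun q : ℕ × ℕ × List (List ℕ) => q.2.1)
      (s := fun q => (0, q.2.2)) (f := fun q s => rstep (q.1 + 1) s)
      (B := fun q => sz q * (sz q * sz q + 1 + 1) + 2 * sz q + 3) (by fun_prop)
      (PTime.pair (PTime.const 0) (by fun_prop)) ?_ ?_ ?_
    · exact (ptime_rstep hz).comp
        (g := fun p : (ℕ × ℕ × List (List ℕ)) × ℕ × List (List ℕ) => (p.1.1, p.2)) (by fun_prop)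
    · exact ((PB.sz.mul (((PB.sz.mul PB.sz).add (PB.const 1)).add (PB.const 1))).add
        ((PB.const 2).mul PB.sz)).add (PB.const 3)
    · intro q i hi
      obtain ⟨q, n, M⟩ := q
      change i ≤ n at hi
      have hs : sz (q, n, M) = 2 * q + 1 + (2 * n + 1 + sz M + 1) + 1 := by
        rw [sz_mk, sz_mk, sz_nat, sz_nat]
      have h0 : sz M * (2 * q + 2) ≤ sz (q, n, M) * sz (q, n, M) := by
        apply Nat.mul_le_mul
        · rw [hs]; omega
        · rw [hs]; omega
      have hI : Inv (sz M) (sz (q, n, M) * sz (q, n, M) + 1) ((0, M) : ℕ × List (List ℕ)).2 := by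
        refine ⟨length_le_sz M, ?_⟩
        intro r hr
        have h1 : sz r ≤ sz M := sz_mem_le hr
        have h2 := length_le_sz r
        have h3 : sz M ≤ sz (q, n, M) := by rw [hs]; omega
        have h4 : sz (q, n, M) ≤ sz (q, n, M) * sz (q, n, M) := Nat.le_mul_self _
        exact ⟨by omega, by omega⟩
      have hc := count_iter (q + 1) i (0, M)
      have hc' : ((rstep (q + 1))^[i] (0, M)).1 ≤ sz (q, n, M) := by
        change _ ≤ 0 + i at hc
        rw [hs]
        omega
      have h5 := sz_state (inv_iter (q := q) (S := sz M) (B := sz (q, n, M) * sz (q, n, M) + 1)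
        (by omega) i hI) hc'
      have h6 : sz M * (sz (q, n, M) * sz (q, n, M) + 1 + 1)
          ≤ sz (q, n, M) * (sz (q, n, M) * sz (q, n, M) + 1 + 1) :=
        Nat.mul_le_mul_right _ (by rw [hs]; omega)
      exact h5.trans (by
        change _ ≤ sz (q, n, M) * (sz (q, n, M) * sz (q, n, M) + 1 + 1) + 2 * sz (q, n, M) + 3
        omega)
  exact (hit.fst').of_eq fun q => rfl

end Pool.Agent.Lib.MP_64d474_lc.ST2
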