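import Pool.Agent.Lib.MP_64d474_lc.ST2.Stmts
import Pool.Agent.Lib.MP_64d474_lc.ST.PTMat

/-!
# The list of the ranks is computable in polynomial time
-/

set_option autoImplicit false

open Pool.Agent.Lib.PT Pool.Agent.Lib.MP_64d474_lc.ST

namespace Pool.Agent.Lib.MP_64d474_lc.ST2

/-- The list of the ranks is computable in polynomial time. -/
theorem stPTRl (h1 : StPTMult) : StPTRl := by
  have h1' : PTime fun q : RMat × ℕ × List Bool => mult q.1 q.2.1 q.2.2 := h1
  have hV : PTime fun t : (RMat × ℕ) × ℕ => vars t.1.1 :=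
    PTMatAux.ptime_vars.comp (g := fun t : (RMat × ℕ) × ℕ => t.1.1) (by fun_prop)
  have hV0 : PTime fun q : RMat × ℕ => vars q.1 :=
    PTMatAux.ptime_vars.comp (g := fun q : RMat × ℕ => q.1) (by fun_prop)
  have hG : PTime fun t : (RMat × ℕ) × ℕ => (vars t.1.1).getD t.2 [] :=
    PTime.getD hV (by fun_prop) (by fun_prop)
  have hI : PTime fun t : (RMat × ℕ) × ℕ => (vars t.1.1).idxOf ((vars t.1.1).getD t.2 []) :=
    PTime.idxOf hV hG
  have hM : PTime fun t : (RMat × ℕ) × ℕ =>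
      mult t.1.1 t.1.2 ((vars t.1.1).getD t.2 []) :=
    h1'.comp (g := fun t : (RMat × ℕ) × ℕ => (t.1.1, t.1.2, (vars t.1.1).getD t.2 []))
      (by fun_prop)
  have hj : PTime fun t : (RMat × ℕ) × ℕ => t.2 := by fun_prop
  have hA : PTime fun t : (RMat × ℕ) × ℕ =>
      if 2 ≤ mult t.1.1 t.1.2 ((vars t.1.1).getD t.2 []) then
        mult t.1.1 t.1.2 ((vars t.1.1).getD t.2 []) else 0 :=
    PTime.ite (p := fun t : (RMat × ℕ) × ℕ => 2 ≤ mult t.1.1 t.1.2 ((vars t.1.1).getD t.2 []))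
      ((PTime.const 2).le hM) hM (PTime.const 0)
  have hB : PTime fun t : (RMat × ℕ) × ℕ =>
      if (vars t.1.1).idxOf ((vars t.1.1).getD t.2 []) = t.2 then
        if 2 ≤ mult t.1.1 t.1.2 ((vars t.1.1).getD t.2 []) then
          mult t.1.1 t.1.2 ((vars t.1.1).getD t.2 []) else 0
      else 0 :=
    PTime.ite (p := fun t : (RMat × ℕ) × ℕ =>
      (vars t.1.1).idxOf ((vars t.1.1).getD t.2 []) = t.2) (hI.eq hj) hA (PTime.const 0)
  exact PTime.map (f := fun (q : RMat × ℕ) (j : ℕ) =>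
    if (vars q.1).idxOf ((vars q.1).getD j []) = j then
      if 2 ≤ mult q.1 q.2 ((vars q.1).getD j []) then mult q.1 q.2 ((vars q.1).getD j []) else 0
    else 0) hV0.length.range hB

end Pool.Agent.Lib.MP_64d474_lc.ST2
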