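import Pool.Agent.Lib.MP_64d474_lc.ST2.Stmts

/-!
# The values `t ^ w` modulo a number are computable in polynomial time
-/

set_option autoImplicit false

open Pool.Agent.Lib.PT
open Pool.Agent.Lib.MP_64d474_lc.SubExp (bound levels)

namespace Pool.Agent.Lib.MP_64d474_lc.ST2

namespace PTTAux

variable {α : Type} [Enc α]

theorem ptime_radix {f g : α → ℕ} (hf : PTime f) (hg : PTime g) :
    PTime fun a => radix (f a) (g a) := by
  have h : PTime fun a => f a * (32 * ((f a + g a + 1) * ((f a + g a + 1) * ((f a + g a + 1) *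
      ((f a + g a + 1) * (f a + g a + 1)))))) + 1 := by fun_prop
  refine h.of_eq fun a => ?_
  unfold radix bound
  ring

theorem ptime_levels {f : α → ℕ} (hf : PTime f) : PTime fun a => levels (f a) := by
  unfold levels
  fun_prop

theorem ptime_pwm (h1 : StPTPow) {f g h : α → ℕ} (hf : PTime f) (hg : PTime g) (hh : PTime h) :
    PTime fun a => pwm (f a + 1) (g a) (h a) :=
  PTime.comp (f := fun q : ℕ × ℕ × ℕ => pwm (q.1 + 1) q.2.1 q.2.2)
    (g := fun a => (f a, g a, h a)) h1 (by fun_prop)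

theorem pwm_le (p x k : ℕ) : pwm (p + 1) x k ≤ p := by
  unfold pwm
  cases k with
  | zero => exact Nat.le_of_lt_succ (Nat.mod_lt _ (Nat.succ_pos p))
  | succ k =>
    rw [Function.iterate_succ_apply']
    exact Nat.le_of_lt_succ (Nat.mod_lt _ (Nat.succ_pos p))

/-- The type of the input. -/
abbrev Inp : Type := ℕ × ℕ × ℕ × List ℕ × ℕ

/-- One step of the fold for `tmod`. -/
def tstp (q : Inp) (a i : ℕ) : ℕ :=
  (q.2.2.2.1.getD (1 + levels q.2.1 + i) 0 + radix q.2.1 q.2.2.1 * a) % (q.1 + 1)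

theorem tstp_le (q : Inp) (l : List ℕ) : l.foldl (tstp q) 0 ≤ q.1 := by
  rw [← List.reverse_reverse l, List.foldl_reverse]
  cases l.reverse with
  | nil => exact Nat.zero_le _
  | cons x t => exact Nat.le_of_lt_succ (Nat.mod_lt _ (Nat.succ_pos _))

theorem tmod_eq (q : Inp) : tmod (q.1 + 1) q.2.1 q.2.2.1 q.2.2.2.1 =
    (List.range (levels q.2.1 + 1)).reverse.foldl (tstp q) 0 := by
  rw [List.foldl_reverse]
  rfl

theorem tmod_le (q : Inp) : tmod (q.1 + 1) q.2.1 q.2.2.1 q.2.2.2.1 ≤ q.1 := by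
  rw [tmod_eq]
  exact tstp_le _ _

theorem ptime_tmod : PTime fun q : Inp => tmod (q.1 + 1) q.2.1 q.2.2.1 q.2.2.2.1 := by
  have hl : PTime fun q : Inp => levels q.2.1 := ptime_levels (by fun_prop)
  have h : PTime fun q : Inp => (List.range (levels q.2.1 + 1)).reverse.foldl (tstp q) 0 := by
    refine PTime.foldl (l := fun q : Inp => (List.range (levels q.2.1 + 1)).reverse)
      (s := fun _ => 0) (f := fun q a i => tstp q a i) (by fun_prop) (by fun_prop) ?_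
      (B := fun q => sz q) PB.sz ?_
    · have h1 : PTime fun x : Inp × ℕ × ℕ => levels x.1.2.1 := ptime_levels (by fun_prop)
      have h2 : PTime fun x : Inp × ℕ × ℕ => radix x.1.2.1 x.1.2.2.1 :=
        ptime_radix (by fun_prop) (by fun_prop)
      have h3 : PTime fun x : Inp × ℕ × ℕ => x.1.2.2.2.1.getD (1 + levels x.1.2.1 + x.2.2) 0 :=
        PTime.getD (by fun_prop) (by fun_prop) (by fun_prop)
      exact (h3.add (h2.mul (by fun_prop))).mod (by fun_prop)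
    · intro q l₁ l₂ _
      have h' : List.foldl (fun a i => tstp q a i) 0 l₁ ≤ q.1 := tstp_le q l₁
      rw [sz_nat, sz_mk, sz_nat]
      omega
  exact h.of_eq fun q => (tmod_eq q).symm

/-- One step of the fold for `tm`. -/
def stp (q : Inp) (s : ℕ × ℕ) (i : ℕ) : ℕ × ℕ :=
  (pwm (q.1 + 1) s.1 (radix q.2.1 q.2.2.1),
    s.2 * pwm (q.1 + 1) s.1 (pwm (q.2.2.2.1.getD 0 0 + 1) (q.2.2.2.1.getD (1 + i) 0) q.2.2.2.2) %
      (q.1 + 1))

theorem stp_le (q : Inp) (l : List ℕ) (s : ℕ × ℕ) (hs : s.1 ≤ q.1 ∧ s.2 ≤ q.1) :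
    (l.foldl (stp q) s).1 ≤ q.1 ∧ (l.foldl (stp q) s).2 ≤ q.1 := by
  induction l generalizing s with
  | nil => exact hs
  | cons x t ih =>
    rw [List.foldl_cons]
    exact ih _ ⟨pwm_le _ _ _, Nat.le_of_lt_succ (Nat.mod_lt _ (Nat.succ_pos _))⟩

theorem ptime_stp (h1 : StPTPow) : PTime fun x : Inp × (ℕ × ℕ) × ℕ => stp x.1 x.2.1 x.2.2 := by
  have h2 : PTime fun x : Inp × (ℕ × ℕ) × ℕ => radix x.1.2.1 x.1.2.2.1 :=
    ptime_radix (by fun_prop) (by fun_prop)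
  have h3 : PTime fun x : Inp × (ℕ × ℕ) × ℕ =>
      pwm (x.1.1 + 1) x.2.1.1 (radix x.1.2.1 x.1.2.2.1) :=
    ptime_pwm h1 (f := fun x : Inp × (ℕ × ℕ) × ℕ => x.1.1) (by fun_prop) (by fun_prop) h2
  have h4 : PTime fun x : Inp × (ℕ × ℕ) × ℕ =>
      pwm (x.1.2.2.2.1.getD 0 0 + 1) (x.1.2.2.2.1.getD (1 + x.2.2) 0) x.1.2.2.2.2 :=
    ptime_pwm h1 (f := fun x : Inp × (ℕ × ℕ) × ℕ => x.1.2.2.2.1.getD 0 0) (by fun_prop)
      (by fun_prop) (by fun_prop)
  have h5 : PTime fun x : Inp × (ℕ × ℕ) × ℕ => pwm (x.1.1 + 1) x.2.1.1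
      (pwm (x.1.2.2.2.1.getD 0 0 + 1) (x.1.2.2.2.1.getD (1 + x.2.2) 0) x.1.2.2.2.2) :=
    ptime_pwm h1 (f := fun x : Inp × (ℕ × ℕ) × ℕ => x.1.1) (by fun_prop) (by fun_prop) h4
  have h6 : PTime fun x : Inp × (ℕ × ℕ) × ℕ => x.2.1.2 := by fun_prop
  have h7 : PTime fun x : Inp × (ℕ × ℕ) × ℕ => x.1.1 + 1 := by fun_prop
  exact h3.pair ((h6.mul h5).mod h7)

end PTTAux

open PTTAux in
theorem stPTT (h1 : StPTPow) : StPTT := by
  have hl : PTime fun q : Inp => levels q.2.1 := ptime_levels (by fun_prop)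
  have ht := ptime_tmod
  have h : PTime fun q : Inp => (List.range (levels q.2.1)).foldl (stp q)
      (tmod (q.1 + 1) q.2.1 q.2.2.1 q.2.2.2.1, 1 % (q.1 + 1)) := by
    refine PTime.foldl (l := fun q : Inp => List.range (levels q.2.1))
      (s := fun q : Inp => (tmod (q.1 + 1) q.2.1 q.2.2.1 q.2.2.2.1, 1 % (q.1 + 1)))
      (f := fun q s i => stp q s i) (by fun_prop) (ht.pair (by fun_prop)) (ptime_stp h1)
      (B := fun q => sz q + sz q + 1) ((PB.sz.add PB.sz).add (PB.const 1)) ?_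
    intro q l₁ l₂ _
    have h' := stp_le q l₁ (tmod (q.1 + 1) q.2.1 q.2.2.1 q.2.2.2.1, 1 % (q.1 + 1))
      ⟨tmod_le q, Nat.le_of_lt_succ (Nat.mod_lt _ (Nat.succ_pos _))⟩
    have e : sz (List.foldl (fun s i => stp q s i)
        (tmod (q.1 + 1) q.2.1 q.2.2.1 q.2.2.2.1, 1 % (q.1 + 1)) l₁) =
        sz (l₁.foldl (stp q) (tmod (q.1 + 1) q.2.1 q.2.2.1 q.2.2.2.1, 1 % (q.1 + 1))).1 +
        sz (l₁.foldl (stp q) (tmod (q.1 + 1) q.2.1 q.2.2.1 q.2.2.2.1, 1 % (q.1 + 1))).2 + 1 :=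
      sz_mk _ _
    have e2 : sz q = sz q.1 + sz q.2 + 1 := sz_mk _ _
    rw [e, e2]
    simp only [sz_nat]
    omega
  exact h.snd'.of_eq fun q => rfl

end Pool.Agent.Lib.MP_64d474_lc.ST2
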