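import Pool.Agent.Lib.MP_64d474_lc.ST2.Stmts
import Pool.Agent.Lib.MP_64d474_lc.ST.Pts

/-!
# The test points of the heavy variables as lists of digits
-/

set_option autoImplicit false

open Finset Pool.Agent.Lib.PT
open Pool.Agent.Lib.MP_64d474_lc.ST Pool.Agent.Lib.MP_64d474_lc.ST.PtsAux
open Pool.Agent.Lib.MP_64d474_lc.SubExp (Par bd pt off nsrc nblk)

namespace Pool.Agent.Lib.MP_64d474_lc.ST2

namespace PtsHAux

/-- The sum of the entries. -/
theorem sum_get (l : List ℕ) : ∑ j, l.get j = l.sum :=
  (Fin.sum_univ_fun_getElem l fun u => u).trans (by rw [List.map_id'])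

/-- The offsets are the sums of the initial segments. -/
theorem off_get : ∀ (l : List ℕ) (j : Fin l.length),
    off (fun j => l.get j) j = (l.take j).sum := by
  intro l j
  have h1 : ∀ (l : List ℕ) (n : ℕ), n ≤ l.length →
      ∑ i ∈ univ.filter (fun i : Fin l.length => (i : ℕ) < n), l.get i = (l.take n).sum := by
    intro l
    induction l with
    | nil => intro n hn; simp
    | cons a l ih =>
      intro n hn
      cases n with
      | zero => simp
      | succ n =>
        rw [List.take_succ_cons, List.sum_cons, ← ih n (by simpa using hn)]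
        rw [sum_filter, sum_filter]
        show ∑ i : Fin (l.length + 1), _ = _
        rw [Fin.sum_univ_succ]
        congr 1
        refine sum_congr rfl fun i _ => ?_
        simp
  exact h1 l j j.2.le

end PtsHAux

open PtsHAux in
theorem stPtsH : StPtsH := by
  intro l R hR v hv
  have hs := sum_get l
  have hS : 1 ≤ srcs R := by
    unfold srcs
    omega
  set z : Fin (nsrc R) → ℕ := fun j => v (Sum.inl j) with hz
  set y : Fin (nblk (∑ j, l.get j) R) → ℕ := fun j => v (Sum.inr (Sum.inl j)) with hy
  set w : Fin (nblk (∑ j, l.get j) R) → ℕ := fun j => v (Sum.inr (Sum.inr j)) with hw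
  have hzl : (List.ofFn z).length = srcs R := by rw [List.length_ofFn, srcs_eq]
  have hyl : (List.ofFn y).length = blks l.sum R := by rw [List.length_ofFn, blks_eq, hs]
  have hwl : (List.ofFn w).length = blks l.sum R := by rw [List.length_ofFn, blks_eq, hs]
  refine ⟨List.ofFn z ++ (List.ofFn y ++ List.ofFn w), mem_vecs _ _ _ ?_ ?_, ?_⟩
  · rw [List.length_append, List.length_append, hzl, hyl, hwl]
    unfold digs
    ring
  · intro x hx
    unfold dmax
    have h1 : l.sum ≤ srcs R * l.sum := Nat.le_mul_of_pos_left _ hS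
    rw [List.mem_append, List.mem_append, List.mem_ofFn, List.mem_ofFn, List.mem_ofFn] at hx
    rcases hx with ⟨j, rfl⟩ | ⟨j, rfl⟩ | ⟨j, rfl⟩
    · have h2 : v (Sum.inl j) ≤ ∑ j, l.get j := hv (Sum.inl j)
      exact (h2.trans hs.le).trans h1
    · have h2 : v (Sum.inr (Sum.inl j)) ≤ nsrc R * ∑ j, l.get j := hv (Sum.inr (Sum.inl j))
      exact h2.trans (le_of_eq (by rw [hs, srcs_eq]))
    · have h2 : v (Sum.inr (Sum.inr j)) ≤ ∑ j, l.get j := hv (Sum.inr (Sum.inr j))
      exact (h2.trans hs.le).trans h1
  · intro j
    have hcnt : l.get j = l.getD j 0 := by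
      rw [List.getD_eq_getElem _ _ j.2]
      rfl
    have hoff := off_get l j
    have hblk : (l.take j).sum / R < nblk (∑ j, l.get j) R := by
      rw [← hoff]
      exact (SubExp.blk (fun j => l.get j) R j).2
    have hb : SubExp.blk (fun j => l.get j) R j = ⟨(l.take j).sum / R, hblk⟩ := by
      apply Fin.ext
      show off (fun j => l.get j) j / R = _
      rw [hoff]
    have e1 : (List.ofFn z ++ (List.ofFn y ++ List.ofFn w)).take (srcs R) = List.ofFn z :=
      List.take_left' hzl
    have e2 : (List.ofFn z ++ (List.ofFn y ++ List.ofFn w)).getD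
        (srcs R + (l.take j).sum / R) 0 = y ⟨(l.take j).sum / R, hblk⟩ := by
      rw [List.getD_append_right _ _ _ _ (by rw [hzl]; exact Nat.le_add_right _ _), hzl,
        Nat.add_sub_cancel_left,
        List.getD_append _ _ _ _ (by rw [List.length_ofFn]; exact hblk),
        List.getD_eq_getElem _ _ (by rw [List.length_ofFn]; exact hblk), List.getElem_ofFn]
    have e3 : (List.ofFn z ++ (List.ofFn y ++ List.ofFn w)).getD
        (srcs R + blks l.sum R + (l.take j).sum / R) 0 =
          w ⟨(l.take j).sum / R, hblk⟩ := by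
      rw [add_assoc, List.getD_append_right _ _ _ _ (by rw [hzl]; exact Nat.le_add_right _ _), hzl,
        Nat.add_sub_cancel_left,
        List.getD_append_right _ _ _ _ (by rw [hyl]; exact Nat.le_add_right _ _), hyl,
        Nat.add_sub_cancel_left,
        List.getD_eq_getElem _ _ (by rw [List.length_ofFn]; exact hblk), List.getElem_ofFn]
    unfold hitv
    rw [e1, e2, e3, fold_eq, ← hcnt]
    show SubExp.point (fun j => l.get j) R z y w j = _
    unfold SubExp.point
    rw [hoff, hb]

end Pool.Agent.Lib.MP_64d474_lc.ST2
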