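import Pool.Agent.Lib.MP_64d474_lc.ST2.Stmts
import Pool.Agent.Lib.MP_64d474_lc.ST.Vecs

/-!
# The quasi-polynomial test set as lists of digits
-/

set_option autoImplicit false

open Finset Pool.Agent.Lib.PT Pool.Agent.Lib.MP_64d474_lc.ST
open Pool.Agent.Lib.MP_64d474_lc.SubExp (Par bd pt testSet bound levels weight)

namespace Pool.Agent.Lib.MP_64d474_lc.ST2

namespace PtsTAux

/-- a number is given by its digits -/
theorem sum_digits (r t : ℕ) (k : ℕ) :
    ∑ i ∈ Finset.range k, t / r ^ i % r * r ^ i = t % r ^ k := by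
  induction k with
  | zero => simp [Nat.mod_one]
  | succ k ih =>
    rw [Finset.sum_range_succ, ih, pow_succ, Nat.mod_mul, mul_comm (r ^ k)]

theorem list_sum_range (f : ℕ → ℕ) (k : ℕ) :
    ((List.range k).map f).sum = ∑ i ∈ Finset.range k, f i := by
  induction k with
  | zero => rfl
  | succ k ih =>
    rw [List.range_succ, List.map_append, List.sum_append, ih, Finset.sum_range_succ]
    simp

/-- the list of the digits -/
def lst (L p : ℕ) (b : Fin L → ℕ) (r t : ℕ) : List ℕ :=
  (p - 1) :: (List.ofFn b ++ List.ofFn fun i : Fin (L + 1) => t / r ^ (i : ℕ) % r)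

theorem length_lst (L p : ℕ) (b : Fin L → ℕ) (r t : ℕ) : (lst L p b r t).length = 2 * L + 2 := by
  unfold lst
  rw [List.length_cons, List.length_append, List.length_ofFn, List.length_ofFn]
  omega

theorem getD_zero (L p : ℕ) (b : Fin L → ℕ) (r t : ℕ) : (lst L p b r t).getD 0 0 = p - 1 := rfl

theorem getD_base (L p : ℕ) (b : Fin L → ℕ) (r t : ℕ) (i : Fin L) :
    (lst L p b r t).getD (1 + i) 0 = b i := by
  unfold lst
  rw [Nat.add_comm 1, List.getD_cons_succ, List.getD_append _ _ _ _ (by simp)]
  rw [List.getD_eq_getElem _ _ (by simp), List.getElem_ofFn]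

theorem getD_dig (L p : ℕ) (b : Fin L → ℕ) (r t : ℕ) (i : ℕ) (hi : i < L + 1) :
    (lst L p b r t).getD (1 + L + i) 0 = t / r ^ i % r := by
  unfold lst
  rw [show 1 + L + i = (L + i) + 1 by omega, List.getD_cons_succ,
    List.getD_append_right _ _ _ _ (by simp)]
  rw [List.length_ofFn, Nat.add_sub_cancel_left,
    List.getD_eq_getElem _ _ (by simpa using hi), List.getElem_ofFn]

end PtsTAux

open PtsTAux

theorem stPtsT : StPtsT := by
  intro n m hn h hh
  unfold testSet at hh
  rw [mem_image] at hh
  obtain ⟨⟨p, b, t⟩, hq, rfl⟩ := hh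
  rw [mem_product, mem_product, mem_filter, Finset.mem_range, Fintype.mem_piFinset,
    Finset.mem_range] at hq
  obtain ⟨⟨hp1, hp2⟩, hb, ht⟩ := hq
  have hle : bound n m ≤ n * bound n m := Nat.le_mul_of_pos_left _ hn
  have hbd : 1 ≤ bound n m := by
    unfold bound
    have := Nat.pow_pos (n := 5) (show 0 < n + m + 1 by omega)
    omega
  have hr : 1 < radix n m := by
    unfold radix
    omega
  refine ⟨lst (levels n) p b (radix n m) t, ?_, ?_⟩
  · rw [stVecs]
    refine ⟨length_lst _ _ _ _ _, fun x hx => ?_⟩
    unfold lst at hx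
    rcases List.mem_cons.mp hx with rfl | hx
    · simp only at hp1
      omega
    · rcases List.mem_append.mp hx with hx | hx
      · obtain ⟨i, rfl⟩ := (List.mem_ofFn' _ _).mp hx
        have := Finset.mem_range.mp (hb i)
        simp only at this
        omega
      · obtain ⟨i, rfl⟩ := (List.mem_ofFn' _ _).mp hx
        exact Nat.le_of_lt_succ (Nat.mod_lt (t / radix n m ^ (i : ℕ)) (show 0 < radix n m by omega))
  · intro j
    unfold tval
    have h1 : ((List.range (levels n + 1)).map fun i =>
        (lst (levels n) p b (radix n m) t).getD (1 + levels n + i) 0 * radix n m ^ i).sum = t := by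
      rw [list_sum_range]
      rw [Finset.sum_congr rfl (g := fun i => t / radix n m ^ i % radix n m * radix n m ^ i)
        (fun i hi => by rw [getD_dig _ _ _ _ _ _ (Finset.mem_range.mp hi)]), sum_digits]
      apply Nat.mod_eq_of_lt
      simp only at ht
      have h2 : radix n m ^ levels n < radix n m ^ (levels n + 1) :=
        Nat.pow_lt_pow_right hr (Nat.lt_succ_self _)
      unfold radix at h2 ⊢
      omega
    have h3 : ((List.range (levels n)).map fun i =>
        wdig (lst (levels n) p b (radix n m) t) j i * radix n m ^ i).sum = weight n m p b j := by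
      rw [list_sum_range, Finset.sum_range]
      unfold weight
      refine Finset.sum_congr rfl fun i _ => ?_
      unfold wdig
      rw [getD_base, getD_zero, Nat.sub_add_cancel hp2.one_le]
      rfl
    rw [h1, h3]

end Pool.Agent.Lib.MP_64d474_lc.ST2
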