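import Pool.Agent.Lib.MP_64d474_lc.ST2.Stmts
import Pool.Agent.Lib.MP_64d474_lc.ST.Elim

/-!
# The rank modulo a prime
-/

set_option autoImplicit false

open Pool.Agent.Lib.MP_64d474_lc.ST Pool.Agent.Lib.MP_64d474_lc.ST.ElimM

namespace Pool.Agent.Lib.MP_64d474_lc.ST2

namespace RkM

variable {p : ℕ}

/-- the product of a row and a vector -/
def dn (n : ℕ) (r : List ℕ) (v : Fin n → ZMod p) : ZMod p :=
  ∑ j : Fin n, ((r.getD j 0 : ℕ) : ZMod p) * v j

theorem dn_eq (n : ℕ) (r : List ℕ) (hr : r.length = n) (v : ℕ → ZMod p) :
    dn n r (fun j => v j) = dt r v := by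
  rw [dt_sum, hr, Finset.sum_range]
  rfl

theorem dn_succ (n : ℕ) (r : List ℕ) (v : Fin (n + 1) → ZMod p) :
    dn (n + 1) r v = ((r.headD 0 : ℕ) : ZMod p) * v 0 + dn n r.tail (fun i => v i.succ) := by
  rw [dn, Fin.sum_univ_succ]
  cases r with
  | nil => simp [dn]
  | cons x r => simp [dn]

theorem dn_comb [hp : Fact p.Prime] (n : ℕ) (a r : List ℕ) (ha : a.length = n + 1)
    (hr : r.length = n + 1) (w : Fin n → ZMod p) :
    dn n (comb p a r) w = ((a.headD 0 : ℕ) : ZMod p) * dn n r.tail w
      - ((r.headD 0 : ℕ) : ZMod p) * dn n a.tail w := by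
  set w' : ℕ → ZMod p := fun i => if h : i < n then w ⟨i, h⟩ else 0 with hw'
  have e : w = fun j : Fin n => w' j := by
    funext j
    simp [hw']
  have ha' : a.tail.length = n := by rw [List.length_tail, ha]; simp
  have hr' : r.tail.length = n := by rw [List.length_tail, hr]; simp
  rw [e, dn_eq n (comb p a r) (by rw [comb, List.length_zipWith, ha', hr']; simp),
    dn_eq n r.tail hr', dn_eq n a.tail ha']
  exact dt_comb hp.out.pos _ _ _ _ w' (by rw [ha', hr'])

theorem dn_add (n : ℕ) (r : List ℕ) (v w : Fin n → ZMod p) :
    dn n r (v + w) = dn n r v + dn n r w := by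
  simp only [dn, Pi.add_apply, mul_add, Finset.sum_add_distrib]

theorem dn_smul (n : ℕ) (r : List ℕ) (c : ZMod p) (v : Fin n → ZMod p) :
    dn n r (c • v) = c * dn n r v := by
  simp only [dn, Pi.smul_apply, smul_eq_mul, Finset.mul_sum]
  exact Finset.sum_congr rfl fun j _ => by ring

/-- the kernel of the list of rows -/
def K (p n : ℕ) (L : List (List ℕ)) : Submodule (ZMod p) (Fin n → ZMod p) where
  carrier := {v | ∀ r ∈ L, dn n r v = 0}
  add_mem' := by
    intro v w hv hw r hr
    rw [dn_add, hv r hr, hw r hr, add_zero]
  zero_mem' := by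
    intro r _
    simp [dn]
  smul_mem' := by
    intro c v hv r hr
    rw [dn_smul, hv r hr, mul_zero]

theorem mem_K (n : ℕ) (L : List (List ℕ)) (v : Fin n → ZMod p) :
    v ∈ K p n L ↔ ∀ r ∈ L, dn n r v = 0 := Iff.rfl

/-- the vector without the first entry -/
def tl (p n : ℕ) : (Fin (n + 1) → ZMod p) →ₗ[ZMod p] (Fin n → ZMod p) where
  toFun v := fun i => v i.succ
  map_add' _ _ := rfl
  map_smul' _ _ := rfl

theorem tl_cons (n : ℕ) (c : ZMod p) (w : Fin n → ZMod p) :
    tl p n (Fin.cons (α := fun _ => ZMod p) c w) = w := by
  funext j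
  exact Fin.cons_succ (α := fun _ => ZMod p) c w j

theorem count (k : ℕ) : ∀ (c : ℕ) (L : List (List ℕ)),
    ((rstep p)^[k] (c, L)).1 = c + ((rstep p)^[k] (0, L)).1 := by
  induction k with
  | zero => intro c L; simp
  | succ k ih =>
    intro c L
    have e0 : ∀ d : ℕ, rstep p (d, L) = if (L.filter (headNZ p)).isEmpty then
        (d, L.map List.tail) else
        (d + 1, ((L.filter (headNZ p)).tail ++ L.filter fun r => !headNZ p r).map
          (comb p ((L.filter (headNZ p)).headD []))) := fun _ => rfl
    rw [Function.iterate_succ_apply, Function.iterate_succ_apply, e0, e0]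
    split_ifs with h
    · exact ih c _
    · rw [ih (c + 1), ih (0 + 1)]
      omega

theorem main [hp : Fact p.Prime] : ∀ (n : ℕ) (L : List (List ℕ)),
    (∀ r ∈ L, r.length = n) → rkmod p n L + Module.finrank (ZMod p) (K p n L) = n := by
  intro n
  induction n with
  | zero =>
    intro L _
    rw [Module.finrank_zero_of_subsingleton]
    rfl
  | succ n ih =>
    intro L hr
    have hNZ : ∀ r : List ℕ, headNZ p r = true ↔ ((r.headD 0 : ℕ) : ZMod p) ≠ 0 := by
      intro r
      unfold headNZ
      rw [Bool.not_eq_true', decide_eq_false_iff_not, Ne, ZMod.natCast_eq_zero_iff,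
        Nat.dvd_iff_mod_eq_zero]
    rw [rkmod, Function.iterate_succ_apply]
    have e0 : rstep p (0, L) = if (L.filter (headNZ p)).isEmpty then (0, L.map List.tail) else
        (0 + 1, ((L.filter (headNZ p)).tail ++ L.filter fun r => !headNZ p r).map
          (comb p ((L.filter (headNZ p)).headD []))) := rfl
    rw [e0]
    cases hF : L.filter (headNZ p) with
    | nil =>
      rw [if_pos (List.isEmpty_nil)]
      have h0 : ∀ r ∈ L, ((r.headD 0 : ℕ) : ZMod p) = 0 := by
        intro r hrL
        by_contra h4
        exact (List.filter_eq_nil_iff.1 hF r hrL) ((hNZ r).2 h4)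
      have hK : ∀ v : Fin (n + 1) → ZMod p,
          v ∈ K p (n + 1) L ↔ tl p n v ∈ K p n (L.map List.tail) := by
        intro v
        rw [mem_K, mem_K, List.forall_mem_map]
        refine forall₂_congr fun r hrL => ?_
        rw [dn_succ, h0 r hrL, zero_mul, zero_add]
        rfl
      have h1 := ih (L.map List.tail) (by
        rw [List.forall_mem_map]
        intro r hrL
        rw [List.length_tail, hr r hrL]
        simp)
      let f : K p (n + 1) L →ₗ[ZMod p] ZMod p × K p n (L.map List.tail) :=
        LinearMap.prod ((LinearMap.proj 0).comp (K p (n + 1) L).subtype)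
          (LinearMap.codRestrict (K p n (L.map List.tail))
            ((tl p n).comp (K p (n + 1) L).subtype) fun v => (hK v.1).1 v.2)
      have hf : Function.Bijective f := by
        constructor
        · intro v w hvw
          have h2 : v.1 0 = w.1 0 := congrArg Prod.fst hvw
          have h3 : tl p n v.1 = tl p n w.1 := congrArg (fun q => (q.2).1) hvw
          apply Subtype.ext
          funext i
          refine Fin.cases h2 (fun j => ?_) i
          exact congrFun h3 j
        · rintro ⟨c, w, hw⟩
          refine ⟨⟨Fin.cons (α := fun _ => ZMod p) c w, (hK _).2 ?_⟩, ?_⟩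
          · rw [tl_cons]
            exact hw
          · apply Prod.ext
            · exact Fin.cons_zero (α := fun _ => ZMod p) c w
            · apply Subtype.ext
              exact tl_cons n c w
      have h2 := (LinearEquiv.ofBijective f hf).finrank_eq
      rw [Module.finrank_prod, Module.finrank_self] at h2
      rw [rkmod] at h1
      rw [h2]
      omega
    | cons a T =>
      rw [if_neg (by simp)]
      have haF : a ∈ L.filter (headNZ p) := by
        rw [hF]
        exact List.mem_cons_self
      have haL : a ∈ L := (List.mem_filter.1 haF).1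
      have hah : ((a.headD 0 : ℕ) : ZMod p) ≠ 0 := (hNZ a).1 (List.mem_filter.1 haF).2
      rw [List.tail_cons, List.headD_cons]
      set S : List (List ℕ) := T ++ L.filter fun r => !headNZ p r with hS
      have hmem : ∀ r, r ∈ L ↔ r = a ∨ r ∈ S := by
        intro r
        rw [hS, List.mem_append, ← or_assoc, ← List.mem_cons, ← hF, List.mem_filter,
          List.mem_filter]
        constructor
        · intro h
          by_cases h1 : headNZ p r = true
          · exact Or.inl ⟨h, h1⟩
          · exact Or.inr ⟨h, by simp [h1]⟩
        · rintro (h | h)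
          · exact h.1
          · exact h.1
      have hcl : ∀ r ∈ L, (comb p a r).length = n := by
        intro r h
        rw [comb, List.length_zipWith, List.length_tail, List.length_tail, hr a haL, hr r h]
        simp
      have h1 := ih (S.map (comb p a)) (by
        rw [List.forall_mem_map]
        intro r hrS
        exact hcl r ((hmem r).2 (Or.inr hrS)))
      have hK : ∀ v : Fin (n + 1) → ZMod p, v ∈ K p (n + 1) L ↔
          ((a.headD 0 : ℕ) : ZMod p) * v 0 + dn n a.tail (tl p n v) = 0 ∧
            tl p n v ∈ K p n (S.map (comb p a)) := by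
        intro v
        rw [mem_K, mem_K, List.forall_mem_map]
        constructor
        · intro h
          have ha := h a haL
          rw [dn_succ] at ha
          refine ⟨ha, fun r hrS => ?_⟩
          have hrL : r ∈ L := (hmem r).2 (Or.inr hrS)
          have h2 := h r hrL
          rw [dn_succ] at h2
          rw [dn_comb n a r (hr a haL) (hr r hrL)]
          have e1 := eq_neg_of_add_eq_zero_right ha
          have e2 := eq_neg_of_add_eq_zero_right h2
          change _ * dn n r.tail (fun i => v i.succ) - _ * dn n a.tail (fun i => v i.succ) = 0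
          rw [e1, e2]
          ring
        · rintro ⟨ha, h⟩ r hrL
          rw [dn_succ]
          rcases (hmem r).1 hrL with rfl | hrS
          · exact ha
          · have h2 := h r hrS
            rw [dn_comb n a r (hr a haL) (hr r hrL)] at h2
            have h3 : ((a.headD 0 : ℕ) : ZMod p) *
                (((r.headD 0 : ℕ) : ZMod p) * v 0 + dn n r.tail (tl p n v)) = 0 := by
              have e1 := eq_neg_of_add_eq_zero_right ha
              rw [e1] at h2
              calc _ = ((a.headD 0 : ℕ) : ZMod p) * dn n r.tail (tl p n v)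
                    - ((r.headD 0 : ℕ) : ZMod p) * -(((a.headD 0 : ℕ) : ZMod p) * v 0) := by ring
                _ = 0 := h2
            exact (mul_eq_zero.1 h3).resolve_left hah
      let f : K p (n + 1) L →ₗ[ZMod p] K p n (S.map (comb p a)) :=
        LinearMap.codRestrict (K p n (S.map (comb p a)))
            ((tl p n).comp (K p (n + 1) L).subtype) fun v => ((hK v.1).1 v.2).2
      have hf : Function.Bijective f := by
        constructor
        · intro v w hvw
          have h3 : tl p n v.1 = tl p n w.1 := congrArg Subtype.val hvw
          have hv := ((hK v.1).1 v.2).1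
          have hw := ((hK w.1).1 w.2).1
          rw [h3] at hv
          have h2 : v.1 0 = w.1 0 := by
            apply mul_left_cancel₀ hah
            exact add_right_cancel (hv.trans hw.symm)
          apply Subtype.ext
          funext i
          refine Fin.cases h2 (fun j => ?_) i
          exact congrFun h3 j
        · rintro ⟨w, hw⟩
          have e := tl_cons n (-(dn n a.tail w) / ((a.headD 0 : ℕ) : ZMod p)) w
          refine ⟨⟨Fin.cons (α := fun _ => ZMod p)
            (-(dn n a.tail w) / ((a.headD 0 : ℕ) : ZMod p)) w, (hK _).2 ?_⟩, ?_⟩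
          · rw [e, Fin.cons_zero, mul_div_cancel₀ _ hah]
            exact ⟨neg_add_cancel _, hw⟩
          · apply Subtype.ext
            exact e
      have h2 := (LinearEquiv.ofBijective f hf).finrank_eq
      rw [rkmod] at h1
      rw [h2, count]
      omega

end RkM

open RkM

/-- Module Rk. -/
theorem stRk : StRk := by
  intro p hp n M hM
  set A : Matrix (Fin M.length) (Fin n) (ZMod p) :=
    Matrix.of fun (i : Fin M.length) (j : Fin n) => (((M.getD i []).getD j 0 : ℕ) : ZMod p) with hA
  have hk : LinearMap.ker A.mulVecLin = K p n M := by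
    ext v
    rw [LinearMap.mem_ker, Matrix.mulVecLin_apply, mem_K]
    constructor
    · intro h r hr
      obtain ⟨i, hi, rfl⟩ := List.mem_iff_getElem.1 hr
      have h3 := congrFun h ⟨i, hi⟩
      rw [← List.getD_eq_getElem M [] hi]
      exact h3
    · intro h
      funext i
      have h3 := h (M.getD i []) (by
        rw [List.getD_eq_getElem _ _ i.2]
        exact List.getElem_mem i.2)
      exact h3
  have h1 := LinearMap.finrank_range_add_finrank_ker A.mulVecLin
  rw [hk, Module.finrank_fin_fun] at h1
  have h2 := main (p := p) n M hM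
  change rkmod p n M = Module.finrank (ZMod p) (LinearMap.range A.mulVecLin)
  omega

end Pool.Agent.Lib.MP_64d474_lc.ST2
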