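import Pool.Agent.Lib.MP_64d474_lc.ST2.Stmts
import Pool.Agent.Lib.MP_64d474_lc.ST.Sizes
import Pool.Agent.Lib.MP_64d474_lc.ST.Xmod
import Pool.Agent.Lib.MP_64d474_lc.ST.Rank
import Pool.Agent.Lib.MP_64d474_lc.ST.Pts

/-!
# The list of the ranks (module Rl)
-/

set_option autoImplicit false

open Finset Pool.Agent.Lib.MP_64d474_lc.ST

namespace Pool.Agent.Lib.MP_64d474_lc.ST2

namespace RlAux

/-- a sum over first occurrences is a sum over the set of the members -/
theorem sum_first (V : List ℕ) (g : ℕ → ℕ) :
    (∑ j : Fin V.length, if V.idxOf (V.get j) = j then g (V.get j) else 0) =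
      ∑ k ∈ V.toFinset, g k := by
  rw [← Finset.sum_filter]
  refine Finset.sum_bij (fun j _ => V.get j) ?_ ?_ ?_ ?_
  · intro j _
    rw [List.mem_toFinset]
    exact List.get_mem V j
  · intro i hi j hj h
    have h1 : V.idxOf (V.get i) = i := (Finset.mem_filter.1 hi).2
    have h2 : V.idxOf (V.get j) = j := (Finset.mem_filter.1 hj).2
    apply Fin.ext
    have h3 : V.get i = V.get j := h
    rw [← h1, ← h2, h3]
  · intro k hk
    have hk' : k ∈ V := List.mem_toFinset.1 hk
    have hlt : V.idxOf k < V.length := List.idxOf_lt_length_iff.2 hk'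
    have h2 : V.get ⟨V.idxOf k, hlt⟩ = k := by
      rw [List.get_eq_getElem]
      exact List.getElem_idxOf hlt
    refine ⟨⟨V.idxOf k, hlt⟩, Finset.mem_filter.2 ⟨Finset.mem_univ _, ?_⟩, h2⟩
    rw [h2]
  · intro j _
    rfl

theorem idx_bits (V : List ℕ) (x : ℕ) : (V.map Nat.bits).idxOf x.bits = V.idxOf x := by
  induction V with
  | nil => simp
  | cons a l ih =>
    rw [List.map_cons, List.idxOf_cons, List.idxOf_cons, ih]
    by_cases h : a = x
    · subst h; simp
    · have h2 : a.bits ≠ x.bits := fun h3 => h (Xmod.bits_inj h3)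
      rw [beq_false_of_ne h, beq_false_of_ne h2]

theorem wr_le (A : SMat) (hA : ∀ r ∈ A, r.length = A.length) (j : Fin (varsN A).length) :
    wr A j ≤ mults (varsN A) j := by
  have h := (stRank A hA).1 j
  unfold wr
  rw [mats] at h
  by_cases h1 : (varsN A).idxOf ((varsN A).get j) = j
  · rw [if_pos h1] at h ⊢
    have h2 : (coefMatrix A ((varsN A).get j)).rank ≤ mults (varsN A) j := h
    split_ifs
    · exact h2
    · exact Nat.zero_le _
  · rw [if_neg h1]
    exact Nat.zero_le _

end RlAux

open RlAux

/-- (Rl) -/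
theorem stRl (h1 : StMult) : StRl := by
  intro A hA
  have hsum : (wl A).sum = totalRank A := by
    rw [wl, List.sum_ofFn]
    exact sum_first (varsN A) fun k =>
      if 2 ≤ (coefMatrix A k).rank then (coefMatrix A k).rank else 0
  refine ⟨?_, hsum, ?_⟩
  · have hv := (stSizes A).2.1
    apply List.ext_getElem
    · rw [rl, wl, List.length_map, List.length_range, List.length_ofFn, hv, List.length_map]
    · intro j hj hj'
      rw [wl, List.length_ofFn] at hj'
      have e1 : (vars (raw A)).getD j [] = ((varsN A).get ⟨j, hj'⟩).bits := by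
        rw [hv, List.getD_eq_getElem _ _ (by rw [List.length_map]; exact hj'), List.getElem_map]
        rfl
      simp only [rl, wl, List.getElem_map, List.getElem_range, List.getElem_ofFn, wr]
      rw [e1, hv, idx_bits, h1 A hA]
  · rw [← hsum, wl, List.sum_ofFn]
    calc ∑ j, wr A j ≤ ∑ j, mults (varsN A) j := Finset.sum_le_sum fun j _ => wr_le A hA j
      _ = (varsN A).length := PtsAux.total _
      _ ≤ (code A).length := (stSizes A).2.2.2.1

end Pool.Agent.Lib.MP_64d474_lc.ST2
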