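import Pool.Agent.Lib.MP_64d474_lc.ST2.Stmts
import Pool.Agent.Lib.MP_64d474_lc.ST.Raw
import Pool.Agent.Lib.MP_64d474_lc.ST.Asm

/-!
# The sum of the ranks is at most the length of the input
-/

set_option autoImplicit false

open Pool.Agent.Lib.MP_64d474_lc.ST

namespace Pool.Agent.Lib.MP_64d474_lc.ST2

namespace Sum

theorem cnt_le {β : Type} [DecidableEq β] (V : List β) (v : β) : cnt V v ≤ V.length :=
  List.length_filter_le _ _

/-- A well-formed word is the word of a square symbolic matrix. -/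
theorem of_wellformed {w : List Letter} (h : wellformed w = true) :
    ∃ A : SMat, code A = w ∧ parse w = raw A ∧ ∀ r ∈ A, r.length = A.length := by
  unfold wellformed at h
  simp only [Bool.and_eq_true, decide_eq_true_eq] at h
  obtain ⟨h1, h2, h3⟩ := h
  obtain ⟨hR1, -, hR3⟩ := stRaw
  have h5 := hR3 _ h2
  refine ⟨unraw (parse w), ?_, h5.symm, ?_⟩
  · rw [← hR1, h5, h1]
  · exact square_of_raw _ (by rw [h5]; exact h3)

end Sum

theorem stSum (h1 : StRl) : StSum := by
  intro w
  refine ⟨?_, Sum.cnt_le _ _, Sum.cnt_le _ _⟩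
  unfold rw'
  cases hw : wellformed w with
  | false => simp
  | true =>
    obtain ⟨A, hA, hp, hsq⟩ := Sum.of_wellformed hw
    obtain ⟨e1, e2, e3⟩ := h1 A hsq
    rw [hA] at e1 e3
    rw [cond_true, hp, e1, e2]
    exact e3

end Pool.Agent.Lib.MP_64d474_lc.ST2
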