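import Pool.Agent.Lib.MP_64d474_lc.ST2.Stmts
import Pool.Agent.Lib.MP_64d474_lc.ST.Vecs
import Pool.Agent.Lib.MP_64d474_lc.ST.Mod

/-!
# The tables compute the Fischer norm of the determinant
-/

set_option autoImplicit false

open Finset Pool.Agent.Lib.MP_64d474_lc.ST

namespace Pool.Agent.Lib.MP_64d474_lc.ST2

namespace TabAux

/-! ### Expansion along the last row -/

/-- the sign as an integer -/
abbrev sg {k : ℕ} (σ : Equiv.Perm (Fin k)) : ℤ := (σ.sign : ℤ)

theorem exp1 (k : ℕ) (N : Fin (k + 1) → Fin (k + 1) → ℤ) :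
    ∑ σ : Equiv.Perm (Fin (k + 1)), sg σ * ∏ i, N i (σ i) =
      ∑ j : Fin (k + 1), (-1) ^ ((j : ℕ) + k) * N (Fin.last k) j *
        ∑ σ : Equiv.Perm (Fin k), sg σ * ∏ i, N i.castSucc (j.succAbove (σ i)) := by
  have h1 := Matrix.det_apply' (Matrix.of fun (x i : Fin (k + 1)) => N i x)
  have h2 := Matrix.det_succ_column (Matrix.of fun (x i : Fin (k + 1)) => N i x) (Fin.last k)
  simp only [Matrix.of_apply, Int.cast_id] at h1 h2
  rw [← h1, h2]
  refine Finset.sum_congr rfl fun j _ => ?_
  rw [Fin.val_last]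
  congr 1
  rw [Matrix.det_apply']
  simp only [Matrix.submatrix_apply, Matrix.of_apply, Int.cast_id, Fin.succAbove_last]

/-- the permutation with `last ↦ j` and the given one on the rest -/
def ext {k : ℕ} (j : Fin (k + 1)) (σ : Equiv.Perm (Fin k)) : Equiv.Perm (Fin (k + 1)) :=
  ((finSuccEquiv' (Fin.last k)).trans (Equiv.optionCongr σ)).trans (finSuccEquiv' j).symm

theorem ext_last {k : ℕ} (j : Fin (k + 1)) (σ : Equiv.Perm (Fin k)) :
    ext j σ (Fin.last k) = j := by
  simp [ext, finSuccEquiv'_at]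

theorem ext_cast {k : ℕ} (j : Fin (k + 1)) (σ : Equiv.Perm (Fin k)) (i : Fin k) :
    ext j σ i.castSucc = j.succAbove (σ i) := by
  have h : finSuccEquiv' (Fin.last k) i.castSucc = some i := by
    rw [← Fin.succAbove_last_apply, finSuccEquiv'_succAbove]
  simp [ext, h]

theorem expF (k : ℕ) (f : Equiv.Perm (Fin (k + 1)) → ℤ) :
    ∑ σ, sg σ * f σ = ∑ j : Fin (k + 1), (-1) ^ ((j : ℕ) + k) *
      ∑ σ : Equiv.Perm (Fin k), sg σ * f (ext j σ) := by
  have h1 : ∀ τ : Equiv.Perm (Fin (k + 1)), sg τ =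
      ∑ j : Fin (k + 1), (-1) ^ ((j : ℕ) + k) *
        ∑ σ : Equiv.Perm (Fin k), sg σ * if ext j σ = τ then 1 else 0 := by
    intro τ
    have h2 := exp1 k fun i x => if x = τ i then 1 else 0
    have h3 : ∑ σ : Equiv.Perm (Fin (k + 1)), sg σ * ∏ i, (if σ i = τ i then (1 : ℤ) else 0) =
        sg τ := by
      rw [Finset.sum_eq_single τ]
      · simp
      · intro σ _ hσ
        obtain ⟨i, hi⟩ : ∃ i, σ i ≠ τ i := by
          by_contra hcon
          push Not at hcon
          exact hσ (Equiv.ext hcon)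
        rw [Finset.prod_eq_zero (Finset.mem_univ i) (if_neg hi), mul_zero]
      · intro h
        exact absurd (Finset.mem_univ τ) h
    rw [h3] at h2
    rw [h2]
    refine Finset.sum_congr rfl fun j _ => ?_
    rw [mul_assoc, Finset.mul_sum]
    congr 1
    refine Finset.sum_congr rfl fun σ _ => ?_
    by_cases h : ext j σ = τ
    · rw [if_pos h, ← h]
      simp only [ext_last, ext_cast, if_true, Finset.prod_const_one]
      ring
    · rw [if_neg h, mul_zero]
      by_cases h4 : j = τ (Fin.last k)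
      · obtain ⟨i, hi⟩ : ∃ i, j.succAbove (σ i) ≠ τ i.castSucc := by
          by_contra hcon
          push Not at hcon
          apply h
          ext i
          refine Fin.lastCases ?_ (fun i => ?_) i
          · rw [ext_last, h4]
          · rw [ext_cast, hcon]
        rw [Finset.prod_eq_zero (Finset.mem_univ i) (if_neg hi)]
        ring
      · rw [if_neg h4]
        ring
  calc ∑ σ, sg σ * f σ = ∑ τ, ∑ j : Fin (k + 1), ∑ σ : Equiv.Perm (Fin k),
        (-1) ^ ((j : ℕ) + k) * (sg σ * if ext j σ = τ then f τ else 0) := by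
        refine Finset.sum_congr rfl fun τ _ => ?_
        rw [h1 τ, Finset.sum_mul]
        refine Finset.sum_congr rfl fun j _ => ?_
        rw [mul_assoc, Finset.sum_mul, Finset.mul_sum]
        refine Finset.sum_congr rfl fun σ _ => ?_
        split_ifs <;> ring
    _ = ∑ j : Fin (k + 1), ∑ σ : Equiv.Perm (Fin k), ∑ τ,
        (-1) ^ ((j : ℕ) + k) * (sg σ * if ext j σ = τ then f τ else 0) := by
        rw [Finset.sum_comm]
        refine Finset.sum_congr rfl fun j _ => ?_
        rw [Finset.sum_comm]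
    _ = _ := by
        refine Finset.sum_congr rfl fun j _ => ?_
        rw [Finset.mul_sum]
        refine Finset.sum_congr rfl fun σ _ => ?_
        rw [← Finset.mul_sum, ← Finset.mul_sum, Finset.sum_ite_eq]
        simp

/-- exchange of two sums -/
theorem sw {α β : Type} [Fintype α] [Fintype β] (a : α → ℤ) (b : β → ℤ) (G : α → β → ℤ) :
    ∑ x, a x * ∑ y, b y * G x y = ∑ y, b y * ∑ x, a x * G x y := by
  simp only [Finset.mul_sum]
  rw [Finset.sum_comm]
  refine Finset.sum_congr rfl fun y _ => Finset.sum_congr rfl fun x _ => ?_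
  ring

/-- the triple alternating sum of the products -/
def tri (k : ℕ) (X : Fin k → Fin k → Fin k → Fin k → ℤ) : ℤ :=
  ∑ σ : Equiv.Perm (Fin k), sg σ * ∑ π : Equiv.Perm (Fin k), sg π *
    ∑ κ : Equiv.Perm (Fin k), sg κ * ∏ i, X i (σ i) (π i) (κ i)

theorem tri_zero (X : Fin 0 → Fin 0 → Fin 0 → Fin 0 → ℤ) : tri 0 X = 1 := by
  simp [tri]

theorem tri_succ (k : ℕ) (X : Fin (k + 1) → Fin (k + 1) → Fin (k + 1) → Fin (k + 1) → ℤ) :
    tri (k + 1) X = ∑ j : Fin (k + 1), ∑ l : Fin (k + 1), ∑ r : Fin (k + 1),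
      (-1) ^ (k + j + l + r) * X (Fin.last k) j l r *
        tri k fun i x y z => X i.castSucc (j.succAbove x) (l.succAbove y) (r.succAbove z) := by
  unfold tri
  simp only [expF]
  refine Finset.sum_congr rfl fun j _ => ?_
  have h1 : ∀ (σ : Equiv.Perm (Fin k)) (l : Fin (k + 1)),
      ∑ π : Equiv.Perm (Fin k), sg π * ∑ r : Fin (k + 1), (-1) ^ ((r : ℕ) + k) *
        ∑ κ : Equiv.Perm (Fin k), sg κ * ∏ i, X i (ext j σ i) (ext l π i) (ext r κ i) =
      ∑ r : Fin (k + 1), (-1) ^ ((r : ℕ) + k) * ∑ π : Equiv.Perm (Fin k), sg π *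
        ∑ κ : Equiv.Perm (Fin k), sg κ * ∏ i, X i (ext j σ i) (ext l π i) (ext r κ i) :=
    fun σ l => sw _ _ _
  simp only [h1]
  rw [sw]
  simp only [sw (fun σ : Equiv.Perm (Fin k) => sg σ) (fun r : Fin (k + 1) => (-1) ^ ((r : ℕ) + k))]
  rw [Finset.mul_sum]
  refine Finset.sum_congr rfl fun l _ => ?_
  rw [Finset.mul_sum, Finset.mul_sum]
  refine Finset.sum_congr rfl fun r _ => ?_
  simp only [Fin.prod_univ_castSucc, ext_cast, ext_last]
  have h2 : ∀ a b : ℤ, ∀ (F : Equiv.Perm (Fin k) → Equiv.Perm (Fin k) → Equiv.Perm (Fin k) → ℤ),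
      ∑ σ : Equiv.Perm (Fin k), sg σ * ∑ π : Equiv.Perm (Fin k), sg π *
        ∑ κ : Equiv.Perm (Fin k), sg κ * (F σ π κ * b) =
      b * ∑ σ : Equiv.Perm (Fin k), sg σ * ∑ π : Equiv.Perm (Fin k), sg π *
        ∑ κ : Equiv.Perm (Fin k), sg κ * F σ π κ := by
    intro a b F
    simp only [Finset.mul_sum]
    refine Finset.sum_congr rfl fun σ _ => Finset.sum_congr rfl fun π _ =>
      Finset.sum_congr rfl fun κ _ => ?_
    ring
  rw [h2 1]
  have h3 : (-1 : ℤ) ^ (k + j + l + r) = (-1) ^ ((j : ℕ) + k) * ((-1) ^ ((l : ℕ) + k) *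
      (-1) ^ ((r : ℕ) + k)) := by
    rw [← pow_add, ← pow_add,
      show (j : ℕ) + k + (l + k + (r + k)) = 2 * k + (k + j + l + r) by ring,
      pow_add _ (2 * k), pow_mul, neg_one_sq, one_pow, one_mul]
  rw [h3]
  ring

/-! ### Lists -/

/-- the filtered lists -/
def Fl (n : ℕ) (a : List ℕ) : Prop := ∃ q : ℕ → Bool, a = (List.range n).filter q

theorem mem_subs (n : ℕ) (a : List ℕ) : a ∈ subs n (vecs 1 n) ↔ Fl n a := by
  unfold subs Fl
  rw [List.mem_map]
  constructor
  · rintro ⟨d, _, rfl⟩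
    exact ⟨_, rfl⟩
  · rintro ⟨q, rfl⟩
    refine ⟨(List.range n).map fun i => if q i then 1 else 0, ?_, ?_⟩
    · rw [stVecs]
      refine ⟨by simp, fun x hx => ?_⟩
      obtain ⟨i, _, rfl⟩ := List.mem_map.mp hx
      split_ifs <;> omega
    · refine List.filter_congr fun i hi => ?_
      have hi' : i < n := List.mem_range.mp hi
      have h1 : ((List.range n).map fun i => if q i then 1 else 0).getD i 0 =
          if q i then 1 else 0 := by
        rw [List.getD_eq_getElem _ _ (by simpa using hi')]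
        simp
      rw [h1]
      by_cases h : q i = true
      · simp [h]
      · simp [h]

theorem Fl.lt {n : ℕ} {a : List ℕ} (h : Fl n a) {x : ℕ} (hx : x ∈ a) : x < n := by
  obtain ⟨q, rfl⟩ := h
  exact List.mem_range.mp (List.mem_filter.mp hx).1

theorem Fl.nodup {n : ℕ} {a : List ℕ} (h : Fl n a) : a.Nodup := by
  obtain ⟨q, rfl⟩ := h
  exact List.Nodup.filter _ List.nodup_range

theorem Fl.erase {n : ℕ} {a : List ℕ} (h : Fl n a) {j : ℕ} (hj : j < a.length) :
    Fl n (a.eraseIdx j) := by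
  rw [← List.Nodup.erase_getElem h.nodup j hj, h.nodup.erase_eq_filter]
  generalize a[j] = x
  obtain ⟨q, rfl⟩ := h
  rw [List.filter_filter]
  exact ⟨_, rfl⟩

theorem Fl.range (n : ℕ) : Fl n (List.range n) :=
  ⟨fun _ => true, (List.filter_eq_self.mpr fun _ _ => rfl).symm⟩

theorem getD_eraseIdx {k : ℕ} (a : List ℕ) (ha : a.length = k + 1) (j : Fin (k + 1))
    (i : Fin k) : (a.eraseIdx j).getD i 0 = a.getD (j.succAbove i) 0 := by
  have hj : (j : ℕ) < a.length := by rw [ha]; exact j.isLt
  have hl : (a.eraseIdx j).length = k := by rw [List.length_eraseIdx_of_lt hj, ha]; rfl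
  have hi : (i : ℕ) < (a.eraseIdx j).length := by rw [hl]; exact i.isLt
  rw [List.getD_eq_getElem _ _ hi, List.getElem_eraseIdx,
    List.getD_eq_getElem _ _ (by rw [ha]; exact (j.succAbove i).isLt)]
  by_cases h : (i : ℕ) < j
  · rw [dif_pos h]
    congr 1
    rw [Fin.succAbove_of_castSucc_lt _ _ (by rw [Fin.lt_def]; exact h)]
    rfl
  · rw [dif_neg h]
    congr 1
    rw [Fin.succAbove_of_le_castSucc _ _ (by rw [Fin.le_def]; exact Nat.le_of_not_lt h)]
    rfl

theorem sum_flat {α : Type} (l : List α) (f : α → List ℕ) :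
    (l.flatMap f).sum = (l.map fun x => (f x).sum).sum := by
  induction l with
  | nil => rfl
  | cons x l ih => rw [List.flatMap_cons, List.sum_append, ih, List.map_cons, List.sum_cons]

theorem sum_map_range (m : ℕ) (f : ℕ → ℕ) :
    ((List.range m).map f).sum = ∑ i : Fin m, f i := by
  rw [Fin.sum_univ_eq_sum_range]
  induction m with
  | zero => rfl
  | succ m ih =>
    rw [List.range_succ, List.map_append, List.sum_append, ih, Finset.sum_range_succ]
    simp

theorem mem_keys (S : List (List ℕ)) (k : ℕ) (a b c : List ℕ) : (a, b, c) ∈ keys S k ↔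
    (a ∈ S ∧ a.length = k) ∧ (b ∈ S ∧ b.length = k) ∧ (c ∈ S ∧ c.length = k) := by
  unfold keys
  simp only [List.mem_flatMap, List.mem_map, List.mem_filter, decide_eq_true_eq]
  constructor
  · rintro ⟨a', ha, b', hb, c', hc, h⟩
    have h1 : a' = a := congrArg (fun t => t.1) h
    have h2 : b' = b := congrArg (fun t => t.2.1) h
    have h3 : c' = c := congrArg (fun t => t.2.2) h
    rw [← h1, ← h2, ← h3]
    exact ⟨ha, hb, hc⟩
  · rintro ⟨ha, hb, hc⟩
    exact ⟨a, ha, b, hb, c, hc, rfl⟩

theorem look_map (K : List (List ℕ × List ℕ × List ℕ)) (f : List ℕ × List ℕ × List ℕ → ℕ)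
    (x : List ℕ × List ℕ × List ℕ) (hx : x ∈ K) : look (K.map fun y => (y, f y)) x = f x := by
  unfold look
  have h1 : ∀ t ∈ (K.map fun y => (y, f y)).filter (fun t => decide (t.1 = x)), t.2 = f x := by
    intro t ht
    obtain ⟨h2, h3⟩ := List.mem_filter.mp ht
    obtain ⟨y, _, rfl⟩ := List.mem_map.mp h2
    have h4 : y = x := by simpa using h3
    rw [h4]
  have h2 : (x, f x) ∈ (K.map fun y => (y, f y)).filter (fun t => decide (t.1 = x)) :=
    List.mem_filter.mpr ⟨List.mem_map.mpr ⟨x, hx, rfl⟩, by simp⟩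
  revert h1 h2
  generalize (K.map fun y => (y, f y)).filter (fun t => decide (t.1 = x)) = L
  intro h1 h2
  cases L with
  | nil => exact absurd h2 List.not_mem_nil
  | cons t L => exact h1 t List.mem_cons_self

/-! ### Casts -/

theorem ent_raw (A : SMat) (i j : ℕ) :
    ent (raw A) i j = ((A.getD i []).getD j []).map rawPair := by
  unfold ent raw
  rw [show ([] : List (List RPair)) = (fun r : List (List (ℤ × ℕ)) => r.map fun e =>
    e.map rawPair) [] from rfl, List.getD_map]
  rw [show ([] : List RPair) = (fun e : List (ℤ × ℕ) => e.map rawPair) [] from rfl, List.getD_map]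

theorem cast_ipm (p : ℕ) (hp : 0 < p) (e f : List (ℤ × ℕ)) :
    ((ipm p (e.map rawPair) (f.map rawPair) : ℕ) : ZMod p) = ((ipZ e f : ℤ) : ZMod p) := by
  unfold ipm ipZ
  rw [ZMod.natCast_mod, List.flatMap_map]
  induction e with
  | nil => simp
  | cons q e ih =>
    rw [List.flatMap_cons, List.flatMap_cons, List.sum_append, List.sum_append, Nat.cast_add,
      Int.cast_add, ih]
    congr 1
    rw [List.filter_map, List.map_map]
    have h1 : ((fun q' : RPair => decide (q'.2 = (rawPair q).2)) ∘ rawPair) =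
        fun q' : ℤ × ℕ => decide (q'.2 = q.2) := by
      funext q'
      refine decide_eq_decide.mpr (show q'.2.bits = q.2.bits ↔ q'.2 = q.2 from ?_)
      constructor
      · intro h
        rw [← Modaux.valB_bits q'.2, h, Modaux.valB_bits]
      · intro h
        rw [h]
    rw [h1]
    generalize f.filter (fun q' => decide (q'.2 = q.2)) = g
    induction g with
    | nil => simp
    | cons q' g ih2 =>
      rw [List.map_cons, List.map_cons, List.sum_cons, List.sum_cons, Nat.cast_add, Int.cast_add,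
        ih2]
      congr 1
      have h2 : ((coefmod p (rawPair q).1 : ℕ) : ZMod p) = (q.1 : ZMod p) :=
        Modaux.cast_coefmod p hp q.1
      have h3 : ((coefmod p (rawPair q').1 : ℕ) : ZMod p) = (q'.1 : ZMod p) :=
        Modaux.cast_coefmod p hp q'.1
      simp only [Function.comp]
      rw [Nat.cast_mul, h2, h3, Int.cast_mul]

theorem cast_sgm (p k : ℕ) (hp : 0 < p) :
    ((sgm p k : ℕ) : ZMod p) = (((-1) ^ k : ℤ) : ZMod p) := by
  unfold sgm
  rcases Nat.even_or_odd k with h | h
  · rw [if_pos (Nat.even_iff.mp h), ZMod.natCast_mod, h.neg_one_pow]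
    simp
  · rw [if_neg (by rw [Nat.odd_iff.mp h]; decide), Nat.cast_sub hp, ZMod.natCast_self,
      h.neg_one_pow]
    simp

/-! ### The tables -/

/-- the value for a triple of lists -/
def HL (A : SMat) (k : ℕ) (a b c : List ℕ) : ℤ :=
  tri k fun i x y z => ipZ ((A.getD i []).getD (a.getD x 0) [])
    ((A.getD (b.getD y 0) []).getD (c.getD z 0) [])

theorem HL_succ (A : SMat) (k : ℕ) (a b c : List ℕ) (ha : a.length = k + 1)
    (hb : b.length = k + 1) (hc : c.length = k + 1) :
    HL A (k + 1) a b c = ∑ j : Fin (k + 1), ∑ l : Fin (k + 1), ∑ r : Fin (k + 1),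
      (-1) ^ (k + j + l + r : ℕ) * ipZ ((A.getD k []).getD (a.getD j 0) [])
        ((A.getD (b.getD l 0) []).getD (c.getD r 0) []) *
        HL A k (a.eraseIdx j) (b.eraseIdx l) (c.eraseIdx r) := by
  unfold HL
  rw [tri_succ]
  refine Finset.sum_congr rfl fun j _ => Finset.sum_congr rfl fun l _ =>
    Finset.sum_congr rfl fun r _ => ?_
  rw [Fin.val_last]
  congr 2
  funext i x y z
  rw [getD_eraseIdx a ha, getD_eraseIdx b hb, getD_eraseIdx c hc]
  rfl

theorem table (A : SMat) (p : ℕ) (hp : 0 < p) (n k : ℕ) :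
    ((fstep p (raw A) (subs n (vecs 1 n)))^[k] (0, [(([], [], []), 1 % p)])).1 = k ∧
    ∀ a b c : List ℕ, Fl n a → Fl n b → Fl n c → a.length = k → b.length = k → c.length = k →
      ((look ((fstep p (raw A) (subs n (vecs 1 n)))^[k] (0, [(([], [], []), 1 % p)])).2
        (a, b, c) : ℕ) : ZMod p) = ((HL A k a b c : ℤ) : ZMod p) := by
  induction k with
  | zero =>
    refine ⟨rfl, fun a b c _ _ _ ha hb hc => ?_⟩
    rw [List.length_eq_zero_iff] at ha hb hc
    subst ha hb hc
    unfold HL
    rw [tri_zero]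
    simp [look]
  | succ k ih =>
    rw [Function.iterate_succ_apply']
    generalize (fstep p (raw A) (subs n (vecs 1 n)))^[k] (0, [(([], [], []), 1 % p)]) = s at ih ⊢
    obtain ⟨h1, h2⟩ := ih
    refine ⟨by unfold fstep; rw [h1], fun a b c fa fb fc ha hb hc => ?_⟩
    unfold fstep
    rw [h1]
    have hx : (a, b, c) ∈ keys (subs n (vecs 1 n)) (k + 1) := by
      rw [mem_keys, mem_subs, mem_subs, mem_subs]
      exact ⟨⟨fa, ha⟩, ⟨fb, hb⟩, ⟨fc, hc⟩⟩
    rw [look_map _ (fun x => fnew p (raw A) k s.2 x) _ hx, HL_succ A k a b c ha hb hc]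
    unfold fnew
    rw [ZMod.natCast_mod, sum_flat, sum_map_range]
    simp only [sum_flat, sum_map_range]
    push_cast
    refine Finset.sum_congr rfl fun j _ => Finset.sum_congr rfl fun l _ =>
      Finset.sum_congr rfl fun r _ => ?_
    rw [ent_raw, ent_raw, cast_ipm p hp, cast_sgm p _ hp, h2 _ _ _
      (fa.erase (by rw [ha]; exact j.isLt)) (fb.erase (by rw [hb]; exact l.isLt))
      (fc.erase (by rw [hc]; exact r.isLt))
      (by rw [List.length_eraseIdx_of_lt (by rw [ha]; exact j.isLt), ha]; rfl)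
      (by rw [List.length_eraseIdx_of_lt (by rw [hb]; exact l.isLt), hb]; rfl)
      (by rw [List.length_eraseIdx_of_lt (by rw [hc]; exact r.isLt), hc]; rfl)]
    push_cast
    ring

end TabAux

open TabAux in
/-- (Tab) the tables compute the Fischer norm modulo `p` -/
theorem stTab : StTab := by
  intro A p hp _
  unfold fval
  have hl : (raw A).length = A.length := by unfold raw; rw [List.length_map]
  rw [hl]
  rw [(table A p hp A.length A.length).2 _ _ _ (Fl.range _) (Fl.range _) (Fl.range _)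
    List.length_range List.length_range List.length_range]
  congr 1
  unfold HL tri Hf
  have hg : ∀ i : Fin A.length, (List.range A.length).getD i 0 = i := by
    intro i
    rw [List.getD_eq_getElem _ _ (by simp)]
    simp
  simp only [hg, Finset.mul_sum]
  refine Finset.sum_congr rfl fun σ _ => Finset.sum_congr rfl fun π _ =>
    Finset.sum_congr rfl fun κ _ => ?_
  ring

end Pool.Agent.Lib.MP_64d474_lc.ST2
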