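import Pool.Agent.Lib.MP_64d474_lc.ST2.Stmts

/-!
# The Fischer norm of the determinant is zero only for the zero polynomial
-/

set_option autoImplicit false

open Finset Pool.Agent.Lib.MP_64d474_lc.ST

namespace Pool.Agent.Lib.MP_64d474_lc.ST2

namespace WickAux

open MvPolynomial

/-! ### Coefficients of linear forms -/

/-- The coefficient of the variable `k` of a linear form. -/
def cf (e : List (ℤ × ℕ)) (k : ℕ) : ℤ := (e.map fun p => if p.2 = k then p.1 else 0).sum

lemma cf_nil (k : ℕ) : cf [] k = 0 := rfl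

lemma cf_cons (q : ℤ × ℕ) (e : List (ℤ × ℕ)) (k : ℕ) :
    cf (q :: e) k = (if q.2 = k then q.1 else 0) + cf e k := by
  unfold cf
  rw [List.map_cons, List.sum_cons]

lemma filter_sum (c : ℤ) (k : ℕ) (f : List (ℤ × ℕ)) :
    ((f.filter fun q' => decide (q'.2 = k)).map fun q' => c * q'.1).sum = c * cf f k := by
  induction f with
  | nil => simp [cf]
  | cons q f ih =>
    rw [cf_cons, List.filter_cons]
    by_cases h : q.2 = k
    · simp only [h, decide_true, if_true, List.map_cons, List.sum_cons, ih]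
      ring
    · simp only [h, decide_false, if_false, ih, Bool.false_eq_true]
      ring

lemma ipZ_eq (S : Finset ℕ) (e f : List (ℤ × ℕ)) (h : ∀ q ∈ e, q.2 ∈ S) :
    ipZ e f = ∑ k : S, cf e k * cf f k := by
  induction e with
  | nil => simp [ipZ, cf_nil]
  | cons q e ih =>
    have h1 : ipZ (q :: e) f = q.1 * cf f q.2 + ipZ e f := by
      unfold ipZ
      rw [List.flatMap_cons, List.sum_append, filter_sum]
    rw [h1, ih fun q' hq' => h q' (List.mem_cons_of_mem _ hq')]
    have h2 : ∑ k : S, (if q.2 = (k : ℕ) then q.1 else 0) * cf f k = q.1 * cf f q.2 := by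
      rw [Finset.sum_eq_single (⟨q.2, h q List.mem_cons_self⟩ : S)]
      · simp
      · intro k _ hk
        have : q.2 ≠ (k : ℕ) := fun h' => hk (Subtype.ext h'.symm)
        rw [if_neg this, zero_mul]
      · intro h'
        exact absurd (Finset.mem_univ _) h'
    rw [← h2, ← Finset.sum_add_distrib]
    refine Finset.sum_congr rfl fun k _ => ?_
    rw [cf_cons]
    ring

lemma form_eq (S : Finset ℕ) (e : List (ℤ × ℕ)) (h : ∀ q ∈ e, q.2 ∈ S) :
    form e = ∑ k : S, C (cf e k) * X (k : ℕ) := by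
  induction e with
  | nil => simp [form, cf_nil]
  | cons q e ih =>
    have h1 : form (q :: e) = C q.1 * X q.2 + form e := by
      unfold form
      rw [List.map_cons, List.sum_cons]
    rw [h1, ih fun q' hq' => h q' (List.mem_cons_of_mem _ hq')]
    have h2 : ∑ k : S, C (if q.2 = (k : ℕ) then q.1 else 0) * X (k : ℕ) =
        (C q.1 * X q.2 : MvPolynomial ℕ ℤ) := by
      rw [Finset.sum_eq_single (⟨q.2, h q List.mem_cons_self⟩ : S)]
      · simp
      · intro k _ hk
        have : q.2 ≠ (k : ℕ) := fun h' => hk (Subtype.ext h'.symm)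
        rw [if_neg this, C_0, zero_mul]
      · intro h'
        exact absurd (Finset.mem_univ _) h'
    rw [← h2, ← Finset.sum_add_distrib]
    refine Finset.sum_congr rfl fun k _ => ?_
    rw [cf_cons, C_add]
    ring

/-! ### Symmetrisation -/

section

variable {n : ℕ} {K : Type} [Fintype K] (w : Fin n → Fin n → K → ℤ)

/-- The coefficient of the determinant which belongs to a function. -/
def Cc (a : Fin n → K) : ℤ :=
  ∑ σ : Equiv.Perm (Fin n), (σ.sign : ℤ) * ∏ i, w i (σ i) (a i)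

/-- The symmetrisation. -/
def Sy (a : Fin n → K) : ℤ := ∑ τ : Equiv.Perm (Fin n), Cc w (a ∘ τ)

lemma Sy_comp (a : Fin n → K) (ρ : Equiv.Perm (Fin n)) : Sy w (a ∘ ρ) = Sy w a := by
  unfold Sy
  rw [← Equiv.sum_comp (Equiv.mulLeft ρ) fun τ : Equiv.Perm (Fin n) => Cc w (a ∘ τ)]
  refine Finset.sum_congr rfl fun τ _ => ?_
  rfl

lemma sum_comp {M : Type} [AddCommMonoid M] (f : (Fin n → K) → M) (τ : Equiv.Perm (Fin n)) :
    ∑ a : Fin n → K, f (a ∘ τ) = ∑ a : Fin n → K, f a := by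
  rw [← Equiv.sum_comp (Equiv.arrowCongr τ.symm (Equiv.refl K)) f]
  refine Finset.sum_congr rfl fun a _ => ?_
  rfl

lemma inner_sum (a : Fin n → K) :
    ∑ π : Equiv.Perm (Fin n), ∑ κ : Equiv.Perm (Fin n),
      ((π.sign : ℤ) * (κ.sign : ℤ)) * ∏ i, w (π i) (κ i) (a i) = Sy w a := by
  have h1 : ∀ π : Equiv.Perm (Fin n), ∑ κ : Equiv.Perm (Fin n),
      ((π.sign : ℤ) * (κ.sign : ℤ)) * ∏ i, w (π i) (κ i) (a i) = Cc w (a ∘ (π⁻¹ : Equiv.Perm _)) := by
    intro π
    unfold Cc
    rw [← Equiv.sum_comp (Equiv.mulRight π) fun κ : Equiv.Perm (Fin n) =>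
      ((π.sign : ℤ) * (κ.sign : ℤ)) * ∏ i, w (π i) (κ i) (a i)]
    refine Finset.sum_congr rfl fun κ _ => ?_
    have e1 : ∏ i, w (π i) ((Equiv.mulRight π κ) i) (a i) =
        ∏ i, w i (κ i) ((a ∘ (π⁻¹ : Equiv.Perm _)) i) := by
      rw [← Equiv.prod_comp π fun j => w j (κ j) ((a ∘ (π⁻¹ : Equiv.Perm _)) j)]
      refine Finset.prod_congr rfl fun i _ => ?_
      simp
    rw [e1]
    have e2 : ((π.sign : ℤ) * ((Equiv.mulRight π κ).sign : ℤ)) = (κ.sign : ℤ) := by
      rw [Equiv.coe_mulRight, Equiv.Perm.sign_mul]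
      push_cast
      have h2 : ((π.sign : ℤ)) * (π.sign : ℤ) = 1 := by
        rw [← Units.val_mul, Int.units_mul_self, Units.val_one]
      linear_combination (κ.sign : ℤ) * h2
    rw [e2]
  rw [Finset.sum_congr rfl fun π _ => h1 π]
  unfold Sy
  rw [← Equiv.sum_comp (Equiv.inv (Equiv.Perm (Fin n))) fun τ : Equiv.Perm (Fin n) => Cc w (a ∘ τ)]
  refine Finset.sum_congr rfl fun π _ => ?_
  rfl

lemma hf_eq : ∑ σ : Equiv.Perm (Fin n), ∑ π : Equiv.Perm (Fin n), ∑ κ : Equiv.Perm (Fin n),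
      ((σ.sign : ℤ) * (π.sign : ℤ) * (κ.sign : ℤ)) *
        ∏ i : Fin n, ∑ k : K, w i (σ i) k * w (π i) (κ i) k =
    ∑ a : Fin n → K, Cc w a * Sy w a := by
  classical
  have h1 : ∀ σ π κ : Equiv.Perm (Fin n),
      ((σ.sign : ℤ) * (π.sign : ℤ) * (κ.sign : ℤ)) *
        ∏ i : Fin n, ∑ k : K, w i (σ i) k * w (π i) (κ i) k =
      ∑ a : Fin n → K, ((σ.sign : ℤ) * ∏ i, w i (σ i) (a i)) *
        (((π.sign : ℤ) * (κ.sign : ℤ)) * ∏ i, w (π i) (κ i) (a i)) := by
    intro σ π κ
    rw [Finset.prod_univ_sum, Fintype.piFinset_univ, Finset.mul_sum]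
    refine Finset.sum_congr rfl fun a _ => ?_
    rw [Finset.prod_mul_distrib]
    ring
  calc _ = ∑ σ : Equiv.Perm (Fin n), ∑ π : Equiv.Perm (Fin n), ∑ κ : Equiv.Perm (Fin n),
        ∑ a : Fin n → K, ((σ.sign : ℤ) * ∏ i, w i (σ i) (a i)) *
        (((π.sign : ℤ) * (κ.sign : ℤ)) * ∏ i, w (π i) (κ i) (a i)) := by
        refine Finset.sum_congr rfl fun σ _ => Finset.sum_congr rfl fun π _ =>
          Finset.sum_congr rfl fun κ _ => h1 σ π κ
    _ = ∑ σ : Equiv.Perm (Fin n), ∑ a : Fin n → K, ((σ.sign : ℤ) * ∏ i, w i (σ i) (a i)) *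
        Sy w a := by
        refine Finset.sum_congr rfl fun σ _ => ?_
        have e1 : ∀ π : Equiv.Perm (Fin n), ∑ κ : Equiv.Perm (Fin n),
            ∑ a : Fin n → K, ((σ.sign : ℤ) * ∏ i, w i (σ i) (a i)) *
              (((π.sign : ℤ) * (κ.sign : ℤ)) * ∏ i, w (π i) (κ i) (a i)) =
            ∑ a : Fin n → K, ∑ κ : Equiv.Perm (Fin n),
              ((σ.sign : ℤ) * ∏ i, w i (σ i) (a i)) *
              (((π.sign : ℤ) * (κ.sign : ℤ)) * ∏ i, w (π i) (κ i) (a i)) :=
          fun π => Finset.sum_comm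
        rw [Finset.sum_congr rfl fun π _ => e1 π, Finset.sum_comm]
        refine Finset.sum_congr rfl fun a _ => ?_
        rw [← inner_sum w a, Finset.mul_sum]
        refine Finset.sum_congr rfl fun π _ => ?_
        rw [Finset.mul_sum]
    _ = ∑ a : Fin n → K, Cc w a * Sy w a := by
        rw [Finset.sum_comm]
        refine Finset.sum_congr rfl fun a _ => ?_
        rw [← Finset.sum_mul]
        rfl

lemma fact_hf : (n.factorial : ℤ) * ∑ a : Fin n → K, Cc w a * Sy w a =
    ∑ a : Fin n → K, Sy w a ^ 2 := by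
  have h1 : ∀ a : Fin n → K, Sy w a ^ 2 =
      ∑ τ : Equiv.Perm (Fin n), Cc w (a ∘ τ) * Sy w (a ∘ τ) := by
    intro a
    rw [sq]
    conv_lhs => arg 1; unfold Sy
    rw [Finset.sum_mul]
    exact Finset.sum_congr rfl fun τ _ => by rw [Sy_comp]
  rw [Finset.sum_congr rfl fun a _ => h1 a, Finset.sum_comm]
  have h2 : ∀ τ : Equiv.Perm (Fin n), ∑ a : Fin n → K, Cc w (a ∘ τ) * Sy w (a ∘ τ) =
      ∑ a : Fin n → K, Cc w a * Sy w a := fun τ => sum_comp (fun a => Cc w a * Sy w a) τ
  rw [Finset.sum_congr rfl fun τ _ => h2 τ, Finset.sum_const, nsmul_eq_mul, Finset.card_univ,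
    Fintype.card_perm, Fintype.card_fin]

lemma hf_eq_zero : ∑ a : Fin n → K, Cc w a * Sy w a = 0 ↔ ∀ a, Sy w a = 0 := by
  have h := fact_hf w
  have hn : (n.factorial : ℤ) ≠ 0 := by exact_mod_cast n.factorial_ne_zero
  constructor
  · intro h0 a
    rw [h0, mul_zero] at h
    have h1 := (Finset.sum_eq_zero_iff_of_nonneg fun a _ => sq_nonneg (Sy w a)).1 h.symm a
      (Finset.mem_univ a)
    exact pow_eq_zero_iff (two_ne_zero) |>.1 h1
  · intro h0
    exact Finset.sum_eq_zero fun a _ => by rw [h0 a, mul_zero]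

/-! ### The polynomial -/

variable (v : K → ℕ)

/-- The monomial of a function. -/
noncomputable def mo (a : Fin n → K) : ℕ →₀ ℕ := ∑ i, Finsupp.single (v (a i)) 1

lemma prod_X (a : Fin n → K) :
    (∏ i, X (v (a i)) : MvPolynomial ℕ ℤ) = monomial (mo v a) 1 := by
  unfold mo
  rw [monomial_sum_one]
  rfl

lemma mo_comp (a : Fin n → K) (τ : Equiv.Perm (Fin n)) : mo v (a ∘ τ) = mo v a := by
  unfold mo
  exact Equiv.sum_comp τ fun i => Finsupp.single (v (a i)) 1

lemma det_eq : ∑ σ : Equiv.Perm (Fin n), ((σ.sign : ℤ) : MvPolynomial ℕ ℤ) *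
      ∏ i : Fin n, ∑ k : K, C (w i (σ i) k) * X (v k) =
    ∑ a : Fin n → K, monomial (mo v a) (Cc w a) := by
  classical
  have h1 : ∀ σ : Equiv.Perm (Fin n), ((σ.sign : ℤ) : MvPolynomial ℕ ℤ) *
      ∏ i : Fin n, ∑ k : K, C (w i (σ i) k) * X (v k) =
      ∑ a : Fin n → K, monomial (mo v a) ((σ.sign : ℤ) * ∏ i, w i (σ i) (a i)) := by
    intro σ
    rw [Finset.prod_univ_sum, Fintype.piFinset_univ, Finset.mul_sum]
    refine Finset.sum_congr rfl fun a _ => ?_
    rw [Finset.prod_mul_distrib, prod_X, ← map_prod, ← mul_assoc]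
    have e1 : ((σ.sign : ℤ) : MvPolynomial ℕ ℤ) = C (σ.sign : ℤ) :=
      (map_intCast (C : ℤ →+* MvPolynomial ℕ ℤ) (σ.sign : ℤ)).symm
    rw [e1, ← C_mul, C_mul_monomial, mul_one]
  rw [Finset.sum_congr rfl fun σ _ => h1 σ, Finset.sum_comm]
  refine Finset.sum_congr rfl fun a _ => ?_
  rw [← map_sum]
  rfl

lemma fact_det : (n.factorial : ℤ) • ∑ a : Fin n → K, monomial (mo v a) (Cc w a) =
    ∑ a : Fin n → K, monomial (mo v a) (Sy w a) := by
  have h1 : ∀ a : Fin n → K, monomial (mo v a) (Sy w a) =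
      ∑ τ : Equiv.Perm (Fin n), monomial (mo v (a ∘ τ)) (Cc w (a ∘ τ)) := by
    intro a
    unfold Sy
    rw [map_sum]
    exact Finset.sum_congr rfl fun τ _ => by rw [mo_comp]
  rw [Finset.sum_congr rfl fun a _ => h1 a, Finset.sum_comm]
  have h2 : ∀ τ : Equiv.Perm (Fin n),
      ∑ a : Fin n → K, monomial (mo v (a ∘ τ)) (Cc w (a ∘ τ)) =
      ∑ a : Fin n → K, monomial (mo v a) (Cc w a) :=
    fun τ => sum_comp (fun a => monomial (mo v a) (Cc w a)) τ
  rw [Finset.sum_congr rfl fun τ _ => h2 τ, Finset.sum_const, Finset.card_univ,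
    Fintype.card_perm, Fintype.card_fin, natCast_zsmul]

lemma mo_apply (a : Fin n → K) (k : ℕ) : mo v a k = Fintype.card {i // v (a i) = k} := by
  classical
  unfold mo
  rw [Finsupp.finset_sum_apply, Fintype.card_subtype, Finset.card_filter]
  exact Finset.sum_congr rfl fun i _ => by rw [Finsupp.single_apply]

variable {v} in
lemma exists_perm (hv : Function.Injective v) {a b : Fin n → K} (h : mo v a = mo v b) :
    ∃ τ : Equiv.Perm (Fin n), a = b ∘ τ := by
  classical
  have h1 : ∀ k : ℕ, Fintype.card {i // v (a i) = k} = Fintype.card {i // v (b i) = k} := by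
    intro k
    rw [← mo_apply, ← mo_apply, h]
  let e : (Σ k, {i // v (a i) = k}) ≃ (Σ k, {i // v (b i) = k}) :=
    Equiv.sigmaCongrRight fun k => Fintype.equivOfCardEq (h1 k)
  let τ : Equiv.Perm (Fin n) := (Equiv.sigmaFiberEquiv fun i => v (a i)).symm.trans
    (e.trans (Equiv.sigmaFiberEquiv fun i => v (b i)))
  refine ⟨τ, funext fun i => hv ?_⟩
  have h2 : v (b (τ i)) = v (a i) :=
    (Fintype.equivOfCardEq (h1 (v (a i))) ⟨i, rfl⟩).2
  exact h2.symm

variable {v} in
lemma poly_eq_zero (hv : Function.Injective v) :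
    ∑ a : Fin n → K, monomial (mo v a) (Cc w a) = 0 ↔ ∀ a, Sy w a = 0 := by
  classical
  constructor
  · intro h0 a
    have h1 := fact_det w v
    rw [h0, smul_zero] at h1
    have h2 := congrArg (coeff (mo v a)) h1
    rw [coeff_zero, coeff_sum] at h2
    have h3 : ∀ b : Fin n → K, coeff (mo v a) (monomial (mo v b) (Sy w b)) =
        if mo v b = mo v a then Sy w a else 0 := by
      intro b
      rw [coeff_monomial]
      split_ifs with hb
      · obtain ⟨τ, rfl⟩ := exists_perm hv hb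
        rw [Sy_comp]
      · rfl
    rw [Finset.sum_congr rfl fun b _ => h3 b, ← Finset.sum_filter, Finset.sum_const,
      nsmul_eq_mul] at h2
    have h4 : (0 : ℕ) < (Finset.univ.filter fun b : Fin n → K => mo v b = mo v a).card :=
      Finset.card_pos.2 ⟨a, Finset.mem_filter.2 ⟨Finset.mem_univ _, rfl⟩⟩
    have h5 : (((Finset.univ.filter fun b : Fin n → K => mo v b = mo v a).card : ℕ) : ℤ) ≠ 0 := by
      exact_mod_cast h4.ne'
    exact (mul_eq_zero.1 h2.symm).resolve_left h5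
  · intro h0
    have h1 := fact_det w v
    have h2 : ∑ a : Fin n → K, (monomial (mo v a) (Sy w a) : MvPolynomial ℕ ℤ) = 0 :=
      Finset.sum_eq_zero fun a _ => by rw [h0 a, map_zero]
    rw [h2] at h1
    have hn : (n.factorial : ℤ) ≠ 0 := by exact_mod_cast n.factorial_ne_zero
    exact (smul_eq_zero.1 h1).resolve_left hn

end

end WickAux

open WickAux in
/-- The Fischer norm. -/
theorem stWick : StWick := by
  intro A
  classical
  -- the variables
  let S : Finset ℕ := Finset.univ.biUnion fun i : Fin A.length =>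
    Finset.univ.biUnion fun j : Fin A.length => (((A.getD i []).getD j []).map Prod.snd).toFinset
  have hS : ∀ i j : Fin A.length, ∀ q ∈ (A.getD i []).getD j [], q.2 ∈ S := by
    intro i j q hq
    refine Finset.mem_biUnion.2 ⟨i, Finset.mem_univ _, Finset.mem_biUnion.2 ⟨j, Finset.mem_univ _, ?_⟩⟩
    rw [List.mem_toFinset]
    exact List.mem_map_of_mem hq
  let w : Fin A.length → Fin A.length → S → ℤ := fun i j k => cf ((A.getD i []).getD j []) k
  have h1 : Hf A = ∑ a : Fin A.length → S, Cc w a * Sy w a := by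
    rw [← hf_eq w]
    unfold Hf
    refine Finset.sum_congr rfl fun σ _ => Finset.sum_congr rfl fun π _ =>
      Finset.sum_congr rfl fun κ _ => ?_
    congr 1
    refine Finset.prod_congr rfl fun i _ => ?_
    exact ipZ_eq S _ _ (hS i (σ i))
  have h2 : (toMat A).det =
      ∑ a : Fin A.length → S, MvPolynomial.monomial (mo (fun k : S => (k : ℕ)) a) (Cc w a) := by
    rw [← det_eq w, ← Matrix.det_transpose, Matrix.det_apply']
    refine Finset.sum_congr rfl fun σ _ => ?_
    congr 1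
    refine Finset.prod_congr rfl fun i _ => ?_
    exact form_eq S _ (hS i (σ i))
  rw [h1, h2, ne_eq, ne_eq, hf_eq_zero, poly_eq_zero w Subtype.val_injective]

end Pool.Agent.Lib.MP_64d474_lc.ST2
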