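import Pool.Agent.Lib.MP_64d474_lc.ST2.Stmts
import Pool.Agent.Lib.MP_64d474_lc.ST.Xmod

/-!
# The value of a variable modulo a number (module Xm)
-/

set_option autoImplicit false

open Finset Pool.Agent.Lib.PT Pool.Agent.Lib.MP_64d474_lc.ST
open Pool.Agent.Lib.MP_64d474_lc.SubExp (Par bd pt testSet bound levels)

namespace Pool.Agent.Lib.MP_64d474_lc.ST2

namespace Xm

theorem pwm_eq (p x k : ℕ) : pwm p x k = x ^ k % p := by
  unfold pwm
  induction k with
  | zero => simp
  | succ k ih =>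
    rw [Function.iterate_succ_apply', ih, pow_succ, Nat.mod_mul_mod]

theorem hit_cast (p : ℕ) (l : List ℕ) (R : ℕ) (d : List ℕ) (j : ℕ) :
    ((hitm p l R d j : ℕ) : ZMod p) = ((hitv l R d j : ℕ) : ZMod p) := by
  unfold hitm hitv
  split_ifs with h
  · exact ST.Xmod.foldr_cast p _ _ (ST.Xmod.dbl_cast p _ _) _
  · exact ZMod.natCast_mod _ _

/-- Horner's rule -/
theorem horner_cast (p r : ℕ) (a : ℕ → ℕ) : ∀ (k s : ℕ),
    ((((List.range' s k).foldr (fun i b => (a i + r * b) % p) 0 : ℕ)) : ZMod p) =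
      ((∑ i ∈ Finset.range k, a (s + i) * r ^ i : ℕ) : ZMod p) := by
  intro k
  induction k with
  | zero => intro s; simp
  | succ k ih =>
    intro s
    rw [List.range'_succ, List.foldr_cons, ZMod.natCast_mod, Nat.cast_add, Nat.cast_mul, ih (s + 1),
      Finset.sum_range_succ', ← Nat.cast_mul, ← Nat.cast_add]
    congr 1
    rw [add_comm (a s), Finset.mul_sum, pow_zero, mul_one, add_zero]
    congr 1
    apply Finset.sum_congr rfl
    intro i _
    rw [show s + 1 + i = s + (i + 1) by ring]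
    ring

theorem sum_map_range (f : ℕ → ℕ) (k : ℕ) :
    ((List.range k).map f).sum = ∑ i ∈ Finset.range k, f i := by
  rw [← List.sum_toFinset f (List.nodup_range), List.toFinset_range]

theorem tmod_cast (p n m : ℕ) (e : List ℕ) :
    ((tmod p n m e : ℕ) : ZMod p) =
      ((((List.range (levels n + 1)).map fun i =>
        e.getD (1 + levels n + i) 0 * radix n m ^ i).sum : ℕ) : ZMod p) := by
  unfold tmod
  rw [List.range_eq_range', horner_cast p (radix n m) (fun i => e.getD (1 + levels n + i) 0),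
    ← List.range_eq_range', sum_map_range]
  simp only [zero_add]

theorem fold_inv (p r t : ℕ) (w : ℕ → ℕ) (s0 : ℕ × ℕ) (h1 : ((s0.1 : ℕ) : ZMod p) = (t : ZMod p))
    (h2 : ((s0.2 : ℕ) : ZMod p) = 1) : ∀ k : ℕ,
    ((((List.range k).foldl (fun (s : ℕ × ℕ) i => (pwm p s.1 r, s.2 * pwm p s.1 (w i) % p))
      s0).1 : ℕ) : ZMod p) = ((t ^ (r ^ k) : ℕ) : ZMod p) ∧
    ((((List.range k).foldl (fun (s : ℕ × ℕ) i => (pwm p s.1 r, s.2 * pwm p s.1 (w i) % p))
      s0).2 : ℕ) : ZMod p) = ((t ^ (∑ i ∈ Finset.range k, w i * r ^ i) : ℕ) : ZMod p) := by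
  intro k
  induction k with
  | zero => simp [h1, h2]
  | succ k ih =>
    rw [List.range_succ, List.foldl_append]
    set s := (List.range k).foldl (fun (s : ℕ × ℕ) i => (pwm p s.1 r, s.2 * pwm p s.1 (w i) % p))
      s0 with hs
    simp only [List.foldl_cons, List.foldl_nil]
    obtain ⟨i1, i2⟩ := ih
    constructor
    · rw [pwm_eq, ZMod.natCast_mod, Nat.cast_pow, i1, ← Nat.cast_pow, ← pow_mul, pow_succ]
    · rw [ZMod.natCast_mod, Nat.cast_mul, pwm_eq, ZMod.natCast_mod, Nat.cast_pow, i1, i2,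
        ← Nat.cast_pow, ← Nat.cast_mul, ← pow_mul, Finset.sum_range_succ, pow_add,
        mul_comm (w k) (r ^ k)]

theorem t_cast (p n m : ℕ) (e : List ℕ) (j : ℕ) :
    ((tm p n m e j : ℕ) : ZMod p) = ((tval n m e j : ℕ) : ZMod p) := by
  have h := (fold_inv p (radix n m) (((List.range (levels n + 1)).map fun i =>
        e.getD (1 + levels n + i) 0 * radix n m ^ i).sum)
      (fun i => pwm (e.getD 0 0 + 1) (e.getD (1 + i) 0) j) (tmod p n m e, 1 % p)
      (tmod_cast p n m e) (by simp) (levels n)).2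
  unfold tm tval
  rw [sum_map_range (fun i => wdig e j i * radix n m ^ i)]
  rw [h]
  congr 3
  funext i
  rw [pwm_eq]
  rfl

end Xm

theorem stXm : StXm := by
  intro p n m l R d e j _
  unfold xm xv
  split_ifs with h
  · exact Xm.hit_cast p l R d j
  · exact Xm.t_cast p n m e j

end Pool.Agent.Lib.MP_64d474_lc.ST2
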